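import Pool.Agent.Lib.MP_40a019_an.I3.Defs

namespace Pool.Agent.Lib.MP_40a019_an.I3

open Complex Metric Set Filter Topology

theorem isOpen_D (r : ℝ) : IsOpen (D r) := isOpen_lt continuous_const continuous_norm

theorem D_anti {r r' : ℝ} (h : r ≤ r') : D r' ⊆ D r := fun _ hu => lt_of_le_of_lt h hu

theorem mem_D {r : ℝ} {u : ℂ} : u ∈ D r ↔ r < ‖u‖ := Iff.rfl

theorem mem_D_of_dist {ρ δ : ℝ} {u x : ℂ} (hu : u ∈ D (ρ + δ)) (hx : ‖x - u‖ ≤ δ) : x ∈ D ρ := by
  have h1 : ρ + δ < ‖u‖ := hu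
  have h2 : ‖u‖ ≤ ‖x‖ + ‖x - u‖ := by
    calc ‖u‖ = ‖x - (x - u)‖ := by congr 1; ring
      _ ≤ _ := norm_sub_le _ _
  have : ρ < ‖x‖ := by linarith
  exact this

theorem exists_mem_D (r : ℝ) : ∃ u : ℂ, u ∈ D r := by
  refine ⟨((|r| + 1 : ℝ) : ℂ), ?_⟩
  rw [mem_D, Complex.norm_real, Real.norm_eq_abs]
  have := le_abs_self r
  have h2 := le_abs_self (|r| + 1)
  linarith

/-- affine maps are close with `κ = 0` -/
theorem close_affine (r : ℝ) (σ τ : ℂ) : Close 0 r σ τ (fun u => σ * u + τ) := by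
  have hd : ∀ u : ℂ, HasDerivAt (fun u : ℂ => σ * u + τ) σ u := by
    intro u
    have := ((hasDerivAt_id u).const_mul σ).add_const τ
    simpa using this
  have hd' : ∀ u : ℂ, deriv (fun u : ℂ => σ * u + τ) u = σ := fun u => (hd u).deriv
  refine ⟨fun u _ => (hd u).differentiableAt, ?_, ?_, ?_, ?_, ?_, ?_⟩
  · intro u _; simp
  · intro u _; rw [hd']; simp
  · intro u _ v _
    rw [show σ * u + τ - (σ * v + τ) - σ * (u - v) = 0 by ring]; simp
  · intro u _ v _; rw [hd', hd']; simp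
  · intro u _ v _
    rw [hd', show σ * u + τ - (σ * v + τ) - σ * (u - v) = 0 by ring]; simp
  · refine ⟨0, fun u _ => by simp⟩

/-- monotonicity -/
theorem Close.mono {κ κ' r r' : ℝ} {σ τ : ℂ} {a : ℂ → ℂ} (h : Close κ r σ τ a) (hκ : κ ≤ κ')
    (hr : r ≤ r') : Close κ' r' σ τ a := by
  have hD := D_anti hr
  refine ⟨fun u hu => h.diff u (hD hu), fun u hu => (h.val u (hD hu)).trans hκ,
    fun u hu => (h.der u (hD hu)).trans hκ, fun u hu v hv => (h.lip u (hD hu) v (hD hv)).trans ?_,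
    fun u hu v hv => (h.derLip u (hD hu) v (hD hv)).trans ?_,
    fun u hu v hv => (h.tay u (hD hu) v (hD hv)).trans ?_, ?_⟩
  · gcongr
  · gcongr
  · gcongr
  · obtain ⟨K, hK⟩ := h.asy
    exact ⟨K, fun u hu => hK u (hD hu)⟩

theorem deriv_le_of_sup {ρ δ μ : ℝ} (hδ : 0 < δ) {w : ℂ → ℂ}
    (hd : ∀ u ∈ D ρ, DifferentiableAt ℂ w u) (hμ : ∀ u ∈ D ρ, ‖w u‖ ≤ μ) {u : ℂ}
    (hu : u ∈ D (ρ + δ)) : ‖deriv w u‖ ≤ μ / δ := by
  apply Complex.norm_deriv_le_of_forall_mem_sphere_norm_le hδ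
  · apply DifferentiableOn.diffContOnCl
    rw [closure_ball _ hδ.ne']
    intro x hx
    have : x ∈ D ρ := mem_D_of_dist hu (by simpa [dist_eq_norm] using hx)
    exact (hd x this).differentiableWithinAt
  · intro z hz
    apply hμ
    exact mem_D_of_dist hu (le_of_eq (by simpa [dist_eq_norm] using hz))

theorem nonneg_of_sup {ρ μ : ℝ} {w : ℂ → ℂ} (hμ : ∀ u ∈ D ρ, ‖w u‖ ≤ μ) : 0 ≤ μ := by
  obtain ⟨u, hu⟩ := exists_mem_D ρ
  exact (norm_nonneg _).trans (hμ u hu)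

theorem lip_of_sup {ρ δ μ : ℝ} (hδ : 0 < δ) {w : ℂ → ℂ}
    (hd : ∀ u ∈ D ρ, DifferentiableAt ℂ w u) (hμ : ∀ u ∈ D ρ, ‖w u‖ ≤ μ) {u v : ℂ}
    (hu : u ∈ D (ρ + δ)) (hv : v ∈ D (ρ + δ)) : ‖w u - w v‖ ≤ 4 * μ / δ * ‖u - v‖ := by
  have hμ0 := nonneg_of_sup hμ
  by_cases h : ‖u - v‖ ≤ δ / 2
  · have hb : ∀ x ∈ closedBall v (δ / 2), x ∈ D (ρ + δ / 2) := by
      intro x hx
      refine mem_D_of_dist (ρ := ρ + δ / 2) (δ := δ / 2) (u := v) ?_
        (by simpa [dist_eq_norm] using hx)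
      have : ρ + δ / 2 + δ / 2 = ρ + δ := by ring
      rwa [this]
    have key := (convex_closedBall v (δ / 2)).norm_image_sub_le_of_norm_deriv_le (𝕜 := ℂ)
      (f := w) (C := μ / (δ / 2)) (x := v) (y := u) ?_ ?_ ?_ ?_
    · refine key.trans ?_
      have : μ / (δ / 2) ≤ 4 * μ / δ := by
        rw [div_le_div_iff₀ (by positivity) hδ]; nlinarith
      gcongr
    · intro x hx
      exact hd x (D_anti (by linarith) (hb x hx))
    · intro x hx
      exact deriv_le_of_sup (by positivity) hd hμ (hb x hx)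
    · simp; positivity
    · simpa [dist_eq_norm] using h
  · push Not at h
    have h1 : ‖w u - w v‖ ≤ 2 * μ := by
      calc ‖w u - w v‖ ≤ ‖w u‖ + ‖w v‖ := norm_sub_le _ _
        _ ≤ μ + μ := add_le_add (hμ u (D_anti (by linarith) hu)) (hμ v (D_anti (by linarith) hv))
        _ = 2 * μ := by ring
    refine h1.trans ?_
    calc 2 * μ = 4 * μ / δ * (δ / 2) := by field_simp; ring
      _ ≤ 4 * μ / δ * ‖u - v‖ := by gcongr

theorem derivLip_of_sup {ρ δ μ : ℝ} (hδ : 0 < δ) {w : ℂ → ℂ}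
    (hd : ∀ u ∈ D ρ, DifferentiableAt ℂ w u) (hμ : ∀ u ∈ D ρ, ‖w u‖ ≤ μ) {u v : ℂ}
    (hu : u ∈ D (ρ + δ)) (hv : v ∈ D (ρ + δ)) :
    ‖deriv w u - deriv w v‖ ≤ 16 * μ / δ ^ 2 * ‖u - v‖ := by
  have h1 : ∀ x ∈ D (ρ + δ / 2), DifferentiableAt ℂ (deriv w) x := by
    intro x hx
    have ho : DifferentiableOn ℂ w (D ρ) := fun y hy => (hd y hy).differentiableWithinAt
    exact (ho.deriv (isOpen_D ρ)).differentiableAt
      ((isOpen_D ρ).mem_nhds (D_anti (by linarith) hx))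
  have h2 : ∀ x ∈ D (ρ + δ / 2), ‖deriv w x‖ ≤ μ / (δ / 2) := fun x hx =>
    deriv_le_of_sup (by positivity) hd hμ hx
  have e : ρ + δ / 2 + δ / 2 = ρ + δ := by ring
  have := lip_of_sup (δ := δ / 2) (by positivity) h1 h2 (u := u) (v := v)
    (by rw [e]; exact hu) (by rw [e]; exact hv)
  refine this.trans (le_of_eq ?_)
  congr 1
  field_simp
  ring

theorem tay_of_sup {ρ δ μ : ℝ} (hδ : 0 < δ) {w : ℂ → ℂ}
    (hd : ∀ u ∈ D ρ, DifferentiableAt ℂ w u) (hμ : ∀ u ∈ D ρ, ‖w u‖ ≤ μ) {u v : ℂ}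
    (hu : u ∈ D (ρ + δ)) (hv : v ∈ D (ρ + δ)) :
    ‖w u - w v - deriv w v * (u - v)‖ ≤ 64 * μ / δ ^ 2 * ‖u - v‖ ^ 2 := by
  have hμ0 := nonneg_of_sup hμ
  have hv' : v ∈ D (ρ + δ / 2) := D_anti (by linarith) hv
  by_cases h : ‖u - v‖ ≤ δ / 2
  · have hb : ∀ x ∈ closedBall v ‖u - v‖, x ∈ D (ρ + δ / 2) := by
      intro x hx
      refine mem_D_of_dist (ρ := ρ + δ / 2) (δ := δ / 2) (u := v) ?_ ?_
      · have : ρ + δ / 2 + δ / 2 = ρ + δ := by ring
        rwa [this]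
      · have : ‖x - v‖ ≤ ‖u - v‖ := by simpa [dist_eq_norm] using hx
        linarith
    have hder : ∀ x ∈ closedBall v ‖u - v‖,
        HasDerivAt (fun x => w x - deriv w v * x) (deriv w x - deriv w v) x := by
      intro x hx
      have hx' := (hd x (D_anti (by linarith) (hb x hx))).hasDerivAt
      have := hx'.fun_sub ((hasDerivAt_id x).const_mul (deriv w v))
      simpa using this
    have key := (convex_closedBall v ‖u - v‖).norm_image_sub_le_of_norm_deriv_le (𝕜 := ℂ)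
      (f := fun x => w x - deriv w v * x) (C := 64 * μ / δ ^ 2 * ‖u - v‖) (x := v) (y := u)
      ?_ ?_ ?_ ?_
    · have e : w u - w v - deriv w v * (u - v) = (w u - deriv w v * u) - (w v - deriv w v * v) := by
        ring
      rw [e]
      refine key.trans (le_of_eq ?_)
      ring
    · intro x hx
      exact (hder x hx).differentiableAt
    · intro x hx
      rw [(hder x hx).deriv]
      have h3 := derivLip_of_sup (ρ := ρ) (δ := δ / 2) (by positivity) hd hμ (hb x hx) hv'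
      refine h3.trans ?_
      have e : 16 * μ / (δ / 2) ^ 2 = 64 * μ / δ ^ 2 := by field_simp; ring
      rw [e]
      have : ‖x - v‖ ≤ ‖u - v‖ := by simpa [dist_eq_norm] using hx
      gcongr
    · simp
    · simp [dist_eq_norm]
  · push Not at h
    have h1 : ‖w u - w v‖ ≤ 2 * μ := by
      calc ‖w u - w v‖ ≤ ‖w u‖ + ‖w v‖ := norm_sub_le _ _
        _ ≤ μ + μ := add_le_add (hμ u (D_anti (by linarith) hu)) (hμ v (D_anti (by linarith) hv))
        _ = 2 * μ := by ring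
    have h2 : ‖deriv w v‖ ≤ μ / δ := deriv_le_of_sup hδ hd hμ hv
    calc ‖w u - w v - deriv w v * (u - v)‖ ≤ ‖w u - w v‖ + ‖deriv w v * (u - v)‖ := norm_sub_le _ _
      _ ≤ 2 * μ + μ / δ * ‖u - v‖ := by rw [norm_mul]; gcongr
      _ = 8 * μ / δ ^ 2 * (δ / 2) ^ 2 + 2 * μ / δ ^ 2 * (δ / 2) * ‖u - v‖ := by
        field_simp; ring
      _ ≤ 8 * μ / δ ^ 2 * ‖u - v‖ ^ 2 + 2 * μ / δ ^ 2 * ‖u - v‖ * ‖u - v‖ := by
        gcongr
      _ = 10 * μ / δ ^ 2 * ‖u - v‖ ^ 2 := by ring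
      _ ≤ 64 * μ / δ ^ 2 * ‖u - v‖ ^ 2 := by gcongr; norm_num

/-- sup norm closeness gives two-point `C^2` closeness on a smaller domain -/
theorem Close.perturb {κ r ρ δ μ : ℝ} {σ τ : ℂ} {a a' : ℂ → ℂ} (h : Close κ r σ τ a)
    (hr : r ≤ ρ + δ) (hδ : 0 < δ) (hδ1 : δ ≤ 1)
    (hd : ∀ u ∈ D ρ, DifferentiableAt ℂ a u) (hd' : ∀ u ∈ D ρ, DifferentiableAt ℂ a' u)
    (hμ : ∀ u ∈ D ρ, ‖a' u - a u‖ ≤ μ)
    (hasy : ∃ K, ∀ u ∈ D (ρ + δ), ‖a' u - (σ * u + τ)‖ * ‖u‖ ^ 2 ≤ K) :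
    Close (κ + 64 * μ / δ ^ 2) (ρ + δ) σ τ a' := by
  have hμ0 : 0 ≤ μ := nonneg_of_sup (w := fun u => a' u - a u) hμ
  have hD := D_anti hr
  have hD2 : D (ρ + δ) ⊆ D ρ := D_anti (by linarith)
  set w : ℂ → ℂ := fun u => a' u - a u with hw
  have hdw : ∀ u ∈ D ρ, DifferentiableAt ℂ w u := fun u hu => (hd' u hu).sub (hd u hu)
  have hder : ∀ u ∈ D ρ, deriv a' u = deriv a u + deriv w u := by
    intro u hu
    have h1 := ((hd' u hu).hasDerivAt.sub (hd u hu).hasDerivAt).deriv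
    have h2 : deriv w u = deriv a' u - deriv a u := by
      rw [← h1]; rfl
    rw [h2]; ring
  have hc1 : μ ≤ 64 * μ / δ ^ 2 := by
    rw [le_div_iff₀ (by positivity)]
    have : δ ^ 2 ≤ 1 := by nlinarith
    nlinarith
  have hc2 : μ / δ ≤ 64 * μ / δ ^ 2 := by
    rw [div_le_div_iff₀ hδ (by positivity)]
    nlinarith [mul_nonneg hμ0 hδ.le, mul_nonneg (mul_nonneg hμ0 hδ.le) (sub_nonneg.2 hδ1)]
  have hc3 : 4 * μ / δ ≤ 64 * μ / δ ^ 2 := by
    rw [div_le_div_iff₀ hδ (by positivity)]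
    nlinarith [mul_nonneg hμ0 hδ.le, mul_nonneg (mul_nonneg hμ0 hδ.le) (sub_nonneg.2 hδ1)]
  have hc4 : 16 * μ / δ ^ 2 ≤ 64 * μ / δ ^ 2 := by gcongr; norm_num
  refine ⟨fun u hu => hd' u (hD2 hu), ?_, ?_, ?_, ?_, ?_, hasy⟩
  · intro u hu
    have e : a' u - (σ * u + τ) = (a u - (σ * u + τ)) + w u := by simp [hw]
    rw [e]
    exact (norm_add_le _ _).trans (add_le_add (h.val u (hD hu)) ((hμ u (hD2 hu)).trans hc1))
  · intro u hu
    rw [hder u (hD2 hu)]
    have e : deriv a u + deriv w u - σ = (deriv a u - σ) + deriv w u := by ring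
    rw [e]
    exact (norm_add_le _ _).trans (add_le_add (h.der u (hD hu))
      ((deriv_le_of_sup hδ hdw hμ hu).trans hc2))
  · intro u hu v hv
    have e : a' u - a' v - σ * (u - v) = (a u - a v - σ * (u - v)) + (w u - w v) := by
      simp only [hw]; ring
    rw [e, add_mul]
    refine (norm_add_le _ _).trans (add_le_add (h.lip u (hD hu) v (hD hv))
      ((lip_of_sup hδ hdw hμ hu hv).trans ?_))
    gcongr
  · intro u hu v hv
    rw [hder u (hD2 hu), hder v (hD2 hv)]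
    have e : deriv a u + deriv w u - (deriv a v + deriv w v)
      = (deriv a u - deriv a v) + (deriv w u - deriv w v) := by ring
    rw [e, add_mul]
    refine (norm_add_le _ _).trans (add_le_add (h.derLip u (hD hu) v (hD hv))
      ((derivLip_of_sup hδ hdw hμ hu hv).trans ?_))
    gcongr
  · intro u hu v hv
    rw [hder v (hD2 hv)]
    have e : a' u - a' v - (deriv a v + deriv w v) * (u - v)
      = (a u - a v - deriv a v * (u - v)) + (w u - w v - deriv w v * (u - v)) := by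
      simp only [hw]; ring
    rw [e, add_mul]
    exact (norm_add_le _ _).trans (add_le_add (h.tay u (hD hu) v (hD hv))
      (tay_of_sup hδ hdw hμ hu hv))

/-- inverse function lemma -/
theorem inv_lemma (σ : ℂ) (hσ : ‖σ‖ = 1) (U : Set ℂ) (hU : IsOpen U) (F : ℂ → ℂ)
    (hF : ∀ u ∈ U, DifferentiableAt ℂ F u)
    (hL : ∀ x ∈ U, ∀ y ∈ U, ‖F x - F y - σ * (x - y)‖ ≤ 1 / 2 * ‖x - y‖) :
    ∃ J : ℂ → ℂ, (∀ x ∈ U, J (F x) = x) ∧
      ∀ (u : ℂ) (η : ℝ) (y : ℂ), 0 ≤ η → closedBall u η ⊆ U → ‖y - F u‖ ≤ η / 2 →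
        J y ∈ U ∧ F (J y) = y ∧ ‖J y - u‖ ≤ 2 * ‖y - F u‖ ∧ DifferentiableAt ℂ J y := by
  have hlow : ∀ x ∈ U, ∀ y ∈ U, ‖x - y‖ ≤ 2 * ‖F x - F y‖ := by
    intro x hx y hy
    have h1 := hL x hx y hy
    have h2 : ‖σ * (x - y)‖ = ‖x - y‖ := by rw [norm_mul, hσ, one_mul]
    have h3 : ‖σ * (x - y)‖ ≤ ‖F x - F y‖ + ‖F x - F y - σ * (x - y)‖ := by
      calc ‖σ * (x - y)‖ = ‖(F x - F y) - (F x - F y - σ * (x - y))‖ := by congr 1; ring
        _ ≤ _ := norm_sub_le _ _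
    rw [h2] at h3
    linarith
  have hinj : InjOn F U := by
    intro x hx y hy hxy
    have := hlow x hx y hy
    rw [hxy, sub_self, norm_zero, mul_zero] at this
    exact sub_eq_zero.1 (norm_le_zero_iff.1 this)
  have hexists : ∀ (u : ℂ) (η : ℝ) (y : ℂ), 0 ≤ η → closedBall u η ⊆ U → ‖y - F u‖ ≤ η / 2 →
      ∃ x ∈ closedBall u η, F x = y := by
    intro u η y hη hball hy
    have hσ0 : σ ≠ 0 := by
      intro h; rw [h, norm_zero] at hσ; norm_num at hσ
    -- the contraction x ↦ x - σ⁻¹ (F x - y)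
    let Φ : ℂ → ℂ := fun x => x - σ⁻¹ * (F x - y)
    have hΦ : ∀ x ∈ closedBall u η, ∀ x' ∈ closedBall u η, dist (Φ x) (Φ x') ≤ 1 / 2 * dist x x' := by
      intro x hx x' hx'
      have h1 := hL x (hball hx) x' (hball hx')
      rw [dist_eq_norm, dist_eq_norm]
      have e : Φ x - Φ x' = - (σ⁻¹ * (F x - F x' - σ * (x - x'))) := by
        simp only [Φ]; field_simp; ring
      rw [e, norm_neg, norm_mul, norm_inv, hσ, inv_one, one_mul]
      exact h1
    have hmaps : MapsTo Φ (closedBall u η) (closedBall u η) := by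
      intro x hx
      have hu : u ∈ closedBall u η := mem_closedBall_self hη
      have h1 := hΦ x hx u hu
      have h2 : dist (Φ u) u ≤ η / 2 := by
        rw [dist_eq_norm]
        have e : Φ u - u = σ⁻¹ * (y - F u) := by simp only [Φ]; ring
        rw [e, norm_mul, norm_inv, hσ, inv_one, one_mul]
        exact hy
      have h3 : dist x u ≤ η := hx
      have : dist (Φ x) u ≤ η := by
        calc dist (Φ x) u ≤ dist (Φ x) (Φ u) + dist (Φ u) u := dist_triangle _ _ _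
          _ ≤ 1 / 2 * dist x u + η / 2 := add_le_add h1 h2
          _ ≤ 1 / 2 * η + η / 2 := by gcongr
          _ = η := by ring
      exact this
    have hcomplete : IsComplete (closedBall u η) := isClosed_closedBall.isComplete
    have hcontr : ContractingWith (1 / 2 : NNReal) (hmaps.restrict Φ _ _) := by
      refine ⟨by rw [← NNReal.coe_lt_coe]; norm_num, ?_⟩
      apply LipschitzWith.of_dist_le_mul
      rintro ⟨x, hx⟩ ⟨x', hx'⟩
      have := hΦ x hx x' hx'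
      change dist (Φ x) (Φ x') ≤ ((1 / 2 : NNReal) : ℝ) * dist x x'
      simpa using this
    obtain ⟨x, hx, hfix, -⟩ := hcontr.exists_fixedPoint' hcomplete hmaps
      (mem_closedBall_self hη) (edist_ne_top _ _)
    refine ⟨x, hx, ?_⟩
    have : x - σ⁻¹ * (F x - y) = x := hfix
    have h4 : σ⁻¹ * (F x - y) = 0 := by linear_combination (-1 : ℂ) * this
    rcases mul_eq_zero.1 h4 with h5 | h5
    · exact absurd h5 (inv_ne_zero hσ0)
    · exact sub_eq_zero.1 h5
  refine ⟨Function.invFunOn F U, fun x hx => hinj.leftInvOn_invFunOn hx, ?_⟩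
  intro u η y hη hball hy
  obtain ⟨x, hx, hxy⟩ := hexists u η y hη hball hy
  have hxU := hball hx
  have hJ : Function.invFunOn F U y = x := by
    rw [← hxy]; exact hinj.leftInvOn_invFunOn hxU
  rw [hJ]
  refine ⟨hxU, hxy, ?_, ?_⟩
  · have := hlow x hxU u (hball (mem_closedBall_self hη))
    rwa [hxy] at this
  · -- differentiability of the inverse at y = F x
    obtain ⟨η', hη', hball'⟩ := Metric.isOpen_iff.1 hU x hxU
    have hball2 : closedBall x (η' / 2) ⊆ U :=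
      (closedBall_subset_ball (by linarith)).trans hball'
    have hev : ∀ᶠ y' in 𝓝 y, ‖y' - F x‖ ≤ η' / 2 / 2 := by
      have : ∀ᶠ y' in 𝓝 y, dist y' y < η' / 4 := Metric.ball_mem_nhds _ (by positivity)
      filter_upwards [this] with y' hy'
      rw [hxy, ← dist_eq_norm]
      linarith
    have hgood : ∀ᶠ y' in 𝓝 y, Function.invFunOn F U y' ∈ U ∧ F (Function.invFunOn F U y') = y' ∧
        ‖Function.invFunOn F U y' - x‖ ≤ 2 * ‖y' - y‖ := by
      filter_upwards [hev] with y' hy'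
      obtain ⟨x', hx', hxy'⟩ := hexists x (η' / 2) y' (by positivity) hball2 hy'
      have hxU' := hball2 hx'
      have hJ' : Function.invFunOn F U y' = x' := by
        rw [← hxy']; exact hinj.leftInvOn_invFunOn hxU'
      rw [hJ']
      refine ⟨hxU', hxy', ?_⟩
      have := hlow x' hxU' x hxU
      rwa [hxy, hxy'] at this
    have hcont : ContinuousAt (Function.invFunOn F U) y := by
      rw [ContinuousAt, hJ, tendsto_iff_norm_sub_tendsto_zero]
      have h0 : Tendsto (fun y' => 2 * ‖y' - y‖) (𝓝 y) (𝓝 0) := by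
        have : Tendsto (fun y' : ℂ => 2 * ‖y' - y‖) (𝓝 y) (𝓝 (2 * ‖y - y‖)) := by
          apply Continuous.tendsto; fun_prop
        simpa using this
      refine squeeze_zero' (Eventually.of_forall fun _ => norm_nonneg _) ?_ h0
      filter_upwards [hgood] with y' hy' using hy'.2.2
    have hder0 : deriv F x ≠ 0 := by
      intro h0
      -- lower bound contradicts zero derivative
      have hd := (hF x hxU).hasDerivAt
      rw [h0] at hd
      have hlit := hd.isLittleO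
      have h6 := (hlit.def (show (0 : ℝ) < 1 / 4 by norm_num))
      have h7 : ∀ᶠ x' in 𝓝 x, x' ∈ U := hU.mem_nhds hxU
      obtain ⟨ε, hε, hball3⟩ := Metric.eventually_nhds_iff.1 (h6.and h7)
      have hx1 : dist (x + (ε / 2 : ℝ)) x < ε := by
        rw [dist_eq_norm]
        simp only [add_sub_cancel_left, Complex.norm_real, Real.norm_eq_abs]
        rw [abs_of_pos (by positivity)]; linarith
      obtain ⟨h8, h9⟩ := hball3 hx1
      have h10 := hlow _ h9 x hxU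
      simp only [smul_zero, sub_zero] at h8
      have h11 : ‖x + ((ε / 2 : ℝ) : ℂ) - x‖ = ε / 2 := by
        rw [add_sub_cancel_left, Complex.norm_real, Real.norm_eq_abs, abs_of_pos (by positivity)]
      rw [h11] at h8 h10
      linarith
    have hFx := (hF x hxU).hasDerivAt
    have hh : HasDerivAt F (deriv F x) (Function.invFunOn F U y) := by rw [hJ]; exact hFx
    refine (HasDerivAt.of_local_left_inverse hcont hh hder0 ?_).differentiableAt
    filter_upwards [hgood] with y' hy' using hy'.2.1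

end Pool.Agent.Lib.MP_40a019_an.I3
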