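import Pool.Agent.Lib.MP_40a019_an.I3.Basic

namespace Pool.Agent.Lib.MP_40a019_an.I3

open Complex Metric Set Filter Topology MeasureTheory

/-- Cauchy transform along a measurable curve -/
noncomputable def ctr_int (ρ z : ℝ → ℂ) (w : ℂ) : ℂ :=
  ∫ θ in (0 : ℝ)..(2 * Real.pi), ρ θ / (w - z θ)

theorem norm_quot_le {a x : ℂ} {M d : ℝ} (hd : 0 < d) (ha : ‖a‖ ≤ M)
    (h : a ≠ 0 → d ≤ ‖x‖) : ‖a / x‖ ≤ M / d := by
  by_cases h0 : a = 0
  · rw [h0, zero_div, norm_zero]
    have := (norm_nonneg a).trans ha
    positivity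
  · rw [norm_div]
    have := (norm_nonneg a).trans ha
    have h2 := h h0
    gcongr

theorem intble {ρ z : ℝ → ℂ} {M d : ℝ} (hρ : Measurable ρ) (hz : Measurable z)
    (hρM : ∀ θ, ‖ρ θ‖ ≤ M) (hd : 0 < d) {w : ℂ} (hw : ∀ θ, ρ θ ≠ 0 → d ≤ ‖w - z θ‖) :
    IntervalIntegrable (fun θ => ρ θ / (w - z θ)) volume 0 (2 * Real.pi) := by
  rw [intervalIntegrable_iff]
  refine Measure.integrableOn_of_bounded (M := M / d) ?_ ?_ ?_
  · simp [uIoc]
  · exact (hρ.div (measurable_const.sub hz)).aestronglyMeasurable
  · exact ae_of_all _ fun θ => norm_quot_le hd (hρM θ) (hw θ)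

theorem isCT_int {K : Set ℂ} {M R : ℝ} {ρ z : ℝ → ℂ} (hρ : Measurable ρ) (hz : Measurable z)
    (hρM : ∀ θ, ‖ρ θ‖ ≤ M) (hK : ∀ θ, ρ θ ≠ 0 → z θ ∈ K) (hR : ∀ x ∈ K, ‖x‖ ≤ R) (hR0 : 0 ≤ R) :
    IsCT (2 * Real.pi * M) K (ctr_int ρ z) := by
  have hM : 0 ≤ M := (norm_nonneg _).trans (hρM 0)
  have hpi : |2 * Real.pi - 0| = 2 * Real.pi := by
    rw [sub_zero, abs_of_pos Real.two_pi_pos]
  have hdist : ∀ {d : ℝ} {w : ℂ}, (∀ x ∈ K, d ≤ ‖w - x‖) → ∀ θ, ρ θ ≠ 0 → d ≤ ‖w - z θ‖ :=
    fun h θ hθ => h _ (hK θ hθ)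
  have hlip2 : ∀ d > 0, ∀ w w', (∀ x ∈ K, d ≤ ‖w - x‖) → (∀ x ∈ K, d ≤ ‖w' - x‖) →
      ctr_int ρ z w' - ctr_int ρ z w
        = ∫ θ in (0 : ℝ)..(2 * Real.pi), ρ θ * (w - w') / ((w' - z θ) * (w - z θ)) := by
    intro d hd w w' hw hw'
    unfold ctr_int
    rw [← intervalIntegral.integral_sub (intble hρ hz hρM hd (hdist hw'))
      (intble hρ hz hρM hd (hdist hw))]
    congr 1
    ext θ
    by_cases h0 : ρ θ = 0
    · simp [h0]
    · have h1 : w - z θ ≠ 0 := by
        rw [← norm_pos_iff]; exact lt_of_lt_of_le hd (hdist hw θ h0)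
      have h2 : w' - z θ ≠ 0 := by
        rw [← norm_pos_iff]; exact lt_of_lt_of_le hd (hdist hw' θ h0)
      field_simp
      ring
  refine ⟨?_, ?_, ?_, ?_⟩
  · intro d hd w hw
    have := intervalIntegral.norm_integral_le_of_norm_le_const (a := 0) (b := 2 * Real.pi)
      (f := fun θ => ρ θ / (w - z θ)) (C := M / d)
      (fun θ _ => norm_quot_le hd (hρM θ) (hdist hw θ))
    rw [hpi] at this
    refine this.trans (le_of_eq ?_)
    ring
  · intro d hd w w' hw hw'
    rw [← norm_neg, neg_sub, hlip2 d hd w w' hw hw']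
    have := intervalIntegral.norm_integral_le_of_norm_le_const (a := 0) (b := 2 * Real.pi)
      (f := fun θ => ρ θ * (w - w') / ((w' - z θ) * (w - z θ))) (C := M * ‖w - w'‖ / d ^ 2)
      (fun θ _ => norm_quot_le (by positivity) (by rw [norm_mul]; gcongr; exact hρM θ)
        (fun h0 => by
          have h0' : ρ θ ≠ 0 := left_ne_zero_of_mul h0
          rw [norm_mul, sq]
          exact mul_le_mul (hdist hw' θ h0') (hdist hw θ h0') hd.le (norm_nonneg _)))
    rw [hpi] at this
    refine this.trans (le_of_eq ?_)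
    ring
  · intro d hd w hw
    -- derivative
    have hw2 : ∀ w', ‖w' - w‖ ≤ d / 2 → ∀ x ∈ K, d / 2 ≤ ‖w' - x‖ := by
      intro w' h x hx
      have h1 := hw x hx
      have : ‖w - x‖ ≤ ‖w' - x‖ + ‖w' - w‖ := by
        calc ‖w - x‖ = ‖(w' - x) - (w' - w)‖ := by congr 1; ring
          _ ≤ _ := norm_sub_le _ _
      linarith
    have hder : HasDerivAt (ctr_int ρ z)
        (∫ θ in (0 : ℝ)..(2 * Real.pi), -(ρ θ / (w - z θ) ^ 2)) w := by
      rw [hasDerivAt_iff_isLittleO]
      refine Asymptotics.IsBigO.trans_isLittleO (g := fun w' => (w' - w) ^ 2) ?_ ?_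
      · refine Asymptotics.IsBigO.of_bound (2 * Real.pi * (M / (d / 2 * d ^ 2))) ?_
        have hev : ∀ᶠ w' in 𝓝 w, ‖w' - w‖ ≤ d / 2 := by
          have : ∀ᶠ w' in 𝓝 w, dist w' w < d / 2 := Metric.ball_mem_nhds _ (by positivity)
          filter_upwards [this] with w' h
          rw [← dist_eq_norm]; exact h.le
        filter_upwards [hev] with w' hw'
        have i1 := intble hρ hz hρM (by positivity : 0 < d / 2) (hdist (hw2 w' hw'))
        have i2 := intble hρ hz hρM hd (hdist hw)
        have i3 : IntervalIntegrable (fun θ => -(ρ θ / (w - z θ) ^ 2)) volume 0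
            (2 * Real.pi) := by
          rw [intervalIntegrable_iff]
          refine Measure.integrableOn_of_bounded (M := M / d ^ 2) ?_ ?_ ?_
          · simp [uIoc]
          · exact (hρ.div ((measurable_const.sub hz).pow_const 2)).neg.aestronglyMeasurable
          · refine ae_of_all _ fun θ => ?_
            rw [norm_neg]
            refine norm_quot_le (by positivity) (hρM θ) fun h0 => ?_
            rw [norm_pow]
            have := hdist hw θ h0
            gcongr
        have e : ctr_int ρ z w' - ctr_int ρ z w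
            - (w' - w) • (∫ θ in (0 : ℝ)..(2 * Real.pi), -(ρ θ / (w - z θ) ^ 2))
            = ∫ θ in (0 : ℝ)..(2 * Real.pi), ρ θ * (w' - w) ^ 2 / ((w' - z θ) * (w - z θ) ^ 2) := by
          unfold ctr_int
          rw [smul_eq_mul, ← intervalIntegral.integral_const_mul,
            ← intervalIntegral.integral_sub i1 i2,
            ← intervalIntegral.integral_sub (i1.sub i2) (i3.const_mul _)]
          congr 1
          ext θ
          by_cases h0 : ρ θ = 0
          · simp [h0]
          · have h1 : w - z θ ≠ 0 := by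
              rw [← norm_pos_iff]; exact lt_of_lt_of_le hd (hdist hw θ h0)
            have h2 : w' - z θ ≠ 0 := by
              rw [← norm_pos_iff]
              exact lt_of_lt_of_le (by positivity) (hdist (hw2 w' hw') θ h0)
            field_simp
            ring
        rw [e]
        have := intervalIntegral.norm_integral_le_of_norm_le_const (a := 0) (b := 2 * Real.pi)
          (f := fun θ => ρ θ * (w' - w) ^ 2 / ((w' - z θ) * (w - z θ) ^ 2))
          (C := M * ‖(w' - w) ^ 2‖ / (d / 2 * d ^ 2))
          (fun θ _ => norm_quot_le (by positivity) (by rw [norm_mul]; gcongr; exact hρM θ)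
            (fun h0 => by
              have h0' : ρ θ ≠ 0 := left_ne_zero_of_mul h0
              rw [norm_mul, norm_pow]
              have q1 := hdist (hw2 w' hw') θ h0'
              have q2 := hdist hw θ h0'
              gcongr))
        rw [hpi] at this
        refine this.trans (le_of_eq ?_)
        ring
      · have : (fun w' : ℂ => (w' - w) ^ 2) =o[𝓝 w] fun w' => (w' - w) := by
          have h1 : (fun w' : ℂ => (w' - w)) =o[𝓝 w] fun _ => (1 : ℂ) := by
            rw [Asymptotics.isLittleO_one_iff]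
            have : Tendsto (fun w' : ℂ => w' - w) (𝓝 w) (𝓝 (w - w)) :=
              (continuous_id.sub continuous_const).tendsto w
            simpa using this
          have h2 := h1.mul_isBigO (Asymptotics.isBigO_refl (fun w' : ℂ => w' - w) (𝓝 w))
          simpa [sq] using h2
        exact this
    exact hder.differentiableAt
  · refine ⟨∫ θ in (0 : ℝ)..(2 * Real.pi), ρ θ, 2 * R + 1 + 2 * Real.pi * (2 * (M * R)), ?_⟩
    intro w hw
    have hpos : 0 ≤ 2 * Real.pi * (2 * (M * R)) := by positivity
    have hw1 : 2 * R + 1 ≤ ‖w‖ := by linarith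
    have hw0 : 0 < ‖w‖ := by linarith
    have hwne : w ≠ 0 := norm_pos_iff.1 hw0
    have hd : ∀ x ∈ K, ‖w‖ / 2 ≤ ‖w - x‖ := by
      intro x hx
      have h1 := hR x hx
      have h2 : ‖w‖ ≤ ‖w - x‖ + ‖x‖ := by
        calc ‖w‖ = ‖(w - x) + x‖ := by congr 1; ring
          _ ≤ _ := norm_add_le _ _
      linarith
    have i0 : IntervalIntegrable ρ volume 0 (2 * Real.pi) := by
      rw [intervalIntegrable_iff]
      refine Measure.integrableOn_of_bounded (M := M) ?_ ?_ ?_
      · simp [uIoc]
      · exact hρ.aestronglyMeasurable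
      · exact ae_of_all _ fun θ => hρM θ
    have i1 := intble hρ hz hρM (by positivity : 0 < ‖w‖ / 2) (hdist hd)
    have e : ctr_int ρ z w - (∫ θ in (0 : ℝ)..(2 * Real.pi), ρ θ) / w
        = ∫ θ in (0 : ℝ)..(2 * Real.pi), ρ θ * z θ / ((w - z θ) * w) := by
      unfold ctr_int
      rw [← intervalIntegral.integral_div, ← intervalIntegral.integral_sub i1 (i0.div_const w)]
      congr 1
      ext θ
      by_cases h0 : ρ θ = 0
      · simp [h0]
      · have h1 : w - z θ ≠ 0 := by
          rw [← norm_pos_iff]; exact lt_of_lt_of_le (by positivity) (hdist hd θ h0)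
        field_simp
        ring
    rw [e]
    have := intervalIntegral.norm_integral_le_of_norm_le_const (a := 0) (b := 2 * Real.pi)
      (f := fun θ => ρ θ * z θ / ((w - z θ) * w)) (C := M * R / (‖w‖ / 2 * ‖w‖))
      (fun θ _ => norm_quot_le (by positivity) (by
          rw [norm_mul]
          by_cases h0 : ρ θ = 0
          · rw [h0, norm_zero, zero_mul]; positivity
          · exact mul_le_mul (hρM θ) (hR _ (hK θ h0)) (norm_nonneg _) hM)
        (fun h0 => by
          have h0' : ρ θ ≠ 0 := left_ne_zero_of_mul h0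
          rw [norm_mul]
          have q2 := hdist hd θ h0'
          gcongr))
    rw [hpi] at this
    refine this.trans ?_
    have e2 : M * R / (‖w‖ / 2 * ‖w‖) * (2 * Real.pi) = (2 * Real.pi * (2 * (M * R))) / ‖w‖ ^ 2 := by
      field_simp
    rw [e2]
    gcongr
    linarith

theorem IsCT.add {M M' : ℝ} {K : Set ℂ} {G G' : ℂ → ℂ} (h : IsCT M K G) (h' : IsCT M' K G') :
    IsCT (M + M') K (fun w => G w + G' w) := by
  refine ⟨?_, ?_, ?_, ?_⟩
  · intro d hd w hw
    rw [add_div]
    exact (norm_add_le _ _).trans (add_le_add (h.bound d hd w hw) (h'.bound d hd w hw))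
  · intro d hd w w' hw hw'
    have e : G w + G' w - (G w' + G' w') = (G w - G w') + (G' w - G' w') := by ring
    rw [e, add_div, add_mul]
    exact (norm_add_le _ _).trans (add_le_add (h.lip d hd w w' hw hw') (h'.lip d hd w w' hw hw'))
  · intro d hd w hw
    exact (h.diff d hd w hw).add (h'.diff d hd w hw)
  · obtain ⟨m, K1, h1⟩ := h.asy
    obtain ⟨m', K2, h2⟩ := h'.asy
    refine ⟨m + m', |K1| + |K2|, fun w hw => ?_⟩
    have q1 := h1 w (by have := le_abs_self K1; have := abs_nonneg K2; linarith)
    have q2 := h2 w (by have := le_abs_self K2; have := abs_nonneg K1; linarith)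
    have e : G w + G' w - (m + m') / w = (G w - m / w) + (G' w - m' / w) := by ring
    rw [e, add_div]
    refine (norm_add_le _ _).trans (add_le_add (q1.trans ?_) (q2.trans ?_))
    · gcongr; exact le_abs_self _
    · gcongr; exact le_abs_self _

theorem isCT_zero (K : Set ℂ) : IsCT 0 K (fun _ => 0) := by
  refine ⟨?_, ?_, ?_, ⟨0, 0, ?_⟩⟩
  · intro d _ w _; simp
  · intro d _ w w' _ _; simp
  · intro d _ w _; exact differentiableAt_const _
  · intro w _; simp

theorem IsCT.sum {K : Set ℂ} {M : ℝ} {G : ℕ → ℂ → ℂ} (N : ℕ) (h : ∀ k < N, IsCT M K (G k)) :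
    IsCT (N * M) K (fun w => ∑ k ∈ Finset.range N, G k w) := by
  induction N with
  | zero => simpa using isCT_zero K
  | succ N ih =>
    have h1 := (ih fun k hk => h k (by omega)).add (h N (by omega))
    have e : (fun w => ∑ k ∈ Finset.range (N + 1), G k w)
        = fun w => ∑ k ∈ Finset.range N, G k w + G N w := by
      funext w; rw [Finset.sum_range_succ]
    rw [e]
    have e2 : ((N + 1 : ℕ) : ℝ) * M = N * M + M := by push_cast; ring
    rw [e2]
    exact h1

theorem IsCT.mono {K : Set ℂ} {M M' : ℝ} {G : ℂ → ℂ} (h : IsCT M K G) (hM : M ≤ M') :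
    IsCT M' K G := by
  refine ⟨fun d hd w hw => (h.bound d hd w hw).trans (by gcongr),
    fun d hd w w' hw hw' => (h.lip d hd w w' hw hw').trans (by gcongr), h.diff, h.asy⟩

/-- Cauchy integral formula for the exterior of a disc -/
theorem cauchy_ext {r s : ℝ} (hr : 0 < r) (hrs : r < s) {E : ℂ → ℂ}
    (hE : ∀ u ∈ D r, DifferentiableAt ℂ E u) (hasy : ∃ K, ∀ u ∈ D r, ‖E u‖ * ‖u‖ ^ 2 ≤ K) :
    (∀ u ∈ D s, ∮ ζ in C(0, s), E ζ / (u - ζ) = 2 * Real.pi * I * E u) ∧
      ∮ ζ in C(0, s), E ζ = 0 := by
  obtain ⟨K, hK⟩ := hasy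
  have hs : 0 < s := hr.trans hrs
  have hK0 : 0 ≤ K := by
    obtain ⟨u, hu⟩ := exists_mem_D r
    exact le_trans (by positivity) (hK u hu)
  have hEb : ∀ {R : ℝ}, s ≤ R → ∀ ζ ∈ sphere (0 : ℂ) R, ‖E ζ‖ ≤ K / R ^ 2 := by
    intro R hR ζ hζ
    have h1 : ‖ζ‖ = R := by simpa using hζ
    have h2 : ζ ∈ D r := by rw [mem_D, h1]; linarith
    have h3 := hK ζ h2
    have hR0 : 0 < R := by linarith
    rw [h1] at h3
    rwa [le_div_iff₀ (by positivity)]
  have htend : ∀ (A : ℝ), (∀ᶠ R in atTop, A ≤ 4 * Real.pi * K / R) → A ≤ 0 := by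
    intro A hA
    have h1 : Tendsto (fun R : ℝ => 4 * Real.pi * K / R) atTop (𝓝 0) :=
      tendsto_const_nhds.div_atTop tendsto_id
    exact ge_of_tendsto h1 hA
  have hcont : ContinuousOn E (D r) := fun u hu => (hE u hu).continuousAt.continuousWithinAt
  have hann : ∀ {R : ℝ}, ∀ ζ ∈ closedBall (0 : ℂ) R \ ball 0 s, ζ ∈ D r := by
    intro R ζ hζ
    have : s ≤ ‖ζ‖ := by simpa using hζ.2
    have : r < ‖ζ‖ := by linarith
    exact this
  have hann' : ∀ {R : ℝ}, ∀ ζ ∈ ball (0 : ℂ) R \ closedBall 0 s, ζ ∈ D r := by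
    intro R ζ hζ
    have : s < ‖ζ‖ := by simpa using hζ.2
    have : r < ‖ζ‖ := by linarith
    exact this
  constructor
  · intro u hu
    have hu' : s < ‖u‖ := hu
    have hur : u ∈ D r := D_anti hrs.le hu
    -- the integral of the difference quotient does not depend on the radius
    have key : ∀ R : ℝ, 2 * ‖u‖ ≤ R → (∮ ζ in C(0, s), E ζ / (u - ζ)) - 2 * Real.pi * I * E u
        = ∮ ζ in C(0, R), E ζ / (u - ζ) := by
      intro R hR
      have hsR : s ≤ R := by linarith [norm_nonneg u]
      have h1 : (∮ ζ in C(0, R), dslope E u ζ) = ∮ ζ in C(0, s), dslope E u ζ := by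
        apply Complex.circleIntegral_eq_of_differentiable_on_annulus_off_countable hs hsR
          (countable_singleton u)
        · have : ContinuousOn (dslope E u) (D r) :=
            (continuousOn_dslope ((isOpen_D r).mem_nhds hur)).2 ⟨hcont, hE u hur⟩
          exact this.mono hann
        · intro ζ hζ
          have hne : ζ ≠ u := hζ.2
          exact (differentiableAt_dslope_of_ne hne).2 (hE ζ (hann' ζ hζ.1))
      have hu_s : ∀ ζ ∈ sphere (0 : ℂ) s, ζ ≠ u := by
        intro ζ hζ h
        have : ‖ζ‖ = s := by simpa using hζ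
        rw [h] at this
        linarith
      have hu_R : ∀ ζ ∈ sphere (0 : ℂ) R, ζ ≠ u := by
        intro ζ hζ h
        have : ‖ζ‖ = R := by simpa using hζ
        rw [h] at this
        have := norm_nonneg u
        linarith
      have hsplit : ∀ {R' : ℝ}, s ≤ R' → (∀ ζ ∈ sphere (0 : ℂ) R', ζ ≠ u) →
          (∮ ζ in C(0, R'), dslope E u ζ)
            = -(∮ ζ in C(0, R'), E ζ / (u - ζ)) - E u * ∮ ζ in C(0, R'), (ζ - u)⁻¹ := by
        intro R' hR' hne
        have hR'0 : 0 ≤ R' := by linarith
        have c1 : ContinuousOn E (sphere (0 : ℂ) R') := by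
          refine hcont.mono fun ζ hζ => ?_
          have : ‖ζ‖ = R' := by simpa using hζ
          have : r < ‖ζ‖ := by linarith
          exact this
        have i1 : CircleIntegrable (fun ζ => (-1) * (E ζ / (u - ζ))) 0 R' := by
          apply ContinuousOn.circleIntegrable hR'0
          refine continuousOn_const.mul
            (c1.div (continuousOn_const.sub continuousOn_id) fun ζ hζ => ?_)
          exact sub_ne_zero.2 (hne ζ hζ).symm
        have i2 : CircleIntegrable (fun ζ => E u * (ζ - u)⁻¹) 0 R' := by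
          apply ContinuousOn.circleIntegrable hR'0
          refine continuousOn_const.mul ((continuousOn_id.sub continuousOn_const).inv₀ ?_)
          intro ζ hζ
          exact sub_ne_zero.2 (hne ζ hζ)
        rw [neg_eq_neg_one_mul, ← circleIntegral.integral_const_mul,
          ← circleIntegral.integral_const_mul, ← circleIntegral.integral_sub i1 i2]
        refine circleIntegral.integral_congr hR'0 fun ζ hζ => ?_
        have h2 : ζ - u ≠ 0 := sub_ne_zero.2 (hne ζ hζ)
        have h3 : u - ζ ≠ 0 := sub_ne_zero.2 (hne ζ hζ).symm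
        rw [dslope_of_ne _ (hne ζ hζ), slope_def_field]
        have h4 : u - ζ = -(ζ - u) := by ring
        rw [h4]
        field_simp
      rw [hsplit hsR hu_R, hsplit le_rfl hu_s] at h1
      have h2 : (∮ ζ in C(0, R), (ζ - u)⁻¹) = 2 * Real.pi * I := by
        apply circleIntegral.integral_sub_inv_of_mem_ball
        simp only [mem_ball, dist_zero_right]
        linarith
      have h3 : (∮ ζ in C(0, s), (ζ - u)⁻¹) = 0 := by
        apply Complex.circleIntegral_eq_zero_of_differentiable_on_off_countable hs.le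
          countable_empty
        · refine ((continuousOn_id.sub continuousOn_const).inv₀ ?_)
          intro ζ hζ h
          have h5 : ζ = u := sub_eq_zero.1 h
          have h6 : ‖ζ‖ ≤ s := by simpa using hζ
          rw [h5] at h6
          linarith
        · intro ζ hζ
          have h6 : ‖ζ‖ < s := by simpa using hζ.1
          refine ((differentiableAt_id.sub_const u)).inv ?_
          intro h
          have h5 : ζ = u := sub_eq_zero.1 h
          rw [h5] at h6
          linarith
      rw [h2, h3] at h1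
      linear_combination h1
    have hle : ‖(∮ ζ in C(0, s), E ζ / (u - ζ)) - 2 * Real.pi * I * E u‖ ≤ 0 := by
      apply htend
      filter_upwards [eventually_ge_atTop (2 * ‖u‖), eventually_ge_atTop 1] with R hR h7
      rw [key R hR]
      have hu0 : 0 < ‖u‖ := by linarith
      have hR0 : 0 < R := by linarith
      have h1 := circleIntegral.norm_integral_le_of_norm_le_const (c := 0) hR0.le
        (f := fun ζ => E ζ / (u - ζ)) (C := K / R ^ 2 / (R / 2)) (fun ζ hζ => by
          rw [norm_div]
          have h2 := hEb (by linarith) ζ hζ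
          have h3 : ‖ζ‖ = R := by simpa using hζ
          have h4 : R / 2 ≤ ‖u - ζ‖ := by
            have : ‖ζ‖ ≤ ‖u‖ + ‖u - ζ‖ := by
              calc ‖ζ‖ = ‖u - (u - ζ)‖ := by congr 1; ring
                _ ≤ _ := norm_sub_le _ _
            linarith
          gcongr)
      refine h1.trans ?_
      have h5 : 2 * Real.pi * R * (K / R ^ 2 / (R / 2)) = 4 * Real.pi * K / R / R := by
        field_simp
        ring
      rw [h5]
      have h6 : 0 ≤ 4 * Real.pi * K / R := by positivity
      rw [div_le_iff₀ hR0]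
      nlinarith
    exact sub_eq_zero.1 (norm_le_zero_iff.1 hle)
  · have key : ∀ R : ℝ, s ≤ R → (∮ ζ in C(0, s), E ζ) = ∮ ζ in C(0, R), E ζ := by
      intro R hR
      symm
      apply Complex.circleIntegral_eq_of_differentiable_on_annulus_off_countable hs hR
        countable_empty
      · exact hcont.mono hann
      · intro ζ hζ
        exact hE ζ (hann' ζ hζ.1)
    have hle : ‖∮ ζ in C(0, s), E ζ‖ ≤ 0 := by
      apply htend
      filter_upwards [eventually_ge_atTop s] with R hR
      rw [key R hR]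
      have hR0 : 0 < R := by linarith
      refine (circleIntegral.norm_integral_le_of_norm_le_const (c := 0) hR0.le (hEb hR)).trans ?_
      have h5 : 2 * Real.pi * R * (K / R ^ 2) = 2 * Real.pi * K / R := by
        field_simp
      rw [h5]
      have : 0 ≤ Real.pi * K := by have := Real.pi_pos; positivity
      gcongr
      norm_num
    exact norm_le_zero_iff.1 hle

end Pool.Agent.Lib.MP_40a019_an.I3
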