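import Pool.Agent.Lib.MP_40a019_an.I3.Step

namespace Pool.Agent.Lib.MP_40a019_an.I3

open Complex Metric Set Filter Topology

/-- limit of a geometrically convergent sequence of holomorphic functions -/
theorem geom_limit {U : Set ℂ} (hU : IsOpen U) {f : ℕ → ℂ → ℂ} {B q : ℝ} (hq0 : 0 ≤ q) (hq : q < 1)
    (hf : ∀ n, ∀ u ∈ U, DifferentiableAt ℂ (f n) u)
    (hd : ∀ n, ∀ u ∈ U, ‖f (n + 1) u - f n u‖ ≤ B * q ^ n) :
    ∃ g : ℂ → ℂ, (∀ u ∈ U, DifferentiableAt ℂ g u) ∧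
      ∀ u ∈ U, Tendsto (fun n => f n u) atTop (𝓝 (g u)) := by
  have hdist : ∀ u ∈ U, ∀ n, dist (f n u) (f (n + 1) u) ≤ B * q ^ n := by
    intro u hu n
    rw [dist_comm, dist_eq_norm]
    exact hd n u hu
  have hc : ∀ u ∈ U, ∃ y, Tendsto (fun n => f n u) atTop (𝓝 y) := by
    intro u hu
    exact cauchySeq_tendsto_of_complete (cauchySeq_of_le_geometric q B hq (hdist u hu))
  choose! g hg using hc
  refine ⟨g, ?_, hg⟩
  have hunif : TendstoUniformlyOn f g atTop U := by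
    rw [Metric.tendstoUniformlyOn_iff]
    intro ε hε
    have h1 : Tendsto (fun n : ℕ => B * q ^ n / (1 - q)) atTop (𝓝 0) := by
      have := (tendsto_pow_atTop_nhds_zero_of_lt_one hq0 hq).const_mul B
      have := this.div_const (1 - q)
      simpa using this
    filter_upwards [h1.eventually (gt_mem_nhds hε)] with n hn u hu
    rw [dist_comm]
    exact lt_of_le_of_lt (dist_le_of_le_geometric_of_tendsto q B hq (hdist u hu) (hg u hu) n) hn
  have := hunif.tendstoLocallyUniformlyOn.differentiableOn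
    (Eventually.of_forall fun n u hu => (hf n u hu).differentiableWithinAt) hU
  exact fun u hu => this.differentiableAt (hU.mem_nhds hu)

theorem tendsto_comp {r L : ℝ} {f : ℕ → ℂ → ℂ} {g : ℂ → ℂ}
    (hf : ∀ n, ∀ u ∈ D r, ∀ v ∈ D r, ‖f n u - f n v‖ ≤ L * ‖u - v‖)
    (hg : ∀ u ∈ D r, Tendsto (fun n => f n u) atTop (𝓝 (g u)))
    {x : ℕ → ℂ} {y : ℂ} (hx : Tendsto x atTop (𝓝 y)) (hy : y ∈ D r) :
    Tendsto (fun n => f n (x n)) atTop (𝓝 (g y)) := by
  have h1 : ∀ᶠ n in atTop, x n ∈ D r := hx.eventually ((isOpen_D r).mem_nhds hy)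
  have h2 : Tendsto (fun n => f n (x n) - f n y) atTop (𝓝 0) := by
    have h3 : Tendsto (fun n => L * ‖x n - y‖) atTop (𝓝 0) := by
      have : Tendsto (fun n => ‖x n - y‖) atTop (𝓝 0) := tendsto_iff_norm_sub_tendsto_zero.1 hx
      simpa using this.const_mul L
    refine squeeze_zero_norm' ?_ h3
    filter_upwards [h1] with n hn
    exact hf n _ hn _ hy
  have h4 := h2.add (hg y hy)
  simpa using h4

theorem core3 : ∃ ε₀ : ℝ, 0 < ε₀ ∧ ∀ F : ℂ → ℂ,
    (∀ w : ℂ, 1 / 2 < ‖w‖ → DifferentiableAt ℂ F w) →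
    (∀ w : ℂ, 1 / 2 < ‖w‖ → ‖F w + w + 1 / 4‖ ≤ ε₀ / ‖w‖ ^ 2) →
    ∃ β₁ β₂ β₃ : ℂ → ℂ,
      (∀ w : ℂ, 10 < ‖w‖ → DifferentiableAt ℂ β₁ w ∧ DifferentiableAt ℂ β₂ w ∧
        DifferentiableAt ℂ β₃ w ∧ ‖β₁ w + w‖ ≤ 1 ∧ ‖β₂ w + w‖ ≤ 1 ∧ ‖β₃ w + w‖ ≤ 1 ∧
        β₁ (β₁ w) = w ∧ β₂ (β₂ w) = w ∧ β₃ (β₃ w) = w) ∧
      ∀ w : ℂ, 10 < ‖w‖ → F w = β₁ (β₂ (β₃ w)) := by
  obtain ⟨C, κ₀, hC, hκ₀, hκ₀', hstep⟩ := one_step
  -- constants
  set η : ℝ := κ₀ ^ 5 / (10000 * (C + 1)) with hη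
  have hη0 : 0 < η := by positivity
  have hκ5 : κ₀ ^ 5 ≤ κ₀ := by
    have : κ₀ ^ 5 = κ₀ * κ₀ ^ 4 := by ring
    rw [this]
    have h2 : κ₀ ^ 4 ≤ 1 := pow_le_one₀ hκ₀.le (by linarith)
    nlinarith
  have hη1 : 10000 * η ≤ κ₀ := by
    rw [hη]
    have : 10000 * (κ₀ ^ 5 / (10000 * (C + 1))) = κ₀ ^ 5 / (C + 1) := by field_simp
    rw [this, div_le_iff₀ (by positivity)]
    nlinarith
  have hη2 : C * (2 * η) ≤ κ₀ ^ 5 / 5000 := by
    rw [hη]
    have : C * (2 * (κ₀ ^ 5 / (10000 * (C + 1)))) = (C / (C + 1)) * (κ₀ ^ 5 / 5000) := by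
      field_simp; ring
    rw [this]
    have h1 : C / (C + 1) ≤ 1 := by rw [div_le_one (by positivity)]; linarith
    have h2 : 0 ≤ κ₀ ^ 5 / 5000 := by positivity
    nlinarith
  refine ⟨η, hη0, fun F hFd hFb => ?_⟩
  have n1 : ‖(-1 : ℂ)‖ = 1 := by simp
  have n2 : ‖(1 : ℂ)‖ = 1 := by simp
  -- closeness of F
  have hF : Close κ₀ (3 / 4) (-1) (-1 / 4) F := by
    have h1 : Close (0 + 64 * (4 * η) / (1 / 4 : ℝ) ^ 2) (1 / 2 + 1 / 4) (-1) (-1 / 4) F := by
      refine (close_affine (1 / 2) (-1) (-1 / 4)).perturb (ρ := 1 / 2) (by norm_num) (by norm_num)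
        (by norm_num) ?_ hFd ?_ ?_
      · intro u hu
        exact (close_affine (1 / 2) (-1) (-1 / 4)).diff u hu
      · intro u hu
        have h2 := hFb u hu
        have e : F u - (-1 * u + -1 / 4) = F u + u + 1 / 4 := by ring
        rw [e]
        refine h2.trans ?_
        have h3 : 1 / 2 < ‖u‖ := hu
        rw [div_le_iff₀ (by positivity)]
        have h4 : 1 / 4 ≤ ‖u‖ ^ 2 := by nlinarith
        nlinarith
      · refine ⟨η, fun u hu => ?_⟩
        have hu' : 1 / 2 + 1 / 4 < ‖u‖ := hu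
        have h2 := hFb u (by linarith)
        have e : F u - (-1 * u + -1 / 4) = F u + u + 1 / 4 := by ring
        rw [e]
        rwa [le_div_iff₀ (by positivity)] at h2
    refine h1.mono ?_ (by norm_num)
    have e : (0 : ℝ) + 64 * (4 * η) / (1 / 4 : ℝ) ^ 2 = 4096 * η := by ring
    rw [e]
    linarith
  -- sequences
  set δ : ℕ → ℝ := fun n => κ₀ * (9 / 10) ^ n with hδ
  set ε : ℕ → ℝ := fun n => 2 * η / 2 ^ n with hε
  set r : ℕ → ℝ := fun n => 1 + 40 * κ₀ * (1 - (9 / 10) ^ n) with hr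
  set q : ℝ := 5000 / 6561 with hq
  set B : ℝ := C * (2 * η) / κ₀ ^ 4 with hB
  set κ : ℕ → ℝ := fun n => B / (1 - q) * (1 - q ^ n) with hκ
  have hB0 : 0 ≤ B := by positivity
  have hBκ : B ≤ κ₀ / 5000 := by
    rw [hB, div_le_iff₀ (by positivity)]
    calc C * (2 * η) ≤ κ₀ ^ 5 / 5000 := hη2
      _ = κ₀ / 5000 * κ₀ ^ 4 := by ring
  have hq0 : 0 ≤ q := by rw [hq]; norm_num
  have hq1 : q < 1 := by rw [hq]; norm_num
  have hinc : ∀ n, C * ε n / δ n ^ 4 = B * q ^ n := by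
    intro n
    simp only [hε, hδ, hB, hq]
    rw [mul_pow, ← pow_mul, mul_comm n 4, pow_mul]
    have : ((9 : ℝ) / 10) ^ 4 = 6561 / 10000 := by norm_num
    rw [this]
    have h2 : (5000 / 6561 : ℝ) ^ n = (1 / 2) ^ n / (6561 / 10000) ^ n := by
      rw [← div_pow]; norm_num
    rw [h2]
    have h3 : (1 / 2 : ℝ) ^ n = 1 / 2 ^ n := by rw [one_div_pow]
    rw [h3]
    field_simp
  have hδ0 : ∀ n, 0 < δ n := fun n => by simp only [hδ]; positivity
  have hδκ : ∀ n, δ n ≤ κ₀ := by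
    intro n
    simp only [hδ]
    have : (9 / 10 : ℝ) ^ n ≤ 1 := pow_le_one₀ (by norm_num) (by norm_num)
    nlinarith
  have hε0 : ∀ n, 0 ≤ ε n := fun n => by simp only [hε]; positivity
  have hκn : ∀ n, 0 ≤ κ n ∧ κ n ≤ κ₀ := by
    intro n
    have h1 : q ^ n ≤ 1 := pow_le_one₀ hq0 hq1.le
    have h2 : 0 ≤ q ^ n := pow_nonneg hq0 n
    have h3 : 0 < 1 - q := by linarith
    simp only [hκ]
    refine ⟨mul_nonneg (div_nonneg hB0 h3.le) (by linarith), ?_⟩
    calc B / (1 - q) * (1 - q ^ n) ≤ B / (1 - q) * 1 := by gcongr; linarith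
      _ ≤ κ₀ := by
        rw [mul_one, div_le_iff₀ h3, hq]
        nlinarith
  have hκs : ∀ n, κ (n + 1) = κ n + C * ε n / δ n ^ 4 := by
    intro n
    rw [hinc]
    simp only [hκ]
    have h3 : 1 - q ≠ 0 := by linarith
    field_simp
    ring
  have hrs : ∀ n, r (n + 1) = r n + 4 * δ n := by
    intro n
    simp only [hr, hδ]
    ring
  have hrn : ∀ n, 1 ≤ r n ∧ r n ≤ 3 / 2 := by
    intro n
    have h1 : (9 / 10 : ℝ) ^ n ≤ 1 := pow_le_one₀ (by norm_num) (by norm_num)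
    have h2 : (0 : ℝ) ≤ (9 / 10 : ℝ) ^ n := by positivity
    simp only [hr]
    constructor
    · have : 0 ≤ 40 * κ₀ * (1 - (9 / 10) ^ n) := by
        apply mul_nonneg (by positivity); linarith
      linarith
    · nlinarith
  have hεs : ∀ n, ε (n + 1) = ε n / 2 := by
    intro n
    simp only [hε, pow_succ]
    field_simp
  have hCε : ∀ n, C * ε n ≤ δ n ^ 4 := by
    intro n
    have h1 : C * ε n / δ n ^ 4 ≤ 1 := by
      rw [hinc]
      have h1 : q ^ n ≤ 1 := pow_le_one₀ hq0 hq1.le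
      have h2 : 0 ≤ q ^ n := pow_nonneg hq0 n
      nlinarith
    rwa [div_le_one (by have := hδ0 n; positivity)] at h1
  -- the initial state
  have hS0 : State F (κ 0) (r 0) (ε 0) (fun u => -1 * u + 2 * e3) (fun u => -1 * u + 2 * e2)
      (fun u => 1 * u + tt) := by
    have hκ00 : κ 0 = 0 := by simp [hκ]
    have hr0 : r 0 = 1 := by simp [hr]
    have hε00 : ε 0 = 2 * η := by simp [hε]
    rw [hκ00, hr0, hε00]
    refine ⟨close_affine _ _ _, close_affine _ _ _, close_affine _ _ _, ?_, ?_, ?_, ?_⟩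
    · intro u _ _; ring
    · intro u _ _; ring
    · intro u _ v _ h
      linear_combination h
    · intro u hu
      have hu' : 1 < ‖u‖ := hu
      have h2 := norm_two_e3
      set w : ℂ := -1 * u + 2 * e3 with hw
      have hw1 : 7 / 8 ≤ ‖w‖ := by
        have : ‖u‖ ≤ ‖w‖ + ‖2 * e3‖ := by
          calc ‖u‖ = ‖-w + 2 * e3‖ := by congr 1; rw [hw]; ring
            _ ≤ ‖-w‖ + ‖2 * e3‖ := norm_add_le _ _
            _ = _ := by rw [norm_neg]
        linarith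
      have h3 := hFb w (by linarith)
      have e : F w - (1 * u + tt) = F w + w + 1 / 4 := by
        rw [hw]
        linear_combination base_sum
      rw [e]
      refine h3.trans ?_
      rw [div_le_iff₀ (by positivity)]
      have h4 : 1 / 2 ≤ ‖w‖ ^ 2 := by nlinarith
      nlinarith
  -- the sequence of states
  have hex : ∀ n (p : {p : (ℂ → ℂ) × (ℂ → ℂ) × (ℂ → ℂ) // State F (κ n) (r n) (ε n) p.1 p.2.1 p.2.2}),
      ∃ p' : {p : (ℂ → ℂ) × (ℂ → ℂ) × (ℂ → ℂ) //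
        State F (κ (n + 1)) (r (n + 1)) (ε (n + 1)) p.1 p.2.1 p.2.2},
        ∀ u ∈ D (r (n + 1)), ‖p'.1.1 u - p.1.1 u‖ ≤ B * q ^ n ∧
          ‖p'.1.2.1 u - p.1.2.1 u‖ ≤ B * q ^ n ∧ ‖p'.1.2.2 u - p.1.2.2 u‖ ≤ B * q ^ n := by
    rintro n ⟨⟨a, b, c⟩, hS⟩
    obtain ⟨a', b', c', hS', hc⟩ := hstep F hF (κ n) (r n) (δ n) (ε n) a b c (hκn n).1 (hκn n).2
      (hrn n).1 (hδ0 n) (hδκ n) (by rw [← hrs]; linarith [(hrn (n + 1)).2]) (hε0 n) (hCε n) hS
    rw [← hκs, ← hrs, ← hεs] at hS'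
    rw [← hrs] at hc
    refine ⟨⟨⟨a', b', c'⟩, hS'⟩, ?_⟩
    intro u hu
    have := hc u hu
    rw [hinc] at this
    exact this
  choose nxt hnxt using hex
  let sq : (n : ℕ) → {p : (ℂ → ℂ) × (ℂ → ℂ) × (ℂ → ℂ) //
      State F (κ n) (r n) (ε n) p.1 p.2.1 p.2.2} :=
    fun n => Nat.rec ⟨(fun u => -1 * u + 2 * e3, fun u => -1 * u + 2 * e2, fun u => 1 * u + tt), hS0⟩
      (fun n p => nxt n p) n
  set A : ℕ → ℂ → ℂ := fun n => (sq n).1.1 with hA
  set Bb : ℕ → ℂ → ℂ := fun n => (sq n).1.2.1 with hBb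
  set Cc : ℕ → ℂ → ℂ := fun n => (sq n).1.2.2 with hCc
  have hSn : ∀ n, State F (κ n) (r n) (ε n) (A n) (Bb n) (Cc n) := fun n => (sq n).2
  have hD2 : ∀ n, D 2 ⊆ D (r n) := fun n => D_anti (by linarith [(hrn n).2])
  have hclose : ∀ n, ∀ u ∈ D 2, ‖A (n + 1) u - A n u‖ ≤ B * q ^ n ∧
      ‖Bb (n + 1) u - Bb n u‖ ≤ B * q ^ n ∧ ‖Cc (n + 1) u - Cc n u‖ ≤ B * q ^ n := by
    intro n u hu
    exact hnxt n (sq n) u (hD2 (n + 1) hu)
  obtain ⟨a, had, hat⟩ := geom_limit (isOpen_D 2) hq0 hq1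
    (fun n u hu => (hSn n).ca.diff u (hD2 n hu)) (fun n u hu => (hclose n u hu).1)
  obtain ⟨b, hbd, hbt⟩ := geom_limit (isOpen_D 2) hq0 hq1
    (fun n u hu => (hSn n).cb.diff u (hD2 n hu)) (fun n u hu => (hclose n u hu).2.1)
  obtain ⟨c, hcd, hct⟩ := geom_limit (isOpen_D 2) hq0 hq1
    (fun n u hu => (hSn n).cc.diff u (hD2 n hu)) (fun n u hu => (hclose n u hu).2.2)
  have hlA : ∀ n, ∀ u ∈ D 2, ∀ v ∈ D 2, ‖A n u - A n v‖ ≤ 2 * ‖u - v‖ := by
    intro n u hu v hv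
    refine ((hSn n).ca.lip' n1 (hD2 n hu) (hD2 n hv)).trans ?_
    gcongr; linarith [(hκn n).2]
  have hlB : ∀ n, ∀ u ∈ D 2, ∀ v ∈ D 2, ‖Bb n u - Bb n v‖ ≤ 2 * ‖u - v‖ := by
    intro n u hu v hv
    refine ((hSn n).cb.lip' n1 (hD2 n hu) (hD2 n hv)).trans ?_
    gcongr; linarith [(hκn n).2]
  have hlC : ∀ n, ∀ u ∈ D 2, ∀ v ∈ D 2, ‖Cc n u - Cc n v‖ ≤ 2 * ‖u - v‖ := by
    intro n u hu v hv
    refine ((hSn n).cc.lip' n2 (hD2 n hu) (hD2 n hv)).trans ?_
    gcongr; linarith [(hκn n).2]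
  -- bounds at level n
  have vA : ∀ n, ∀ u ∈ D 2, ‖A n u + u‖ ≤ 1 / 4 := by
    intro n u hu
    have h1 := (hSn n).ca.val u (hD2 n hu)
    have h2 := norm_two_e3
    calc ‖A n u + u‖ = ‖(A n u - (-1 * u + 2 * e3)) + 2 * e3‖ := by congr 1; ring
      _ ≤ κ n + 1 / 8 := (norm_add_le _ _).trans (add_le_add h1 h2)
      _ ≤ 1 / 4 := by linarith [(hκn n).2]
  have vB : ∀ n, ∀ u ∈ D 2, ‖Bb n u + u‖ ≤ 1 / 4 := by
    intro n u hu
    have h1 := (hSn n).cb.val u (hD2 n hu)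
    have h2 := norm_two_e2
    calc ‖Bb n u + u‖ = ‖(Bb n u - (-1 * u + 2 * e2)) + 2 * e2‖ := by congr 1; ring
      _ ≤ κ n + 1 / 8 := (norm_add_le _ _).trans (add_le_add h1 h2)
      _ ≤ 1 / 4 := by linarith [(hκn n).2]
  have vC : ∀ n, ∀ u ∈ D 2, ‖Cc n u - u‖ ≤ 1 / 2 := by
    intro n u hu
    have h1 := (hSn n).cc.val u (hD2 n hu)
    have h2 := norm_tt
    calc ‖Cc n u - u‖ = ‖(Cc n u - (1 * u + tt)) + tt‖ := by congr 1; ring
      _ ≤ κ n + 1 / 4 := (norm_add_le _ _).trans (add_le_add h1 h2)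
      _ ≤ 1 / 2 := by linarith [(hκn n).2]
  -- bounds in the limit
  have wA : ∀ u ∈ D 2, ‖a u + u‖ ≤ 1 / 4 := fun u hu =>
    le_of_tendsto ((hat u hu).add_const u).norm (Eventually.of_forall fun n => vA n u hu)
  have wB : ∀ u ∈ D 2, ‖b u + u‖ ≤ 1 / 4 := fun u hu =>
    le_of_tendsto ((hbt u hu).add_const u).norm (Eventually.of_forall fun n => vB n u hu)
  have wC : ∀ u ∈ D 2, ‖c u - u‖ ≤ 1 / 2 := fun u hu =>
    le_of_tendsto ((hct u hu).sub_const u).norm (Eventually.of_forall fun n => vC n u hu)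
  have big1 : ∀ {x y : ℂ} {s : ℝ}, ‖y + x‖ ≤ 1 / 4 → s + 1 < ‖x‖ → s < ‖y‖ := by
    intro x y s h1 h2
    have : ‖x‖ ≤ ‖y + x‖ + ‖y‖ := by
      calc ‖x‖ = ‖(y + x) - y‖ := by congr 1; ring
        _ ≤ _ := norm_sub_le _ _
    linarith
  have big2 : ∀ {x y : ℂ} {s : ℝ}, ‖y - x‖ ≤ 1 / 2 → s + 1 < ‖x‖ → s < ‖y‖ := by
    intro x y s h1 h2
    have : ‖x‖ ≤ ‖y - x‖ + ‖y‖ := by
      calc ‖x‖ = ‖-(y - x) + y‖ := by congr 1; ring
        _ ≤ _ := norm_add_le _ _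
        _ = _ := by rw [norm_neg]
    linarith
  -- relations in the limit
  have rA : ∀ u : ℂ, 9 < ‖u‖ → a (a u) = u := by
    intro u hu
    have hu2 : u ∈ D 2 := by have : (2 : ℝ) < ‖u‖ := by linarith
                             exact this
    have h1 : a u ∈ D 2 := big1 (wA u hu2) (by linarith)
    have h2 := tendsto_comp hlA hat (hat u hu2) h1
    refine tendsto_nhds_unique h2 ?_
    refine tendsto_const_nhds.congr (fun n => ?_)
    have h3 : A n u ∈ D 2 := big1 (vA n u hu2) (by linarith)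
    exact ((hSn n).ia u (hD2 n hu2) (hD2 n h3)).symm
  have rB : ∀ u : ℂ, 9 < ‖u‖ → b (b u) = u := by
    intro u hu
    have hu2 : u ∈ D 2 := by have : (2 : ℝ) < ‖u‖ := by linarith
                             exact this
    have h1 : b u ∈ D 2 := big1 (wB u hu2) (by linarith)
    have h2 := tendsto_comp hlB hbt (hbt u hu2) h1
    refine tendsto_nhds_unique h2 ?_
    refine tendsto_const_nhds.congr (fun n => ?_)
    have h3 : Bb n u ∈ D 2 := big1 (vB n u hu2) (by linarith)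
    exact ((hSn n).ib u (hD2 n hu2) (hD2 n h3)).symm
  have rC : ∀ u : ℂ, 9 < ‖u‖ → c (b (c (b u))) = u := by
    intro u hu
    have hu2 : u ∈ D 2 := by have : (2 : ℝ) < ‖u‖ := by linarith
                             exact this
    have k1 : 8 < ‖b u‖ := big1 (wB u hu2) (by linarith)
    have k1' : b u ∈ D 2 := by have : (2 : ℝ) < ‖b u‖ := by linarith
                               exact this
    have k2 : 7 < ‖c (b u)‖ := big2 (wC _ k1') (by linarith)
    have k2' : c (b u) ∈ D 2 := by have : (2 : ℝ) < ‖c (b u)‖ := by linarith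
                                   exact this
    have k3 : 6 < ‖b (c (b u))‖ := big1 (wB _ k2') (by linarith)
    have k3' : b (c (b u)) ∈ D 2 := by have : (2 : ℝ) < ‖b (c (b u))‖ := by linarith
                                       exact this
    have t1 := hbt u hu2
    have t2 := tendsto_comp hlC hct t1 k1'
    have t3 := tendsto_comp hlB hbt t2 k2'
    have t4 := tendsto_comp hlC hct t3 k3'
    refine tendsto_nhds_unique t4 ?_
    refine tendsto_const_nhds.congr (fun n => ?_)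
    have m1 : 8 < ‖Bb n u‖ := big1 (vB n u hu2) (by linarith)
    have m1' : Bb n u ∈ D 2 := by have : (2 : ℝ) < ‖Bb n u‖ := by linarith
                                  exact this
    have m2 : 7 < ‖Cc n (Bb n u)‖ := big2 (vC n _ m1') (by linarith)
    have m2' : Cc n (Bb n u) ∈ D 2 := by have : (2 : ℝ) < ‖Cc n (Bb n u)‖ := by linarith
                                         exact this
    have m3 : 6 < ‖Bb n (Cc n (Bb n u))‖ := big1 (vB n _ m2') (by linarith)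
    have m3' : Bb n (Cc n (Bb n u)) ∈ D 2 := by
      have : (2 : ℝ) < ‖Bb n (Cc n (Bb n u))‖ := by linarith
      exact this
    have i1 : Bb n (Bb n u) = u := (hSn n).ib u (hD2 n hu2) (hD2 n m1')
    have i2 : Bb n (Bb n (Cc n (Bb n u))) = Cc n (Bb n u) :=
      (hSn n).ib _ (hD2 n m2') (hD2 n m3')
    have i3 := (hSn n).ic (Bb n u) (hD2 n m1') (Bb n (Cc n (Bb n u))) (hD2 n m3') i2.symm
    rw [i3, i1]
  have rF : ∀ u : ℂ, 9 < ‖u‖ → F (a u) = c u := by
    intro u hu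
    have hu2 : u ∈ D 2 := by have : (2 : ℝ) < ‖u‖ := by linarith
                             exact this
    have k1 : 8 < ‖a u‖ := big1 (wA u hu2) (by linarith)
    have hcont : ContinuousAt F (a u) := (hFd (a u) (by linarith)).continuousAt
    have t1 : Tendsto (fun n => F (A n u)) atTop (𝓝 (F (a u))) :=
      hcont.tendsto.comp (hat u hu2)
    have t2 : Tendsto (fun n => F (A n u) - Cc n u) atTop (𝓝 (F (a u) - c u)) :=
      t1.sub (hct u hu2)
    have t3 : Tendsto (fun n => F (A n u) - Cc n u) atTop (𝓝 0) := by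
      have h5 : Tendsto ε atTop (𝓝 0) := by
        have h6 : Tendsto (fun n : ℕ => (2 * η) * (1 / 2 : ℝ) ^ n) atTop (𝓝 ((2 * η) * 0)) :=
          (tendsto_pow_atTop_nhds_zero_of_lt_one (by norm_num) (by norm_num)).const_mul _
        rw [mul_zero] at h6
        refine h6.congr (fun n => ?_)
        simp only [hε]
        rw [one_div_pow]
        ring
      exact squeeze_zero_norm (fun n => (hSn n).defect u (hD2 n hu2)) h5
    exact sub_eq_zero.1 (tendsto_nhds_unique t2 t3)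
  refine ⟨fun w => c (b w), b, a, ?_, ?_⟩
  · intro w hw
    have hw2 : w ∈ D 2 := by have : (2 : ℝ) < ‖w‖ := by linarith
                             exact this
    have k1 : 8 < ‖b w‖ := big1 (wB w hw2) (by linarith)
    have k1' : b w ∈ D 2 := by have : (2 : ℝ) < ‖b w‖ := by linarith
                               exact this
    refine ⟨(hcd _ k1').comp w (hbd w hw2), hbd w hw2, had w hw2, ?_,
      (wB w hw2).trans (by norm_num), (wA w hw2).trans (by norm_num), rC w (by linarith),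
      rB w (by linarith), rA w (by linarith)⟩
    calc ‖c (b w) + w‖ = ‖(c (b w) - b w) + (b w + w)‖ := by congr 1; ring
      _ ≤ 1 / 2 + 1 / 4 := (norm_add_le _ _).trans (add_le_add (wC _ k1') (wB w hw2))
      _ ≤ 1 := by norm_num
  · intro w hw
    have hw2 : w ∈ D 2 := by have : (2 : ℝ) < ‖w‖ := by linarith
                             exact this
    have k1 : 9 < ‖a w‖ := big1 (wA w hw2) (by linarith)
    simp only
    rw [rB (a w) k1, ← rF (a w) k1, rA w (by linarith)]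

end Pool.Agent.Lib.MP_40a019_an.I3
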