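import Mathlib

/-!
Products of three involutions of one-variable germs: definitions.
The coordinate is `u = 1/z`, so germs live near infinity.
-/

namespace Pool.Agent.Lib.MP_40a019_an.I3

open Complex Metric Set Filter Topology

/-- exterior domain `{‖u‖ > r}` -/
def D (r : ℝ) : Set ℂ := {u | r < ‖u‖}

noncomputable def e1 : ℂ := 1 / 24
noncomputable def e2 : ℂ := (-1 + I) / 24
noncomputable def e3 : ℂ := (-1 - I) / 24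
noncomputable def tt : ℂ := 2 * (e2 - e1)

/-- `a` is `κ`-close (in a two-point `C^2` sense) to `u ↦ σ u + τ` on `D r`. -/
structure Close (κ r : ℝ) (σ τ : ℂ) (a : ℂ → ℂ) : Prop where
  diff : ∀ u ∈ D r, DifferentiableAt ℂ a u
  val : ∀ u ∈ D r, ‖a u - (σ * u + τ)‖ ≤ κ
  der : ∀ u ∈ D r, ‖deriv a u - σ‖ ≤ κ
  lip : ∀ u ∈ D r, ∀ v ∈ D r, ‖a u - a v - σ * (u - v)‖ ≤ κ * ‖u - v‖
  derLip : ∀ u ∈ D r, ∀ v ∈ D r, ‖deriv a u - deriv a v‖ ≤ κ * ‖u - v‖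
  tay : ∀ u ∈ D r, ∀ v ∈ D r, ‖a u - a v - deriv a v * (u - v)‖ ≤ κ * ‖u - v‖ ^ 2
  asy : ∃ K, ∀ u ∈ D r, ‖a u - (σ * u + τ)‖ * ‖u‖ ^ 2 ≤ K

/-- `G` behaves like the Cauchy transform of a measure of mass `≤ M` carried by `K`. -/
structure IsCT (M : ℝ) (K : Set ℂ) (G : ℂ → ℂ) : Prop where
  bound : ∀ d > 0, ∀ w, (∀ z ∈ K, d ≤ ‖w - z‖) → ‖G w‖ ≤ M / d
  lip : ∀ d > 0, ∀ w w', (∀ z ∈ K, d ≤ ‖w - z‖) → (∀ z ∈ K, d ≤ ‖w' - z‖) →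
    ‖G w - G w'‖ ≤ M / d ^ 2 * ‖w - w'‖
  diff : ∀ d > 0, ∀ w, (∀ z ∈ K, d ≤ ‖w - z‖) → DifferentiableAt ℂ G w
  asy : ∃ m : ℂ, ∃ K' : ℝ, ∀ w, K' ≤ ‖w‖ → ‖G w - m / w‖ ≤ K' / ‖w‖ ^ 2

/-- state of the iteration: approximate factorization `F ∘ a ≈ c` with `a`, `b`, `c ∘ b⁻¹`
exact involutions. -/
structure State (F : ℂ → ℂ) (κ r ε : ℝ) (a b c : ℂ → ℂ) : Prop where
  ca : Close κ r (-1) (2 * e3) a
  cb : Close κ r (-1) (2 * e2) b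
  cc : Close κ r 1 tt c
  ia : ∀ u ∈ D r, a u ∈ D r → a (a u) = u
  ib : ∀ u ∈ D r, b u ∈ D r → b (b u) = u
  ic : ∀ u ∈ D r, ∀ v ∈ D r, c u = b v → c v = b u
  defect : ∀ u ∈ D r, ‖F (a u) - c u‖ ≤ ε

/-- the linear combination of pull backs corrected in one step -/
noncomputable def LL (a b c G₁ G₂ G₃ : ℂ → ℂ) (u : ℂ) : ℂ :=
  (G₃ u - G₃ (a u) / deriv a u) + (G₂ u - G₂ (b u) / deriv b u)
    + (G₁ (b u) / deriv b u - G₁ (c u) / deriv c u)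

end Pool.Agent.Lib.MP_40a019_an.I3
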