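import Pool.Agent.Lib.MP_40a019_an.I3.Defs

namespace Pool.Agent.Lib.MP_40a019_an.I3

open Complex Metric Set Filter Topology

/-- index of the half turn used at `z` -/
noncomputable def idx (z : ℂ) : ℕ := if 1 / 12 ≤ z.re then 0 else if 0 ≤ z.im then 1 else 2

/-- centres -/
noncomputable def ctr (i : ℕ) : ℂ := if i = 0 then e1 else if i = 1 then e2 else e3

noncomputable def stp (z : ℂ) : ℂ := if ‖z‖ < 1 / 4 then z else 2 * ctr (idx z) - z

noncomputable def pth (k : ℕ) (z : ℂ) : ℂ := stp^[k] z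

/-- indicator that the particle is moved by the half turn `i` at time `k` -/
noncomputable def chi (i k : ℕ) (z : ℂ) : ℂ :=
  if 1 / 4 ≤ ‖pth k z‖ ∧ idx (pth k z) = i then 1 else 0

theorem pth_zero (z : ℂ) : pth 0 z = z := rfl

theorem pth_succ (k : ℕ) (z : ℂ) : pth (k + 1) z = stp (pth k z) := by
  unfold pth
  rw [Function.iterate_succ_apply']

theorem normSq_half (z p : ℂ) : ‖2 * p - z‖ ^ 2
    = ‖z‖ ^ 2 - 4 * (p.re * z.re + p.im * z.im) + 4 * (p.re ^ 2 + p.im ^ 2) := by
  rw [← Complex.normSq_eq_norm_sq, ← Complex.normSq_eq_norm_sq, Complex.normSq_apply,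
    Complex.normSq_apply]
  simp
  ring

theorem e1_re : e1.re = 1 / 24 := by
  have : e1 = ((1 / 24 : ℝ) : ℂ) := by unfold e1; push_cast; ring
  rw [this, Complex.ofReal_re]
theorem e1_im : e1.im = 0 := by
  have : e1 = ((1 / 24 : ℝ) : ℂ) := by unfold e1; push_cast; ring
  rw [this, Complex.ofReal_im]
theorem e2_eq : e2 = ((-1 / 24 : ℝ) : ℂ) + ((1 / 24 : ℝ) : ℂ) * I := by
  unfold e2; push_cast; ring
theorem e3_eq : e3 = ((-1 / 24 : ℝ) : ℂ) + ((-1 / 24 : ℝ) : ℂ) * I := by
  unfold e3; push_cast; ring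
theorem e2_re : e2.re = -1 / 24 := by
  rw [e2_eq]; simp only [add_re, mul_re, ofReal_re, ofReal_im, I_re, I_im]; norm_num
theorem e2_im : e2.im = 1 / 24 := by
  rw [e2_eq]; simp only [add_im, mul_im, ofReal_re, ofReal_im, I_re, I_im]; norm_num
theorem e3_re : e3.re = -1 / 24 := by
  rw [e3_eq]; simp only [add_re, mul_re, ofReal_re, ofReal_im, I_re, I_im]; norm_num
theorem e3_im : e3.im = -1 / 24 := by
  rw [e3_eq]; simp only [add_im, mul_im, ofReal_re, ofReal_im, I_re, I_im]; norm_num

/-- a half turn decreases the square of the norm by `1/144` -/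
theorem half_le {z : ℂ} (hz : 1 / 4 ≤ ‖z‖) : ‖2 * ctr (idx z) - z‖ ^ 2 ≤ ‖z‖ ^ 2 - 1 / 144 := by
  have hn : z.re ^ 2 + z.im ^ 2 = ‖z‖ ^ 2 := by
    rw [← Complex.normSq_eq_norm_sq, Complex.normSq_apply]; ring
  have h16 : 1 / 16 ≤ z.re ^ 2 + z.im ^ 2 := by rw [hn]; nlinarith
  rw [normSq_half]
  unfold ctr idx
  by_cases h1 : 1 / 12 ≤ z.re
  · rw [if_pos h1, if_pos rfl, e1_re, e1_im]
    linarith
  · rw [if_neg h1]
    push Not at h1
    by_cases h2 : 0 ≤ z.im
    · rw [if_pos h2, if_neg one_ne_zero, if_pos rfl, e2_re, e2_im]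
      have h3 : 1 / 8 ≤ z.im - z.re := by
        by_cases h4 : z.re ≤ 0
        · nlinarith
        · push Not at h4
          by_contra h5
          push Not at h5
          nlinarith
      linarith
    · rw [if_neg h2, if_neg two_ne_zero, if_neg (by norm_num), e3_re, e3_im]
      push Not at h2
      have h3 : 1 / 8 ≤ -z.im - z.re := by
        by_cases h4 : z.re ≤ 0
        · nlinarith
        · push Not at h4
          by_contra h5
          push Not at h5
          nlinarith
      linarith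

theorem stp_le (z : ℂ) : ‖stp z‖ ≤ ‖z‖ := by
  unfold stp
  split_ifs with h
  · exact le_rfl
  · push Not at h
    have := half_le h
    have h2 := norm_nonneg z
    nlinarith [norm_nonneg (2 * ctr (idx z) - z)]

theorem pth_le (k : ℕ) (z : ℂ) : ‖pth k z‖ ≤ ‖z‖ := by
  induction k with
  | zero => exact le_rfl
  | succ k ih => rw [pth_succ]; exact (stp_le _).trans ih

theorem pth_sq (k : ℕ) (z : ℂ) (h : 1 / 4 ≤ ‖pth k z‖) : ‖pth k z‖ ^ 2 ≤ ‖z‖ ^ 2 - k / 144 := by
  induction k with
  | zero => simp [pth_zero]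
  | succ k ih =>
    rw [pth_succ] at h ⊢
    have h1 : 1 / 4 ≤ ‖pth k z‖ := h.trans (stp_le _)
    have h2 := ih h1
    have h3 : stp (pth k z) = 2 * ctr (idx (pth k z)) - pth k z := by
      unfold stp
      rw [if_neg (by linarith)]
    rw [h3]
    have h4 := half_le h1
    push_cast
    linarith

theorem pth_small {z : ℂ} (hz : ‖z‖ ≤ 2) : ‖pth 600 z‖ < 1 / 4 := by
  by_contra h
  push Not at h
  have h1 := pth_sq 600 z h
  have h2 : ‖z‖ ^ 2 ≤ 4 := by nlinarith [norm_nonneg z]
  have h3 : 0 ≤ ‖pth 600 z‖ ^ 2 := by positivity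
  norm_num at h1
  linarith

theorem chi_ne {i k : ℕ} {z : ℂ} (h : chi i k z ≠ 0) :
    1 / 4 ≤ ‖pth k z‖ ∧ idx (pth k z) = i := by
  unfold chi at h
  by_contra h2
  rw [if_neg h2] at h
  exact h rfl

theorem chi_norm (i k : ℕ) (z : ℂ) : ‖chi i k z‖ ≤ 1 := by
  unfold chi
  split_ifs <;> simp

theorem ctr_zero : ctr 0 = e1 := by simp [ctr]
theorem ctr_one : ctr 1 = e2 := by simp [ctr]
theorem ctr_two : ctr 2 = e3 := by simp [ctr]

theorem idx_cases (z : ℂ) : idx z = 0 ∨ idx z = 1 ∨ idx z = 2 := by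
  unfold idx
  split_ifs <;> simp

/-- one move, seen through an arbitrary function -/
theorem move (φ : ℂ → ℂ) (k : ℕ) (z : ℂ) :
    chi 0 k z * (φ (pth k z) - φ (2 * e1 - pth k z))
      + chi 1 k z * (φ (pth k z) - φ (2 * e2 - pth k z))
      + chi 2 k z * (φ (pth k z) - φ (2 * e3 - pth k z)) = φ (pth k z) - φ (pth (k + 1) z) := by
  rw [pth_succ]
  unfold chi stp
  by_cases h : ‖pth k z‖ < 1 / 4
  · have h' : ¬ (1 / 4 ≤ ‖pth k z‖) := not_le.2 h
    have hchi : ∀ i, (if 1 / 4 ≤ ‖pth k z‖ ∧ idx (pth k z) = i then (1 : ℂ) else 0) = 0 :=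
      fun i => if_neg (fun hh => h' hh.1)
    rw [hchi, hchi, hchi, if_pos h]
    ring
  · have h' : 1 / 4 ≤ ‖pth k z‖ := not_lt.1 h
    have hchi : ∀ i, (if 1 / 4 ≤ ‖pth k z‖ ∧ idx (pth k z) = i then (1 : ℂ) else 0)
        = if idx (pth k z) = i then 1 else 0 := by
      intro i; simp only [h', true_and]
    rw [hchi, hchi, hchi, if_neg h]
    rcases idx_cases (pth k z) with h1 | h1 | h1 <;>
      rw [h1] <;> simp [ctr]

theorem telescope (φ : ℂ → ℂ) (N : ℕ) (z : ℂ) :
    ∑ k ∈ Finset.range N, (chi 0 k z * (φ (pth k z) - φ (2 * e1 - pth k z))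
      + chi 1 k z * (φ (pth k z) - φ (2 * e2 - pth k z))
      + chi 2 k z * (φ (pth k z) - φ (2 * e3 - pth k z))) = φ z - φ (pth N z) := by
  simp_rw [move]
  exact Finset.sum_range_sub' (fun k => φ (pth k z)) N

theorem measurable_idx : Measurable idx := by
  unfold idx
  refine Measurable.ite ?_ measurable_const (Measurable.ite ?_ measurable_const measurable_const)
  · exact measurableSet_le measurable_const Complex.measurable_re
  · exact measurableSet_le measurable_const Complex.measurable_im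

theorem measurable_stp : Measurable stp := by
  unfold stp
  refine Measurable.ite ?_ measurable_id ?_
  · exact measurableSet_lt measurable_norm measurable_const
  · refine Measurable.sub (Measurable.const_mul ?_ 2) measurable_id
    exact (measurable_from_top (f := ctr)).comp measurable_idx

theorem measurable_pth (k : ℕ) : Measurable (pth k) := by
  unfold pth
  exact measurable_stp.iterate k

theorem measurable_chi (i k : ℕ) : Measurable (chi i k) := by
  unfold chi
  refine Measurable.ite ?_ measurable_const measurable_const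
  refine MeasurableSet.inter ?_ ?_
  · exact measurableSet_le measurable_const (measurable_pth k).norm
  · exact (measurable_idx.comp (measurable_pth k)) (measurableSet_singleton i)

end Pool.Agent.Lib.MP_40a019_an.I3
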