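import Pool.Agent.Lib.MP_40a019_an.I3.StepA

namespace Pool.Agent.Lib.MP_40a019_an.I3

open Complex Metric Set Filter Topology

theorem norm_one_add_I : ‖(-1 + I : ℂ)‖ ≤ 3 / 2 := by
  rw [Complex.norm_def, Real.sqrt_le_left (by norm_num)]
  simp [Complex.normSq_apply]
  norm_num

theorem norm_two_e2 : ‖2 * e2‖ ≤ 1 / 8 := by
  have : 2 * e2 = (-1 + I) / 12 := by unfold e2; ring
  rw [this, norm_div]
  have h := norm_one_add_I
  have : ‖(12 : ℂ)‖ = 12 := by simp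
  rw [this]
  linarith

theorem norm_two_e3 : ‖2 * e3‖ ≤ 1 / 8 := by
  have : 2 * e3 = (starRingEnd ℂ) ((-1 + I) / 12) := by
    unfold e3
    simp only [map_div₀, map_add, map_neg, map_one, conj_I]
    rw [show (starRingEnd ℂ) 12 = 12 from Complex.conj_ofNat 12]
    ring
  rw [this, Complex.norm_conj, norm_div]
  have h := norm_one_add_I
  have : ‖(12 : ℂ)‖ = 12 := by simp
  rw [this]
  linarith

theorem norm_tt : ‖tt‖ ≤ 1 / 4 := by
  have : tt = 2 * e2 - 1 / 12 := by unfold tt e1; ring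
  rw [this]
  refine (norm_sub_le _ _).trans ?_
  have h := norm_two_e2
  have : ‖(1 / 12 : ℂ)‖ = 1 / 12 := by simp
  rw [this]
  linarith

theorem Close.lip' {κ r : ℝ} {σ τ : ℂ} {a : ℂ → ℂ} (h : Close κ r σ τ a) (hσ : ‖σ‖ = 1)
    {u v : ℂ} (hu : u ∈ D r) (hv : v ∈ D r) : ‖a u - a v‖ ≤ (1 + κ) * ‖u - v‖ := by
  have h1 := h.lip u hu v hv
  calc ‖a u - a v‖ = ‖(a u - a v - σ * (u - v)) + (σ * (u - v))‖ := by congr 1; ring
    _ ≤ κ * ‖u - v‖ + ‖σ * (u - v)‖ := (norm_add_le _ _).trans (by gcongr)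
    _ = _ := by rw [norm_mul, hσ]; ring

theorem Close.deriv_le {κ r : ℝ} {σ τ : ℂ} {a : ℂ → ℂ} (h : Close κ r σ τ a) (hσ : ‖σ‖ = 1)
    {u : ℂ} (hu : u ∈ D r) : ‖deriv a u‖ ≤ 1 + κ := by
  have h1 := h.der u hu
  calc ‖deriv a u‖ = ‖(deriv a u - σ) + σ‖ := by congr 1; ring
    _ ≤ κ + ‖σ‖ := (norm_add_le _ _).trans (by gcongr)
    _ = _ := by rw [hσ]; ring

theorem Close.le_deriv {κ r : ℝ} {σ τ : ℂ} {a : ℂ → ℂ} (h : Close κ r σ τ a) (hσ : ‖σ‖ = 1)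
    {u : ℂ} (hu : u ∈ D r) : 1 - κ ≤ ‖deriv a u‖ := by
  have h1 := h.der u hu
  have : ‖σ‖ ≤ ‖deriv a u‖ + κ := by
    calc ‖σ‖ = ‖deriv a u - (deriv a u - σ)‖ := by congr 1; ring
      _ ≤ ‖deriv a u‖ + ‖deriv a u - σ‖ := norm_sub_le _ _
      _ ≤ _ := by gcongr
  rw [hσ] at this
  linarith

theorem c_step {κ ν δ r ρ : ℝ} {b c b' H₁ H₂ : ℂ → ℂ} {Γ : Set ℂ} (hκ : 0 ≤ κ)
    (hκ1 : κ ≤ 1 / 100) (hν : 0 ≤ ν) (hν1 : ν ≤ 1 / 100) (hδ : 0 < δ) (hδ1 : δ ≤ 1)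
    (hrρ : r ≤ ρ)
    (hb : Close κ r (-1) (2 * e2) b) (hc : Close κ r 1 tt c)
    (hic : ∀ u ∈ D r, ∀ v ∈ D r, c u = b v → c v = b u)
    (hH : Sm ν δ Γ H₁) (hΓb : ∀ u ∈ D ρ, b u ∈ Γ) (hΓc : ∀ u ∈ D ρ, c u ∈ Γ)
    (hb' : ∀ u ∈ D (ρ + δ), DifferentiableAt ℂ b' u ∧ ‖b' u - b u‖ ≤ 2 * ν * δ ∧
      ‖b' u - (b u - deriv b u * H₂ u + H₂ (b u))‖ ≤ 4 * ν ^ 2)
    (hb'asy : ∃ K, ∀ u ∈ D (ρ + δ), ‖b' u - (-1 * u + 2 * e2)‖ * ‖u‖ ^ 2 ≤ K) :
    ∃ c' : ℂ → ℂ, (∀ u ∈ D (ρ + δ), DifferentiableAt ℂ c' u ∧ ‖c' u - c u‖ ≤ 6 * ν * δ ∧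
      ‖c' u - (c u + deriv c u * (-H₂ u + H₂ (b u) / deriv b u - H₁ (b u) / deriv b u)
        + H₁ (c u))‖ ≤ 18 * ν ^ 2) ∧
      (∀ u ∈ D (ρ + δ), ∀ v ∈ D (ρ + δ), c' u = b' v → c' v = b' u) ∧
      (∃ K, ∀ u ∈ D (ρ + δ), ‖c' u - (1 * u + tt)‖ * ‖u‖ ^ 2 ≤ K) := by
  have hDρ : D ρ ⊆ D r := D_anti hrρ
  have hDρδ : D (ρ + δ) ⊆ D ρ := D_anti (by linarith)
  have n1 : ‖(-1 : ℂ)‖ = 1 := by simp
  have n2 : ‖(1 : ℂ)‖ = 1 := by simp
  obtain ⟨J, hJ1, hJ2⟩ := inv_lemma (-1) n1 (D ρ) (isOpen_D ρ) (fun v => b v + H₁ (b v))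
    (fun v hv => (hb.diff v (hDρ hv)).add
      ((hH.diff _ (hΓb v hv)).comp v (hb.diff v (hDρ hv))))
    (by
      intro x hx y hy
      have e : b x + H₁ (b x) - (b y + H₁ (b y)) - -1 * (x - y)
          = (b x - b y - -1 * (x - y)) + (H₁ (b x) - H₁ (b y)) := by ring
      rw [e]
      have h1 := hb.lip x (hDρ hx) y (hDρ hy)
      have h2 := hH.lip _ (hΓb x hx) _ (hΓb y hy)
      have h3 := hb.lip' n1 (hDρ hx) (hDρ hy)
      calc _ ≤ κ * ‖x - y‖ + ν * ‖b x - b y‖ := (norm_add_le _ _).trans (add_le_add h1 h2)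
        _ ≤ κ * ‖x - y‖ + ν * ((1 + κ) * ‖x - y‖) := by gcongr
        _ = (κ + ν * (1 + κ)) * ‖x - y‖ := by ring
        _ ≤ 1 / 2 * ‖x - y‖ := by
          gcongr
          nlinarith)
  have hball : ∀ u ∈ D (ρ + δ), closedBall u δ ⊆ D ρ := by
    intro u hu x hx
    exact mem_D_of_dist hu (by simpa [dist_eq_norm] using hx)
  have hνδ : 0 ≤ ν * δ := by positivity
  have hJ : ∀ u ∈ D (ρ + δ), J (b' u) ∈ D ρ ∧ b (J (b' u)) + H₁ (b (J (b' u))) = b' u ∧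
      ‖J (b' u) - u‖ ≤ 5 * ν * δ ∧ DifferentiableAt ℂ J (b' u) := by
    intro u hu
    have h0 : ‖b' u - (b u + H₁ (b u))‖ ≤ 5 / 2 * ν * δ := by
      have e : b' u - (b u + H₁ (b u)) = (b' u - b u) + - H₁ (b u) := by ring
      rw [e]
      refine (norm_add_le _ _).trans ?_
      rw [norm_neg]
      have h5 := (hb' u hu).2.1
      have h6 := hH.bd _ (hΓb u (hDρδ hu))
      linarith
    obtain ⟨h1, h2, h3, h4⟩ := hJ2 u δ (b' u) hδ.le (hball u hu) (h0.trans (by nlinarith))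
    refine ⟨h1, h2, h3.trans ?_, h4⟩
    linarith
  refine ⟨fun u => c (J (b' u)) + H₁ (c (J (b' u))), ?_, ?_, ?_⟩
  · intro u hu
    obtain ⟨h1, h2, h3, h4⟩ := hJ u hu
    obtain ⟨g1, g2, g3⟩ := hb' u hu
    have huρ := hDρδ hu
    have d0 : DifferentiableAt ℂ (fun u => J (b' u)) u := h4.comp u g1
    set v := J (b' u) with hv
    have dc : DifferentiableAt ℂ c v := hc.diff _ (hDρ h1)
    have d3 : DifferentiableAt ℂ (fun u => c (J (b' u))) u := dc.comp u d0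
    have dH : DifferentiableAt ℂ H₁ (c v) := hH.diff _ (hΓc _ h1)
    have hcv := hc.lip' n2 (hDρ h1) (hDρ huρ)
    have hbv := hb.lip' n1 (hDρ h1) (hDρ huρ)
    have h3' : ‖v - u‖ ≤ 5 * ν := by
      refine h3.trans ?_
      nlinarith
    refine ⟨d3.add (dH.comp u d3), ?_, ?_⟩
    · have e : c v + H₁ (c v) - c u = (c v - c u) + H₁ (c v) := by ring
      simp only
      rw [e]
      refine (norm_add_le _ _).trans ?_
      have h5 := hH.bd _ (hΓc _ h1)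
      have : (1 + κ) * ‖v - u‖ ≤ (1 + κ) * (5 * ν * δ) := by gcongr
      nlinarith
    · simp only
      have tb : ‖b v - b u - deriv b u * (v - u)‖ ≤ κ * ‖v - u‖ ^ 2 :=
        hb.tay v (hDρ h1) u (hDρ huρ)
      have tc : ‖c v - c u - deriv c u * (v - u)‖ ≤ κ * ‖v - u‖ ^ 2 :=
        hc.tay v (hDρ h1) u (hDρ huρ)
      have t2 : ‖H₁ (b v) - H₁ (b u)‖ ≤ ν * ‖b v - b u‖ := hH.lip _ (hΓb _ h1) _ (hΓb _ huρ)
      have t3 : ‖H₁ (c v) - H₁ (c u)‖ ≤ ν * ‖c v - c u‖ := hH.lip _ (hΓc _ h1) _ (hΓc _ huρ)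
      have t4 := hc.deriv_le n2 (hDρ huρ)
      have t5 := hb.le_deriv n1 (hDρ huρ)
      have hb0 : deriv b u ≠ 0 := by
        intro h0; rw [h0, norm_zero] at t5; linarith
      have e : c v + H₁ (c v) - (c u + deriv c u * (-H₂ u + H₂ (b u) / deriv b u
          - H₁ (b u) / deriv b u) + H₁ (c u))
          = (c v - c u - deriv c u * (v - u)) + (H₁ (c v) - H₁ (c u))
            + deriv c u / deriv b u * ((b' u - (b u - deriv b u * H₂ u + H₂ (b u)))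
              + -(b v - b u - deriv b u * (v - u)) + -(H₁ (b v) - H₁ (b u))) := by
        rw [← h2]
        field_simp
        ring
      rw [e]
      have q1 : κ * ‖v - u‖ ^ 2 ≤ 1 / 4 * ν ^ 2 := by
        calc κ * ‖v - u‖ ^ 2 ≤ 1 / 100 * (5 * ν) ^ 2 := by gcongr
          _ = 1 / 4 * ν ^ 2 := by ring
      have q2 : ν * ((1 + κ) * ‖v - u‖) ≤ 51 / 10 * ν ^ 2 := by
        calc ν * ((1 + κ) * ‖v - u‖) ≤ ν * ((1 + 1 / 100) * (5 * ν)) := by gcongr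
          _ ≤ 51 / 10 * ν ^ 2 := by nlinarith [sq_nonneg ν]
      have q3 : ‖deriv c u / deriv b u‖ ≤ 103 / 100 := by
        rw [norm_div, div_le_iff₀ (by linarith)]
        calc ‖deriv c u‖ ≤ 1 + κ := t4
          _ ≤ 103 / 100 * (1 - κ) := by linarith
          _ ≤ _ := by gcongr
      have q4 : ‖(b' u - (b u - deriv b u * H₂ u + H₂ (b u)))
              + -(b v - b u - deriv b u * (v - u)) + -(H₁ (b v) - H₁ (b u))‖
              ≤ 4 * ν ^ 2 + 1 / 4 * ν ^ 2 + 51 / 10 * ν ^ 2 := by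
        refine norm_add₃_le.trans ?_
        rw [norm_neg, norm_neg]
        gcongr
        · exact tb.trans q1
        · refine t2.trans (le_trans ?_ q2)
          gcongr
      calc _ ≤ ‖c v - c u - deriv c u * (v - u)‖ + ‖H₁ (c v) - H₁ (c u)‖
            + ‖deriv c u / deriv b u * ((b' u - (b u - deriv b u * H₂ u + H₂ (b u)))
              + -(b v - b u - deriv b u * (v - u)) + -(H₁ (b v) - H₁ (b u)))‖ := norm_add₃_le
        _ ≤ 1 / 4 * ν ^ 2 + 51 / 10 * ν ^ 2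
            + 103 / 100 * (4 * ν ^ 2 + 1 / 4 * ν ^ 2 + 51 / 10 * ν ^ 2) := by
          rw [norm_mul]
          gcongr
          · exact tc.trans q1
          · refine t3.trans (le_trans ?_ q2)
            gcongr
        _ ≤ 18 * ν ^ 2 := by nlinarith [sq_nonneg ν]
  · intro u hu w hw huw
    simp only at huw ⊢
    obtain ⟨h1, h2, h3, h4⟩ := hJ u hu
    obtain ⟨k1, k2, k3, k4⟩ := hJ w hw
    have e : c (J (b' u)) = b (J (b' w)) := by
      have h5 : c (J (b' u)) - b (J (b' w)) = -(H₁ (c (J (b' u))) - H₁ (b (J (b' w)))) := by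
        linear_combination huw - k2
      have h6 := hH.lip _ (hΓc _ h1) _ (hΓb _ k1)
      have h7 : ‖c (J (b' u)) - b (J (b' w))‖ ≤ ν * ‖c (J (b' u)) - b (J (b' w))‖ := by
        conv_lhs => rw [h5, norm_neg]
        exact h6
      have h8 : ‖c (J (b' u)) - b (J (b' w))‖ = 0 := by
        have := norm_nonneg (c (J (b' u)) - b (J (b' w)))
        nlinarith
      exact sub_eq_zero.1 (norm_eq_zero.1 h8)
    have e2 := hic _ (hDρ h1) _ (hDρ k1) e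
    rw [e2]
    exact h2
  · obtain ⟨m, K', hK⟩ := hH.asy
    obtain ⟨Kb, hKb⟩ := hb.asy
    obtain ⟨Kc, hKc⟩ := hc.asy
    obtain ⟨Kb', hKb'⟩ := hb'asy
    refine asy_of_far (φ := fun u => c (J (b' u)) + H₁ (c (J (b' u))) - (1 * u + tt))
      (B := κ + 6 * ν * δ) (R := 2 * |K'| + 4)
      (K := 4 * Kc + 4 * Kb + Kb' + (8 * |K'| + 8 * ‖m‖)) ?_ ?_
    · intro u hu
      obtain ⟨h1, h2, h3, h4⟩ := hJ u hu
      have e : c (J (b' u)) + H₁ (c (J (b' u))) - (1 * u + tt)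
          = (c (J (b' u)) - (1 * J (b' u) + tt)) + H₁ (c (J (b' u))) + (J (b' u) - u) := by ring
      rw [e]
      refine norm_add₃_le.trans ?_
      have h5 := hc.val _ (hDρ h1)
      have h6 := hH.bd _ (hΓc _ h1)
      linarith
    · intro u hu hR
      obtain ⟨h1, h2, h3, h4⟩ := hJ u hu
      have hbu' := hKb' u hu
      set v := J (b' u) with hv
      have hvu : ‖v - u‖ ≤ 1 / 10 := by
        refine h3.trans ?_
        nlinarith
      have hbv := hb.val v (hDρ h1)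
      have hcv := hc.val v (hDρ h1)
      have hu0 : 4 ≤ ‖u‖ := by have := abs_nonneg K'; linarith
      have hv1 : ‖u‖ ≤ ‖v‖ + 1 / 10 := by
        have : ‖u‖ ≤ ‖v‖ + ‖v - u‖ := by
          calc ‖u‖ = ‖v - (v - u)‖ := by congr 1; ring
            _ ≤ _ := norm_sub_le _ _
        linarith
      have n3 := norm_tt
      have n4 := norm_two_e2
      have hpq : ‖c v + b v‖ ≤ 2 := by
        calc ‖c v + b v‖ = ‖(c v - (1 * v + tt)) + (b v - (-1 * v + 2 * e2)) + (tt + 2 * e2)‖ := by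
              congr 1; ring
          _ ≤ κ + κ + ‖tt + 2 * e2‖ := norm_add₃_le.trans (by gcongr)
          _ ≤ κ + κ + (‖tt‖ + ‖2 * e2‖) := by gcongr; exact norm_add_le _ _
          _ ≤ 2 := by linarith
      have hp : ‖u‖ / 2 ≤ ‖c v‖ := by
        have h5 : ‖v‖ ≤ ‖c v‖ + κ + ‖tt‖ := by
          calc ‖v‖ = ‖c v + -(c v - (1 * v + tt)) + -tt‖ := by congr 1; ring
            _ ≤ ‖c v‖ + ‖-(c v - (1 * v + tt))‖ + ‖-tt‖ := norm_add₃_le
            _ ≤ _ := by rw [norm_neg, norm_neg]; gcongr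
        linarith
      have hq : ‖u‖ / 2 ≤ ‖b v‖ := by
        have h5 : ‖v‖ ≤ ‖b v‖ + κ + ‖2 * e2‖ := by
          calc ‖v‖ = ‖-(b v) + (b v - (-1 * v + 2 * e2)) + (2 * e2)‖ := by congr 1; ring
            _ ≤ ‖-(b v)‖ + ‖b v - (-1 * v + 2 * e2)‖ + ‖2 * e2‖ := norm_add₃_le
            _ ≤ _ := by rw [norm_neg]; gcongr
        linarith
      have hpair := asy_pair hK (L := ‖u‖) (by linarith) (by linarith) hp hq hpq
      have e : c v + H₁ (c v) - (1 * u + tt) = (c v - (1 * v + tt)) + (b v - (-1 * v + 2 * e2))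
          + -(b' u - (-1 * u + 2 * e2)) + (H₁ (c v) + H₁ (b v)) := by
        linear_combination (-1 : ℂ) * h2
      rw [e]
      have h6 := hKc v (hDρ h1)
      have h6' := hKb v (hDρ h1)
      have h7 : ‖u‖ ^ 2 ≤ 4 * ‖v‖ ^ 2 := by nlinarith [norm_nonneg v]
      calc ‖(c v - (1 * v + tt)) + (b v - (-1 * v + 2 * e2))
          + -(b' u - (-1 * u + 2 * e2)) + (H₁ (c v) + H₁ (b v))‖ * ‖u‖ ^ 2
          ≤ (‖c v - (1 * v + tt)‖ + ‖b v - (-1 * v + 2 * e2)‖ + ‖b' u - (-1 * u + 2 * e2)‖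
            + ‖H₁ (c v) + H₁ (b v)‖) * ‖u‖ ^ 2 := by
            gcongr
            refine (norm_add_le _ _).trans ?_
            gcongr
            refine norm_add₃_le.trans ?_
            rw [norm_neg]
        _ = ‖c v - (1 * v + tt)‖ * ‖u‖ ^ 2 + ‖b v - (-1 * v + 2 * e2)‖ * ‖u‖ ^ 2
            + ‖b' u - (-1 * u + 2 * e2)‖ * ‖u‖ ^ 2 + ‖H₁ (c v) + H₁ (b v)‖ * ‖u‖ ^ 2 := by ring
        _ ≤ ‖c v - (1 * v + tt)‖ * (4 * ‖v‖ ^ 2) + ‖b v - (-1 * v + 2 * e2)‖ * (4 * ‖v‖ ^ 2)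
            + Kb' + (8 * |K'| + 8 * ‖m‖) := by gcongr
        _ = 4 * (‖c v - (1 * v + tt)‖ * ‖v‖ ^ 2) + 4 * (‖b v - (-1 * v + 2 * e2)‖ * ‖v‖ ^ 2)
            + Kb' + (8 * |K'| + 8 * ‖m‖) := by ring
        _ ≤ 4 * Kc + 4 * Kb + Kb' + (8 * |K'| + 8 * ‖m‖) := by gcongr

end Pool.Agent.Lib.MP_40a019_an.I3
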