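import Pool.Agent.Lib.MP_40a019_an.I3.CT
import Pool.Agent.Lib.MP_40a019_an.I3.Path
import Pool.Agent.Lib.MP_40a019_an.I3.StepB

namespace Pool.Agent.Lib.MP_40a019_an.I3

open Complex Metric Set Filter Topology MeasureTheory

theorem q_close {κ d : ℝ} (hκ : 0 ≤ κ) (hd1 : d ≤ 1) (hκd : 4 * κ ≤ d) (hd : 0 < d)
    {x y y₀ m σ : ℂ} (hσ : ‖σ‖ = 1) (hx : ‖x - σ‖ ≤ κ) (hy : ‖y - y₀‖ ≤ 2 * κ)
    (hm : ‖m - 1‖ ≤ 3 * κ) (hy0 : d ≤ ‖y₀‖) : ‖m / (x * y) - 1 / (σ * y₀)‖ ≤ 20 * κ / d ^ 2 := by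
  have hσ0 : σ ≠ 0 := by intro h; rw [h, norm_zero] at hσ; norm_num at hσ
  have hY : 0 < ‖y₀‖ := by linarith
  have hy0' : y₀ ≠ 0 := norm_pos_iff.1 hY
  have hx1 : 3 / 4 ≤ ‖x‖ := by
    have : ‖σ‖ ≤ ‖x‖ + ‖x - σ‖ := by
      calc ‖σ‖ = ‖x - (x - σ)‖ := by congr 1; ring
        _ ≤ _ := norm_sub_le _ _
    linarith
  have hx2 : ‖x‖ ≤ 5 / 4 := by
    have : ‖x‖ ≤ ‖σ‖ + ‖x - σ‖ := by
      calc ‖x‖ = ‖σ + (x - σ)‖ := by congr 1; ring
        _ ≤ _ := norm_add_le _ _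
    linarith
  have hx0 : x ≠ 0 := by intro h; rw [h, norm_zero] at hx1; linarith
  have hy1 : ‖y₀‖ / 2 ≤ ‖y‖ := by
    have : ‖y₀‖ ≤ ‖y‖ + ‖y - y₀‖ := by
      calc ‖y₀‖ = ‖y - (y - y₀)‖ := by congr 1; ring
        _ ≤ _ := norm_sub_le _ _
    linarith
  have hyne : y ≠ 0 := by intro h; rw [h, norm_zero] at hy1; linarith
  have e : m / (x * y) - 1 / (σ * y₀)
      = ((m - 1) * (σ * y₀) + -(x - σ) * y₀ + -(x * (y - y₀))) / (x * y * (σ * y₀)) := by
    field_simp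
    ring
  rw [e, norm_div]
  have hnum : ‖(m - 1) * (σ * y₀) + -(x - σ) * y₀ + -(x * (y - y₀))‖
      ≤ 4 * κ * ‖y₀‖ + 5 / 2 * κ := by
    refine norm_add₃_le.trans ?_
    rw [norm_mul, norm_mul, hσ, norm_mul, norm_neg, norm_neg, norm_mul]
    have h1 : ‖m - 1‖ * (1 * ‖y₀‖) ≤ 3 * κ * (1 * ‖y₀‖) := by gcongr
    have h2 : ‖x - σ‖ * ‖y₀‖ ≤ κ * ‖y₀‖ := by gcongr
    have h3 : ‖x‖ * ‖y - y₀‖ ≤ 5 / 4 * (2 * κ) := by gcongr
    linarith
  have hden : 3 / 8 * ‖y₀‖ ^ 2 ≤ ‖x * y * (σ * y₀)‖ := by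
    rw [norm_mul, norm_mul, norm_mul, hσ]
    calc 3 / 8 * ‖y₀‖ ^ 2 = 3 / 4 * (‖y₀‖ / 2) * (1 * ‖y₀‖) := by ring
      _ ≤ _ := by gcongr
  have hd2 : (0 : ℝ) < 3 / 8 * ‖y₀‖ ^ 2 := by positivity
  calc _ ≤ (4 * κ * ‖y₀‖ + 5 / 2 * κ) / (3 / 8 * ‖y₀‖ ^ 2) := by gcongr
    _ ≤ 20 * κ / d ^ 2 := by
      rw [div_le_div_iff₀ hd2 (by positivity)]
      have h1 : d ^ 2 ≤ ‖y₀‖ ^ 2 := by gcongr
      have h0 : d ^ 2 ≤ ‖y₀‖ := by nlinarith
      have h2 : ‖y₀‖ * d ^ 2 ≤ ‖y₀‖ ^ 2 := by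
        calc ‖y₀‖ * d ^ 2 ≤ ‖y₀‖ * ‖y₀‖ := by gcongr
          _ = ‖y₀‖ ^ 2 := by ring
      have h3 : 4 * κ * (‖y₀‖ * d ^ 2) ≤ 4 * κ * ‖y₀‖ ^ 2 := by gcongr
      have h4 : 5 / 2 * κ * d ^ 2 ≤ 5 / 2 * κ * ‖y₀‖ ^ 2 := by gcongr
      nlinarith [mul_nonneg hκ (sq_nonneg ‖y₀‖)]

theorem kernel_close {κ r : ℝ} {τ : ℂ} {b : ℂ → ℂ} (hκ : 0 ≤ κ) (hκ1 : κ ≤ 1 / 100)
    (hb : Close κ r (-1) τ b) {u v : ℂ} (hu : u ∈ D r) (hv : v ∈ D r) (huv : u ≠ v) :
    ‖deriv b v ^ 2 / (deriv b u * (b u - b v)) - 1 / (u - v)‖ ≤ 3 * κ := by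
  have n1 : ‖(-1 : ℂ)‖ = 1 := by simp
  have hh : u - v ≠ 0 := sub_ne_zero.2 huv
  have hh0 : 0 < ‖u - v‖ := norm_pos_iff.2 hh
  have h1 := hb.derLip u hu v hv
  have h2 := hb.tay u hu v hv
  have h3 := hb.le_deriv n1 hu
  have h4 := hb.deriv_le n1 hv
  have h5 := hb.lip u hu v hv
  have h6 : (1 - κ) * ‖u - v‖ ≤ ‖b u - b v‖ := by
    have : ‖-1 * (u - v)‖ ≤ ‖b u - b v‖ + ‖b u - b v - -1 * (u - v)‖ := by
      calc ‖-1 * (u - v)‖ = ‖(b u - b v) - (b u - b v - -1 * (u - v))‖ := by congr 1; ring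
        _ ≤ _ := norm_sub_le _ _
    rw [norm_mul, n1, one_mul] at this
    linarith
  have hb0 : deriv b u ≠ 0 := by intro h; rw [h, norm_zero] at h3; linarith
  have hΔ0 : 0 < ‖b u - b v‖ := lt_of_lt_of_le (by nlinarith) h6
  have hΔ : b u - b v ≠ 0 := norm_pos_iff.1 hΔ0
  have e : deriv b v ^ 2 / (deriv b u * (b u - b v)) - 1 / (u - v)
      = (-((deriv b u - deriv b v) * (b u - b v)) + -(deriv b v * (b u - b v - deriv b v * (u - v))))
        / (deriv b u * (b u - b v) * (u - v)) := by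
    field_simp
    ring
  rw [e, norm_div, norm_mul, norm_mul, div_le_iff₀ (by positivity)]
  refine (norm_add_le _ _).trans ?_
  rw [norm_neg, norm_neg, norm_mul, norm_mul]
  have h7 : ‖deriv b u - deriv b v‖ * ‖b u - b v‖ ≤ κ * ‖u - v‖ * ‖b u - b v‖ := by gcongr
  have h8 : ‖deriv b v‖ * ‖b u - b v - deriv b v * (u - v)‖ ≤ (1 + κ) * (κ * ‖u - v‖ ^ 2) := by
    gcongr
  have h9 : (1 + κ) * (κ * ‖u - v‖ ^ 2) ≤ 11 / 10 * κ * ‖u - v‖ * ‖b u - b v‖ := by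
    calc (1 + κ) * (κ * ‖u - v‖ ^ 2) = κ * ‖u - v‖ * ((1 + κ) * ‖u - v‖) := by ring
      _ ≤ κ * ‖u - v‖ * (11 / 10 * ((1 - κ) * ‖u - v‖)) := by
        gcongr ?_ * ?_
        rw [← mul_assoc]
        gcongr
        linarith
      _ ≤ κ * ‖u - v‖ * (11 / 10 * ‖b u - b v‖) := by gcongr
      _ = _ := by ring
  have h10 : (κ + 11 / 10 * κ) * (‖u - v‖ * ‖b u - b v‖)
      ≤ (3 * κ * ‖deriv b u‖) * (‖u - v‖ * ‖b u - b v‖) := by
    gcongr
    nlinarith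
  nlinarith

/-- distance gained by a half turn -/
theorem half_dist {s : ℝ} (hs1 : 1 ≤ s) (hs2 : s ≤ 2) {x : ℂ} (h : ‖x‖ ^ 2 ≤ s ^ 2 - 1 / 144) :
    ‖x‖ ≤ s - 1 / 576 := by
  by_contra h1
  push Not at h1
  nlinarith [norm_nonneg x]

theorem norm_sub_ge (u x : ℂ) : ‖u‖ - ‖x‖ ≤ ‖u - x‖ := norm_sub_norm_le u x

/-- comparison of one step of the perturbed operator with the unperturbed one -/
theorem step_close {κ r s : ℝ} {a b c : ℂ → ℂ} (hκ : 0 ≤ κ) (hκ1 : κ ≤ 1 / 10000) (hs1 : 1 ≤ s)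
    (hs2 : s ≤ 2) (hrs : r < s)
    (ha : Close κ r (-1) (2 * e3) a) (hb : Close κ r (-1) (2 * e2) b) (hc : Close κ r 1 tt c)
    {u ζ : ℂ} (hu : u ∈ D s) (hζ : ‖ζ‖ = s) (k : ℕ) :
    ‖(chi 0 k ζ * (1 / (u - pth k ζ) - 1 / (u - (2 * e1 - pth k ζ)))
      + chi 1 k ζ * (1 / (u - pth k ζ) - 1 / (u - (2 * e2 - pth k ζ)))
      + chi 2 k ζ * (1 / (u - pth k ζ) - 1 / (u - (2 * e3 - pth k ζ))))
     - (chi 2 k ζ * (1 / (u - pth k ζ) - 1 / (a u - pth k ζ) / deriv a u)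
      + chi 1 k ζ * (1 / (u - pth k ζ) - 1 / (b u - pth k ζ) / deriv b u)
      + chi 0 k ζ * (if k = 0 then deriv b ζ ^ 2 else 1) *
        (1 / (b u - (if k = 0 then b ζ else 2 * e2 - pth k ζ)) / deriv b u
          - 1 / (c u - (if k = 0 then b ζ else 2 * e2 - pth k ζ)) / deriv c u))‖
      ≤ 100 * 576 ^ 2 * κ := by
  have n1 : ‖(-1 : ℂ)‖ = 1 := by simp
  have n2 : ‖(1 : ℂ)‖ = 1 := by simp
  have hDs : D s ⊆ D r := D_anti hrs.le
  have hur : u ∈ D r := hDs hu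
  have hus : s < ‖u‖ := hu
  have hd0 : (0 : ℝ) < 1 / 576 := by norm_num
  have hconst : 20 * κ / (1 / 576 : ℝ) ^ 2 = 20 * 576 ^ 2 * κ := by ring
  have hζr : ζ ∈ D r := by
    have : r < ‖ζ‖ := by linarith
    exact this
  have hhalf : ∀ i, chi i k ζ ≠ 0 → ‖2 * ctr i - pth k ζ‖ ≤ s - 1 / 576 := by
    intro i hi
    obtain ⟨h1, h2⟩ := chi_ne hi
    have h3 := half_le h1
    rw [h2] at h3
    apply half_dist hs1 hs2
    have h4 := pth_le k ζ
    rw [hζ] at h4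
    have h5 : ‖pth k ζ‖ ^ 2 ≤ s ^ 2 := by gcongr
    linarith
  have hfar : ∀ x : ℂ, ‖x‖ ≤ s - 1 / 576 → 1 / 576 ≤ ‖u - x‖ := by
    intro x hx
    have := norm_sub_ge u x
    linarith
  have hκd : 4 * κ ≤ 1 / 576 := by linarith
  -- the two simple terms
  have simple : ∀ (i : ℕ) (f : ℂ → ℂ), Close κ r (-1) (2 * ctr i) f →
      ‖chi i k ζ * (-(1 / (u - (2 * ctr i - pth k ζ))) + 1 / (f u - pth k ζ) / deriv f u)‖
        ≤ 20 * 576 ^ 2 * κ := by
    intro i f hf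
    by_cases h0 : chi i k ζ = 0
    · rw [h0, zero_mul, norm_zero]; positivity
    · rw [norm_mul]
      have h1 := chi_norm i k ζ
      have h2 := hfar _ (hhalf i h0)
      have h3 := q_close hκ (by norm_num) hκd hd0 (x := deriv f u) (y := f u - pth k ζ)
        (y₀ := (-1 * u + 2 * ctr i) - pth k ζ) (m := 1) (σ := -1) n1 (hf.der u hur)
        (by
          have e : f u - pth k ζ - (-1 * u + 2 * ctr i - pth k ζ) = f u - (-1 * u + 2 * ctr i) := by
            ring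
          rw [e]
          exact (hf.val u hur).trans (by linarith))
        (by rw [sub_self, norm_zero]; positivity)
        (by
          have e : (-1 * u + 2 * ctr i) - pth k ζ = -(u - (2 * ctr i - pth k ζ)) := by ring
          rw [e, norm_neg]
          exact h2)
      rw [hconst] at h3
      have e : -(1 / (u - (2 * ctr i - pth k ζ))) + 1 / (f u - pth k ζ) / deriv f u
          = 1 / (deriv f u * (f u - pth k ζ)) - 1 / (-1 * (-1 * u + 2 * ctr i - pth k ζ)) := by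
        have e1 : -1 * (-1 * u + 2 * ctr i - pth k ζ) = u - (2 * ctr i - pth k ζ) := by ring
        rw [e1, div_div, mul_comm (f u - pth k ζ)]
        ring
      rw [e]
      calc _ ≤ 1 * (20 * 576 ^ 2 * κ) := by gcongr
        _ = _ := by ring
  have t3 := simple 2 a (by rw [ctr_two]; exact ha)
  have t2 := simple 1 b (by rw [ctr_one]; exact hb)
  rw [ctr_two] at t3
  rw [ctr_one] at t2
  have t1 : ‖chi 0 k ζ * ((1 / (u - pth k ζ) - 1 / (u - (2 * e1 - pth k ζ)))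
      - (if k = 0 then deriv b ζ ^ 2 else 1) *
        (1 / (b u - (if k = 0 then b ζ else 2 * e2 - pth k ζ)) / deriv b u
          - 1 / (c u - (if k = 0 then b ζ else 2 * e2 - pth k ζ)) / deriv c u))‖
      ≤ 50 * 576 ^ 2 * κ := by
    by_cases h0 : chi 0 k ζ = 0
    · rw [h0, zero_mul, norm_zero]; positivity
    · rw [norm_mul]
      have h1 := chi_norm 0 k ζ
      have h2 := hfar _ (hhalf 0 h0)
      rw [ctr_zero] at h2
      have hmain : ‖(1 / (u - pth k ζ) - 1 / (u - (2 * e1 - pth k ζ)))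
          - (if k = 0 then deriv b ζ ^ 2 else 1) *
          (1 / (b u - (if k = 0 then b ζ else 2 * e2 - pth k ζ)) / deriv b u
          - 1 / (c u - (if k = 0 then b ζ else 2 * e2 - pth k ζ)) / deriv c u)‖
          ≤ 50 * 576 ^ 2 * κ := by
        by_cases hk : k = 0
        · rw [if_pos hk, if_pos hk]
          rw [hk, pth_zero] at h2 ⊢
          have huζ : u ≠ ζ := by
            intro h; rw [h, hζ] at hus; exact lt_irrefl _ hus
          have h3 := kernel_close hκ (by linarith) hb hur hζr huζ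
          have hbζ := hb.val ζ hζr
          have hbd := hb.der ζ hζr
          have hbd2 := hb.deriv_le n1 hζr
          have h4 := q_close hκ (by norm_num) hκd hd0 (x := deriv c u) (y := c u - b ζ)
            (y₀ := u - (2 * e1 - ζ)) (m := deriv b ζ ^ 2) (σ := 1) n2 (hc.der u hur)
            (by
              have e : c u - b ζ - (u - (2 * e1 - ζ))
                  = (c u - (1 * u + tt)) - (b ζ - (-1 * ζ + 2 * e2)) := by
                unfold tt; ring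
              rw [e]
              refine (norm_sub_le _ _).trans ?_
              have := hc.val u hur
              linarith)
            (by
              have e : deriv b ζ ^ 2 - 1 = (deriv b ζ - -1) * (deriv b ζ - 1) := by ring
              rw [e, norm_mul]
              have h5 : ‖deriv b ζ - 1‖ ≤ 3 := by
                refine (norm_sub_le _ _).trans ?_
                rw [norm_one]; linarith
              calc _ ≤ κ * 3 := by gcongr
                _ = _ := by ring)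
            h2
          rw [hconst] at h4
          have e : (1 / (u - ζ) - 1 / (u - (2 * e1 - ζ))) - deriv b ζ ^ 2 *
              (1 / (b u - b ζ) / deriv b u - 1 / (c u - b ζ) / deriv c u)
              = -(deriv b ζ ^ 2 / (deriv b u * (b u - b ζ)) - 1 / (u - ζ))
                + (deriv b ζ ^ 2 / (deriv c u * (c u - b ζ)) - 1 / (1 * (u - (2 * e1 - ζ)))) := by
            rw [div_div, div_div, mul_comm (b u - b ζ), mul_comm (c u - b ζ)]
            ring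
          rw [e]
          refine (norm_add_le _ _).trans ?_
          rw [norm_neg]
          nlinarith
        · rw [if_neg hk, if_neg hk]
          obtain ⟨h5, h6⟩ := chi_ne h0
          have h7 : ‖pth k ζ‖ ≤ s - 1 / 576 := by
            apply half_dist hs1 hs2
            have h8 := pth_sq k ζ h5
            rw [hζ] at h8
            have h9 : (1 : ℝ) ≤ k := by exact_mod_cast Nat.one_le_iff_ne_zero.2 hk
            linarith
          have h8 := hfar _ h7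
          have h3 := q_close hκ (by norm_num) hκd hd0 (x := deriv b u)
            (y := b u - (2 * e2 - pth k ζ)) (y₀ := pth k ζ - u) (m := 1) (σ := -1) n1
            (hb.der u hur)
            (by
              have e : b u - (2 * e2 - pth k ζ) - (pth k ζ - u) = b u - (-1 * u + 2 * e2) := by
                ring
              rw [e]
              exact (hb.val u hur).trans (by linarith))
            (by rw [sub_self, norm_zero]; positivity)
            (by rw [norm_sub_rev]; exact h8)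
          have h4 := q_close hκ (by norm_num) hκd hd0 (x := deriv c u)
            (y := c u - (2 * e2 - pth k ζ)) (y₀ := u - (2 * e1 - pth k ζ)) (m := 1) (σ := 1) n2
            (hc.der u hur)
            (by
              have e : c u - (2 * e2 - pth k ζ) - (u - (2 * e1 - pth k ζ))
                  = c u - (1 * u + tt) := by
                unfold tt; ring
              rw [e]
              exact (hc.val u hur).trans (by linarith))
            (by rw [sub_self, norm_zero]; positivity)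
            h2
          rw [hconst] at h3 h4
          have e : (1 / (u - pth k ζ) - 1 / (u - (2 * e1 - pth k ζ))) - 1 *
              (1 / (b u - (2 * e2 - pth k ζ)) / deriv b u
                - 1 / (c u - (2 * e2 - pth k ζ)) / deriv c u)
              = -(1 / (deriv b u * (b u - (2 * e2 - pth k ζ))) - 1 / (-1 * (pth k ζ - u)))
                + (1 / (deriv c u * (c u - (2 * e2 - pth k ζ)))
                  - 1 / (1 * (u - (2 * e1 - pth k ζ)))) := by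
            have e1 : -1 * (pth k ζ - u) = u - pth k ζ := by ring
            rw [e1, div_div, div_div, mul_comm (b u - (2 * e2 - pth k ζ)),
              mul_comm (c u - (2 * e2 - pth k ζ))]
            ring
          rw [e]
          refine (norm_add_le _ _).trans ?_
          rw [norm_neg]
          nlinarith
      calc _ ≤ 1 * (50 * 576 ^ 2 * κ) := by gcongr
        _ = _ := by ring
  refine le_trans (le_of_eq ?_) ((norm_add₃_le (a := chi 0 k ζ * ((1 / (u - pth k ζ)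
      - 1 / (u - (2 * e1 - pth k ζ)))
      - (if k = 0 then deriv b ζ ^ 2 else 1) *
        (1 / (b u - (if k = 0 then b ζ else 2 * e2 - pth k ζ)) / deriv b u
          - 1 / (c u - (if k = 0 then b ζ else 2 * e2 - pth k ζ)) / deriv c u)))
      (b := chi 1 k ζ * (-(1 / (u - (2 * e2 - pth k ζ))) + 1 / (b u - pth k ζ) / deriv b u))
      (c := chi 2 k ζ * (-(1 / (u - (2 * e3 - pth k ζ))) + 1 / (a u - pth k ζ) / deriv a u))).trans
      (by nlinarith))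
  congr 1
  ring

/-- the density on the circle -/
noncomputable def rho (s : ℝ) (E : ℂ → ℂ) (θ : ℝ) : ℂ :=
  (2 * Real.pi * I)⁻¹ * (circleMap 0 s θ * I) * E (circleMap 0 s θ)

theorem rho_norm {s ε : ℝ} (hs : 0 < s) {E : ℂ → ℂ} (hE : ∀ ζ : ℂ, ‖ζ‖ = s → ‖E ζ‖ ≤ ε) (θ : ℝ) :
    ‖rho s E θ‖ ≤ s * ε / (2 * Real.pi) := by
  unfold rho
  have h1 : ‖circleMap 0 s θ‖ = s := by simp [abs_of_pos hs]
  have h2 := hE _ h1
  have h3 : ‖(2 * (Real.pi : ℂ) * I)⁻¹‖ = 1 / (2 * Real.pi) := by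
    rw [norm_inv, norm_mul, norm_mul, Complex.norm_I, Complex.norm_real, Real.norm_eq_abs,
      abs_of_pos Real.pi_pos, Complex.norm_ofNat]
    ring
  rw [norm_mul, norm_mul, norm_mul, h3, h1, Complex.norm_I]
  have : s * ε / (2 * Real.pi) = 1 / (2 * Real.pi) * (s * 1) * ε := by ring
  rw [this]
  have hpi := Real.pi_pos
  gcongr

theorem circle_eq {s : ℝ} {E : ℂ → ℂ} (g : ℂ → ℂ) :
    ∫ θ in (0 : ℝ)..(2 * Real.pi), rho s E θ * g (circleMap 0 s θ)
      = (2 * Real.pi * I)⁻¹ * ∮ ζ in C(0, s), E ζ * g ζ := by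
  rw [circleIntegral, ← intervalIntegral.integral_const_mul]
  congr 1
  ext θ
  rw [deriv_circleMap, smul_eq_mul]
  unfold rho
  ring

theorem linear_solver : ∃ C κ₀ : ℝ, 0 < C ∧ 0 < κ₀ ∧ κ₀ ≤ 1 / 10000 ∧
    ∀ (κ r s ε : ℝ) (a b c E : ℂ → ℂ), 0 ≤ κ → κ ≤ κ₀ → 1 ≤ r → r < s → s ≤ 2 → 0 ≤ ε →
      Close κ r (-1) (2 * e3) a → Close κ r (-1) (2 * e2) b → Close κ r 1 tt c →
      (∀ u ∈ D r, DifferentiableAt ℂ E u) → (∀ u ∈ D r, ‖E u‖ ≤ ε) →
      (∃ K, ∀ u ∈ D r, ‖E u‖ * ‖u‖ ^ 2 ≤ K) →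
      ∃ (G₁ G₂ G₃ : ℂ → ℂ) (K₁ K₂ K₃ : Set ℂ),
        IsCT (C * ε) K₁ G₁ ∧ IsCT (C * ε) K₂ G₂ ∧ IsCT (C * ε) K₃ G₃ ∧
        (∀ u ∈ D s, ∀ z ∈ K₃, ‖u‖ - s ≤ ‖u - z‖) ∧ (∀ u ∈ D s, ∀ z ∈ K₃, κ₀ ≤ ‖a u - z‖) ∧
        (∀ u ∈ D s, ∀ z ∈ K₂, ‖u‖ - s ≤ ‖u - z‖) ∧ (∀ u ∈ D s, ∀ z ∈ K₂, κ₀ ≤ ‖b u - z‖) ∧
        (∀ u ∈ D s, ∀ z ∈ K₁, (‖u‖ - s) / 2 ≤ ‖b u - z‖) ∧
        (∀ u ∈ D s, ∀ z ∈ K₁, κ₀ ≤ ‖c u - z‖) ∧
        ∀ u ∈ D s, ‖E u - LL a b c G₁ G₂ G₃ u‖ ≤ 2 / 5 * ε := by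
  refine ⟨2000, 1 / 10 ^ 12, by norm_num, by norm_num, by norm_num, ?_⟩
  intro κ r s ε a b c E hκ hκ1 hr hrs hs2 hε ha hb hc hEd hEb hEasy
  have n1 : ‖(-1 : ℂ)‖ = 1 := by simp
  have n2 : ‖(1 : ℂ)‖ = 1 := by simp
  have hs1 : 1 ≤ s := by linarith
  have hs0 : 0 < s := by linarith
  have hpi := Real.pi_pos
  have hκ2 : κ ≤ 1 / 10000 := hκ1.trans (by norm_num)
  have hDs : D s ⊆ D r := D_anti hrs.le
  set Z : ℝ → ℂ := circleMap 0 s with hZ
  have hZn : ∀ θ, ‖Z θ‖ = s := fun θ => by simp [hZ, abs_of_pos hs0]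
  have hZr : ∀ θ, Z θ ∈ D r := fun θ => by
    have : r < ‖Z θ‖ := by rw [hZn]; exact hrs
    exact this
  have hZc : Continuous Z := continuous_circleMap 0 s
  set ρ : ℝ → ℂ := rho s E with hρ
  have hcontE : Continuous fun θ => E (Z θ) := by
    have h1 : ContinuousOn E (D r) := fun u hu => (hEd u hu).continuousAt.continuousWithinAt
    exact h1.comp_continuous hZc hZr
  have hρc : Continuous ρ := by
    rw [hρ]; unfold rho
    exact (continuous_const.mul (hZc.mul continuous_const)).mul hcontE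
  set Mρ : ℝ := s * ε / (2 * Real.pi) with hMρ
  have hMρ0 : 0 ≤ Mρ := by positivity
  have hρn : ∀ θ, ‖ρ θ‖ ≤ Mρ := rho_norm hs0 (fun ζ hζ => hEb ζ (by
    have : r < ‖ζ‖ := by rw [hζ]; exact hrs
    exact this))
  have hbc : Continuous fun θ => b (Z θ) := by
    have h1 : ContinuousOn b (D r) := fun u hu => (hb.diff u hu).continuousAt.continuousWithinAt
    exact h1.comp_continuous hZc hZr
  have hbdc : Continuous fun θ => deriv b (Z θ) := by
    have h0 : DifferentiableOn ℂ b (D r) := fun y hy => (hb.diff y hy).differentiableWithinAt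
    have h1 : ContinuousOn (deriv b) (D r) := (h0.deriv (isOpen_D r)).continuousOn
    exact h1.comp_continuous hZc hZr
  have hmZ : Measurable Z := hZc.measurable
  -- densities and poles
  set ρ3 : ℕ → ℝ → ℂ := fun k θ => ρ θ * chi 2 k (Z θ) with hρ3
  set ρ2 : ℕ → ℝ → ℂ := fun k θ => ρ θ * chi 1 k (Z θ) with hρ2
  set ρ1 : ℕ → ℝ → ℂ := fun k θ => ρ θ * chi 0 k (Z θ) * (if k = 0 then deriv b (Z θ) ^ 2 else 1)
    with hρ1
  set zz : ℕ → ℝ → ℂ := fun k θ => pth k (Z θ) with hzz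
  set z1 : ℕ → ℝ → ℂ := fun k θ => if k = 0 then b (Z θ) else 2 * e2 - pth k (Z θ) with hz1
  have m3 : ∀ k, Measurable (ρ3 k) := fun k =>
    hρc.measurable.mul ((measurable_chi 2 k).comp hmZ)
  have m2 : ∀ k, Measurable (ρ2 k) := fun k =>
    hρc.measurable.mul ((measurable_chi 1 k).comp hmZ)
  have m1 : ∀ k, Measurable (ρ1 k) := fun k => by
    refine (hρc.measurable.mul ((measurable_chi 0 k).comp hmZ)).mul ?_
    by_cases hk : k = 0
    · simp only [hk, if_true]; exact (hbdc.pow 2).measurable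
    · simp only [hk, if_false]; exact measurable_const
  have mzz : ∀ k, Measurable (zz k) := fun k => (measurable_pth k).comp hmZ
  have mz1 : ∀ k, Measurable (z1 k) := fun k => by
    by_cases hk : k = 0
    · simp only [hz1, hk, if_true]; exact hbc.measurable
    · simp only [hz1, hk, if_false]; exact measurable_const.sub (mzz k)
  have hM : ∀ (x : ℂ) (θ : ℝ), ‖x‖ ≤ 1 → ‖ρ θ * x‖ ≤ Mρ := by
    intro x θ hx
    rw [norm_mul]
    calc ‖ρ θ‖ * ‖x‖ ≤ Mρ * 1 := by gcongr; exact hρn θ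
      _ = Mρ := mul_one _
  have b3 : ∀ k θ, ‖ρ3 k θ‖ ≤ 11 / 10 * Mρ := fun k θ =>
    (hM _ θ (chi_norm _ _ _)).trans (by linarith)
  have b2 : ∀ k θ, ‖ρ2 k θ‖ ≤ 11 / 10 * Mρ := fun k θ =>
    (hM _ θ (chi_norm _ _ _)).trans (by linarith)
  have b1 : ∀ k θ, ‖ρ1 k θ‖ ≤ 11 / 10 * Mρ := fun k θ => by
    have h1 := hM _ θ (chi_norm 0 k (Z θ))
    have h2 : ‖(if k = 0 then deriv b (Z θ) ^ 2 else 1 : ℂ)‖ ≤ 11 / 10 := by
      split_ifs
      · rw [norm_pow]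
        have h3 := hb.deriv_le n1 (hZr θ)
        calc ‖deriv b (Z θ)‖ ^ 2 ≤ (1 + κ) ^ 2 := by gcongr
          _ ≤ 11 / 10 := by nlinarith
      · rw [norm_one]; norm_num
    simp only [hρ1]
    rw [norm_mul]
    calc _ ≤ Mρ * (11 / 10) := by gcongr
      _ = _ := by ring
  -- carriers
  set K₃ : Set ℂ := {z | ‖z‖ ≤ s ∧ ‖2 * e3 - z‖ ≤ s - 1 / 576} with hK₃
  set K₂ : Set ℂ := {z | ‖z‖ ≤ s ∧ ‖2 * e2 - z‖ ≤ s - 1 / 576} with hK₂
  set K₁ : Set ℂ := {z | (∃ ζ : ℂ, ‖ζ‖ = s ∧ ‖2 * e1 - ζ‖ ≤ s - 1 / 576 ∧ z = b ζ) ∨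
    (∃ ζ : ℂ, ‖ζ‖ ≤ s - 1 / 576 ∧ ‖2 * e1 - ζ‖ ≤ s - 1 / 576 ∧ z = 2 * e2 - ζ)} with hK₁
  have hhalf : ∀ i k θ, chi i k (Z θ) ≠ 0 → ‖2 * ctr i - pth k (Z θ)‖ ≤ s - 1 / 576 := by
    intro i k θ hi
    obtain ⟨h1, h2⟩ := chi_ne hi
    have h3 := half_le h1
    rw [h2] at h3
    apply half_dist hs1 hs2
    have h4 := pth_le k (Z θ)
    rw [hZn] at h4
    have h5 : ‖pth k (Z θ)‖ ^ 2 ≤ s ^ 2 := by gcongr
    linarith
  have k3 : ∀ k θ, ρ3 k θ ≠ 0 → zz k θ ∈ K₃ := by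
    intro k θ h
    have h1 := hhalf 2 k θ (right_ne_zero_of_mul h)
    rw [ctr_two] at h1
    exact ⟨(pth_le k _).trans (hZn θ).le, h1⟩
  have k2 : ∀ k θ, ρ2 k θ ≠ 0 → zz k θ ∈ K₂ := by
    intro k θ h
    have h1 := hhalf 1 k θ (right_ne_zero_of_mul h)
    rw [ctr_one] at h1
    exact ⟨(pth_le k _).trans (hZn θ).le, h1⟩
  have k1 : ∀ k θ, ρ1 k θ ≠ 0 → z1 k θ ∈ K₁ := by
    intro k θ h
    have h0 : chi 0 k (Z θ) ≠ 0 := right_ne_zero_of_mul (left_ne_zero_of_mul h)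
    have h1 := hhalf 0 k θ h0
    rw [ctr_zero] at h1
    by_cases hk : k = 0
    · left
      refine ⟨Z θ, hZn θ, ?_, by simp [hz1, hk]⟩
      rw [hk, pth_zero] at h1
      exact h1
    · right
      refine ⟨pth k (Z θ), ?_, h1, by simp [hz1, hk]⟩
      apply half_dist hs1 hs2
      have h8 := pth_sq k (Z θ) (chi_ne h0).1
      rw [hZn] at h8
      have h9 : (1 : ℝ) ≤ k := by exact_mod_cast Nat.one_le_iff_ne_zero.2 hk
      linarith
  have ne2 := norm_two_e2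
  have rK3 : ∀ x ∈ K₃, ‖x‖ ≤ 4 := fun x hx => hx.1.trans (by linarith)
  have rK2 : ∀ x ∈ K₂, ‖x‖ ≤ 4 := fun x hx => hx.1.trans (by linarith)
  have rK1 : ∀ x ∈ K₁, ‖x‖ ≤ 4 := by
    rintro x (⟨ζ, h1, h2, rfl⟩ | ⟨ζ, h1, h2, rfl⟩)
    · have hζr : ζ ∈ D r := by
        have : r < ‖ζ‖ := by rw [h1]; exact hrs
        exact this
      have h3 := hb.val ζ hζr
      calc ‖b ζ‖ = ‖(b ζ - (-1 * ζ + 2 * e2)) + (-ζ) + 2 * e2‖ := by congr 1; ring
        _ ≤ κ + ‖-ζ‖ + ‖2 * e2‖ := norm_add₃_le.trans (by gcongr)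
        _ ≤ 4 := by rw [norm_neg, h1]; linarith
    · calc ‖2 * e2 - ζ‖ ≤ ‖2 * e2‖ + ‖ζ‖ := norm_sub_le _ _
        _ ≤ 4 := by linarith
  have ct3 : ∀ k, IsCT (2 * Real.pi * (11 / 10 * Mρ)) K₃ (ctr_int (ρ3 k) (zz k)) := fun k =>
    isCT_int (m3 k) (mzz k) (b3 k) (k3 k) rK3 (by norm_num)
  have ct2 : ∀ k, IsCT (2 * Real.pi * (11 / 10 * Mρ)) K₂ (ctr_int (ρ2 k) (zz k)) := fun k =>
    isCT_int (m2 k) (mzz k) (b2 k) (k2 k) rK2 (by norm_num)
  have ct1 : ∀ k, IsCT (2 * Real.pi * (11 / 10 * Mρ)) K₁ (ctr_int (ρ1 k) (z1 k)) := fun k =>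
    isCT_int (m1 k) (mz1 k) (b1 k) (k1 k) rK1 (by norm_num)
  have hmass : ((600 : ℕ) : ℝ) * (2 * Real.pi * (11 / 10 * Mρ)) ≤ 2000 * ε := by
    have : 2 * Real.pi * (11 / 10 * Mρ) = 11 / 10 * (s * ε) := by
      rw [hMρ]; field_simp
    rw [this]
    push_cast
    nlinarith
  set G₃ : ℂ → ℂ := fun w => ∑ k ∈ Finset.range 600, ctr_int (ρ3 k) (zz k) w with hG₃
  set G₂ : ℂ → ℂ := fun w => ∑ k ∈ Finset.range 600, ctr_int (ρ2 k) (zz k) w with hG₂
  set G₁ : ℂ → ℂ := fun w => ∑ k ∈ Finset.range 600, ctr_int (ρ1 k) (z1 k) w with hG₁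
  -- distances
  have d3 : ∀ u ∈ D s, ∀ z ∈ K₃, ‖u‖ - s ≤ ‖u - z‖ := by
    intro u hu z hz
    have := norm_sub_ge u z
    have := hz.1
    linarith
  have d2 : ∀ u ∈ D s, ∀ z ∈ K₂, ‖u‖ - s ≤ ‖u - z‖ := by
    intro u hu z hz
    have := norm_sub_ge u z
    have := hz.1
    linarith
  have d3a : ∀ u ∈ D s, ∀ z ∈ K₃, 1 / 1000 ≤ ‖a u - z‖ := by
    intro u hu z hz
    have hus : s < ‖u‖ := hu
    have h1 := norm_sub_ge u (2 * e3 - z)
    have h2 := hz.2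
    have h3 := ha.val u (hDs hu)
    have h4 : ‖u - (2 * e3 - z)‖ ≤ ‖a u - z‖ + ‖a u - (-1 * u + 2 * e3)‖ := by
      calc ‖u - (2 * e3 - z)‖ = ‖-(a u - z) + (a u - (-1 * u + 2 * e3))‖ := by congr 1; ring
        _ ≤ ‖-(a u - z)‖ + ‖a u - (-1 * u + 2 * e3)‖ := norm_add_le _ _
        _ = _ := by rw [norm_neg]
    linarith
  have d2b : ∀ u ∈ D s, ∀ z ∈ K₂, 1 / 1000 ≤ ‖b u - z‖ := by
    intro u hu z hz
    have hus : s < ‖u‖ := hu
    have h1 := norm_sub_ge u (2 * e2 - z)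
    have h2 := hz.2
    have h3 := hb.val u (hDs hu)
    have h4 : ‖u - (2 * e2 - z)‖ ≤ ‖b u - z‖ + ‖b u - (-1 * u + 2 * e2)‖ := by
      calc ‖u - (2 * e2 - z)‖ = ‖-(b u - z) + (b u - (-1 * u + 2 * e2))‖ := by congr 1; ring
        _ ≤ ‖-(b u - z)‖ + ‖b u - (-1 * u + 2 * e2)‖ := norm_add_le _ _
        _ = _ := by rw [norm_neg]
    linarith
  have d1b : ∀ u ∈ D s, ∀ z ∈ K₁, (‖u‖ - s) / 2 ≤ ‖b u - z‖ := by
    rintro u hu z (⟨ζ, h1, h2, rfl⟩ | ⟨ζ, h1, h2, rfl⟩)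
    · have hus : s < ‖u‖ := hu
      have hζr : ζ ∈ D r := by
        have : r < ‖ζ‖ := by rw [h1]; exact hrs
        exact this
      have h3 := hb.lip u (hDs hu) ζ hζr
      have h4 := norm_sub_ge u ζ
      have h5 : ‖-1 * (u - ζ)‖ ≤ ‖b u - b ζ‖ + ‖b u - b ζ - -1 * (u - ζ)‖ := by
        calc ‖-1 * (u - ζ)‖ = ‖(b u - b ζ) - (b u - b ζ - -1 * (u - ζ))‖ := by congr 1; ring
          _ ≤ _ := norm_sub_le _ _
      rw [norm_mul, n1, one_mul] at h5
      nlinarith [norm_nonneg (u - ζ)]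
    · have hus : s < ‖u‖ := hu
      have h3 := hb.val u (hDs hu)
      have h4 := norm_sub_ge u ζ
      have h5 : ‖u - ζ‖ ≤ ‖b u - (2 * e2 - ζ)‖ + ‖b u - (-1 * u + 2 * e2)‖ := by
        calc ‖u - ζ‖ = ‖-(b u - (2 * e2 - ζ)) + (b u - (-1 * u + 2 * e2))‖ := by congr 1; ring
          _ ≤ ‖-(b u - (2 * e2 - ζ))‖ + ‖b u - (-1 * u + 2 * e2)‖ := norm_add_le _ _
          _ = _ := by rw [norm_neg]
      linarith
  have d1c : ∀ u ∈ D s, ∀ z ∈ K₁, 1 / 1000 ≤ ‖c u - z‖ := by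
    rintro u hu z (⟨ζ, h1, h2, rfl⟩ | ⟨ζ, h1, h2, rfl⟩)
    · have hus : s < ‖u‖ := hu
      have hζr : ζ ∈ D r := by
        have : r < ‖ζ‖ := by rw [h1]; exact hrs
        exact this
      have h3 := hc.val u (hDs hu)
      have h3' := hb.val ζ hζr
      have h4 := norm_sub_ge u (2 * e1 - ζ)
      have h5 : ‖u - (2 * e1 - ζ)‖ ≤ ‖c u - b ζ‖ + ‖c u - (1 * u + tt)‖
          + ‖b ζ - (-1 * ζ + 2 * e2)‖ := by
        calc ‖u - (2 * e1 - ζ)‖ = ‖(c u - b ζ) + -(c u - (1 * u + tt))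
              + (b ζ - (-1 * ζ + 2 * e2))‖ := by congr 1; unfold tt; ring
          _ ≤ ‖c u - b ζ‖ + ‖-(c u - (1 * u + tt))‖ + ‖b ζ - (-1 * ζ + 2 * e2)‖ := norm_add₃_le
          _ = _ := by rw [norm_neg]
      linarith
    · have hus : s < ‖u‖ := hu
      have h3 := hc.val u (hDs hu)
      have h4 := norm_sub_ge u (2 * e1 - ζ)
      have h5 : ‖u - (2 * e1 - ζ)‖ ≤ ‖c u - (2 * e2 - ζ)‖ + ‖c u - (1 * u + tt)‖ := by
        calc ‖u - (2 * e1 - ζ)‖ = ‖(c u - (2 * e2 - ζ)) + -(c u - (1 * u + tt))‖ := by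
              congr 1; unfold tt; ring
          _ ≤ ‖c u - (2 * e2 - ζ)‖ + ‖-(c u - (1 * u + tt))‖ := norm_add_le _ _
          _ = _ := by rw [norm_neg]
      linarith
  refine ⟨G₁, G₂, G₃, K₁, K₂, K₃, (IsCT.sum 600 fun k _ => ct1 k).mono hmass,
    (IsCT.sum 600 fun k _ => ct2 k).mono hmass, (IsCT.sum 600 fun k _ => ct3 k).mono hmass,
    d3, fun u hu z hz => le_trans (by norm_num) (d3a u hu z hz),
    d2, fun u hu z hz => le_trans (by norm_num) (d2b u hu z hz),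
    d1b, fun u hu z hz => le_trans (by norm_num) (d1c u hu z hz), ?_⟩
  intro u hu
  have hus : s < ‖u‖ := hu
  have hu0 : u ≠ 0 := by
    intro h; rw [h, norm_zero] at hus; linarith
  set dd : ℝ := min ((‖u‖ - s) / 2) (1 / 1000) with hdd
  have hdd0 : 0 < dd := lt_min (by linarith) (by norm_num)
  have hdd1 : dd ≤ (‖u‖ - s) / 2 := min_le_left _ _
  have hdd2 : dd ≤ 1 / 1000 := min_le_right _ _
  -- integrability
  have i3u : ∀ k, IntervalIntegrable (fun θ => ρ3 k θ / (u - zz k θ)) volume 0 (2 * Real.pi) :=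
    fun k => intble (m3 k) (mzz k) (b3 k) hdd0 fun θ h =>
      le_trans (by linarith) (d3 u hu _ (k3 k θ h))
  have i3a : ∀ k, IntervalIntegrable (fun θ => ρ3 k θ / (a u - zz k θ)) volume 0 (2 * Real.pi) :=
    fun k => intble (m3 k) (mzz k) (b3 k) hdd0 fun θ h => hdd2.trans (d3a u hu _ (k3 k θ h))
  have i2u : ∀ k, IntervalIntegrable (fun θ => ρ2 k θ / (u - zz k θ)) volume 0 (2 * Real.pi) :=
    fun k => intble (m2 k) (mzz k) (b2 k) hdd0 fun θ h =>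
      le_trans (by linarith) (d2 u hu _ (k2 k θ h))
  have i2b : ∀ k, IntervalIntegrable (fun θ => ρ2 k θ / (b u - zz k θ)) volume 0 (2 * Real.pi) :=
    fun k => intble (m2 k) (mzz k) (b2 k) hdd0 fun θ h => hdd2.trans (d2b u hu _ (k2 k θ h))
  have i1b : ∀ k, IntervalIntegrable (fun θ => ρ1 k θ / (b u - z1 k θ)) volume 0 (2 * Real.pi) :=
    fun k => intble (m1 k) (mz1 k) (b1 k) hdd0 fun θ h => hdd1.trans (d1b u hu _ (k1 k θ h))
  have i1c : ∀ k, IntervalIntegrable (fun θ => ρ1 k θ / (c u - z1 k θ)) volume 0 (2 * Real.pi) :=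
    fun k => intble (m1 k) (mz1 k) (b1 k) hdd0 fun θ h => hdd2.trans (d1c u hu _ (k1 k θ h))
  -- the Cauchy formula
  obtain ⟨hcauchy, hzero⟩ := cauchy_ext (by linarith : 0 < r) hrs hEd hEasy
  have hpiI : (2 * (Real.pi : ℂ) * I) ≠ 0 := Complex.two_pi_I_ne_zero
  have hEu : E u = ∫ θ in (0 : ℝ)..(2 * Real.pi), ρ θ * (u - Z θ)⁻¹ := by
    rw [hρ, hZ, circle_eq (fun ζ => (u - ζ)⁻¹)]
    have := hcauchy u hu
    simp_rw [div_eq_mul_inv] at this
    rw [this, ← mul_assoc, inv_mul_cancel₀ hpiI, one_mul]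
  have hE0 : (∫ θ in (0 : ℝ)..(2 * Real.pi), ρ θ * u⁻¹) = 0 := by
    rw [intervalIntegral.integral_mul_const]
    have h1 : (∫ θ in (0 : ℝ)..(2 * Real.pi), ρ θ) = 0 := by
      have h2 := circle_eq (s := s) (E := E) (fun _ => 1)
      simp only [mul_one] at h2
      rw [hzero, mul_zero] at h2
      exact h2
    rw [h1, zero_mul]
  set T : ℕ → ℝ → ℂ := fun k θ =>
    (ρ3 k θ / (u - zz k θ) - ρ3 k θ / (a u - zz k θ) / deriv a u)
      + (ρ2 k θ / (u - zz k θ) - ρ2 k θ / (b u - zz k θ) / deriv b u)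
      + (ρ1 k θ / (b u - z1 k θ) / deriv b u - ρ1 k θ / (c u - z1 k θ) / deriv c u) with hT
  have iT : ∀ k, IntervalIntegrable (T k) volume 0 (2 * Real.pi) := fun k =>
    (((i3u k).sub ((i3a k).div_const _)).add ((i2u k).sub ((i2b k).div_const _))).add
      (((i1b k).div_const _).sub ((i1c k).div_const _))
  have hLL : LL a b c G₁ G₂ G₃ u
      = ∫ θ in (0 : ℝ)..(2 * Real.pi), ∑ k ∈ Finset.range 600, T k θ := by
    rw [intervalIntegral.integral_finsetSum fun k _ => iT k]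
    simp only [LL, hG₃, hG₂, hG₁, ctr_int, Finset.sum_div, ← Finset.sum_sub_distrib,
      ← Finset.sum_add_distrib]
    refine Finset.sum_congr rfl fun k _ => ?_
    simp only [hT]
    rw [intervalIntegral.integral_add
        (((i3u k).sub ((i3a k).div_const _)).add ((i2u k).sub ((i2b k).div_const _)))
        (((i1b k).div_const _).sub ((i1c k).div_const _)),
      intervalIntegral.integral_add ((i3u k).sub ((i3a k).div_const _))
        ((i2u k).sub ((i2b k).div_const _)),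
      intervalIntegral.integral_sub (i3u k) ((i3a k).div_const _),
      intervalIntegral.integral_sub (i2u k) ((i2b k).div_const _),
      intervalIntegral.integral_sub ((i1b k).div_const _) ((i1c k).div_const _),
      intervalIntegral.integral_div, intervalIntegral.integral_div,
      intervalIntegral.integral_div, intervalIntegral.integral_div]
  have hZu : ∀ θ, ‖u‖ - s ≤ ‖u - Z θ‖ := fun θ => by
    have := norm_sub_ge u (Z θ)
    rw [hZn] at this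
    exact this
  have hZne : ∀ θ, u - Z θ ≠ 0 := fun θ => by
    rw [← norm_pos_iff]; exact lt_of_lt_of_le (by linarith) (hZu θ)
  have iE : IntervalIntegrable (fun θ => ρ θ * (u - Z θ)⁻¹) volume 0 (2 * Real.pi) := by
    apply Continuous.intervalIntegrable
    exact hρc.mul ((continuous_const.sub hZc).inv₀ hZne)
  have i0 : IntervalIntegrable (fun θ => ρ θ * u⁻¹) volume 0 (2 * Real.pi) := by
    apply Continuous.intervalIntegrable
    exact hρc.mul continuous_const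
  have iS : IntervalIntegrable (fun θ => ∑ k ∈ Finset.range 600, T k θ) volume 0
      (2 * Real.pi) := by
    have e : (fun θ => ∑ k ∈ Finset.range 600, T k θ) = ∑ k ∈ Finset.range 600, T k := by
      funext θ; rw [Finset.sum_apply]
    rw [e]
    exact IntervalIntegrable.sum (Finset.range 600) (f := T) (fun k _ => iT k)
  have hdiff : E u - LL a b c G₁ G₂ G₃ u = ∫ θ in (0 : ℝ)..(2 * Real.pi),
      (ρ θ * (u - Z θ)⁻¹ - ρ θ * u⁻¹ - ∑ k ∈ Finset.range 600, T k θ) := by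
    rw [intervalIntegral.integral_sub (iE.sub i0) iS, intervalIntegral.integral_sub iE i0, hE0,
      ← hEu, hLL, sub_zero]
  rw [hdiff]
  have hpt : ∀ θ, ‖ρ θ * (u - Z θ)⁻¹ - ρ θ * u⁻¹ - ∑ k ∈ Finset.range 600, T k θ‖
      ≤ Mρ * (1 / (3 * s) + 600 * (100 * 576 ^ 2 * κ)) := by
    intro θ
    set ζ := Z θ with hζ
    have hζn : ‖ζ‖ = s := hZn θ
    set M : ℕ → ℂ := fun k => (chi 0 k ζ * (1 / (u - pth k ζ) - 1 / (u - (2 * e1 - pth k ζ)))
      + chi 1 k ζ * (1 / (u - pth k ζ) - 1 / (u - (2 * e2 - pth k ζ)))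
      + chi 2 k ζ * (1 / (u - pth k ζ) - 1 / (u - (2 * e3 - pth k ζ)))) with hM'
    set T' : ℕ → ℂ := fun k => (chi 2 k ζ * (1 / (u - pth k ζ) - 1 / (a u - pth k ζ) / deriv a u)
      + chi 1 k ζ * (1 / (u - pth k ζ) - 1 / (b u - pth k ζ) / deriv b u)
      + chi 0 k ζ * (if k = 0 then deriv b ζ ^ 2 else 1) *
        (1 / (b u - (if k = 0 then b ζ else 2 * e2 - pth k ζ)) / deriv b u
          - 1 / (c u - (if k = 0 then b ζ else 2 * e2 - pth k ζ)) / deriv c u)) with hT'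
    have htel : ∑ k ∈ Finset.range 600, M k = 1 / (u - ζ) - 1 / (u - pth 600 ζ) :=
      telescope (fun z => 1 / (u - z)) 600 ζ
    have hTT : ∀ k, T k θ = ρ θ * T' k := by
      intro k
      simp only [hT, hT', hρ3, hρ2, hρ1, hzz, hz1, ← hζ]
      ring
    have hstep : ∀ k, ‖M k - T' k‖ ≤ 100 * 576 ^ 2 * κ := fun k =>
      step_close hκ hκ2 hs1 hs2 hrs ha hb hc hu hζn k
    have e : ρ θ * (u - ζ)⁻¹ - ρ θ * u⁻¹ - ∑ k ∈ Finset.range 600, T k θ
        = ρ θ * ((1 / (u - pth 600 ζ) - 1 / u) + ∑ k ∈ Finset.range 600, (M k - T' k)) := by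
      rw [Finset.sum_sub_distrib, htel]
      simp_rw [hTT]
      rw [← Finset.mul_sum]
      ring
    rw [e, norm_mul]
    have hsum : ‖∑ k ∈ Finset.range 600, (M k - T' k)‖ ≤ 600 * (100 * 576 ^ 2 * κ) := by
      refine (norm_sum_le _ _).trans ?_
      refine (Finset.sum_le_card_nsmul _ _ _ fun k _ => hstep k).trans (le_of_eq ?_)
      rw [Finset.card_range, nsmul_eq_mul]
      norm_num
    have hsmall : ‖1 / (u - pth 600 ζ) - 1 / u‖ ≤ 1 / (3 * s) := by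
      have h1 : ‖pth 600 ζ‖ < 1 / 4 := pth_small (by rw [hζn]; exact hs2)
      have h2 := norm_sub_ge u (pth 600 ζ)
      have h3 : 3 / 4 * s ≤ ‖u - pth 600 ζ‖ := by linarith
      have h4 : u - pth 600 ζ ≠ 0 := by
        rw [← norm_pos_iff]; exact lt_of_lt_of_le (by positivity) h3
      have e1 : 1 / (u - pth 600 ζ) - 1 / u = pth 600 ζ / ((u - pth 600 ζ) * u) := by
        field_simp
        ring
      rw [e1, norm_div, norm_mul]
      calc ‖pth 600 ζ‖ / (‖u - pth 600 ζ‖ * ‖u‖) ≤ (1 / 4) / (3 / 4 * s * s) := by gcongr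
        _ ≤ 1 / (3 * s) := by
          rw [div_le_div_iff₀ (by positivity) (by positivity)]
          nlinarith
    gcongr
    · exact hρn θ
    · exact (norm_add_le _ _).trans (add_le_add hsmall hsum)
  have hfin := intervalIntegral.norm_integral_le_of_norm_le_const (a := 0) (b := 2 * Real.pi)
    (f := fun θ => ρ θ * (u - Z θ)⁻¹ - ρ θ * u⁻¹ - ∑ k ∈ Finset.range 600, T k θ)
    (C := Mρ * (1 / (3 * s) + 600 * (100 * 576 ^ 2 * κ))) (fun θ _ => hpt θ)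
  refine hfin.trans ?_
  rw [sub_zero, abs_of_pos Real.two_pi_pos]
  have e5 : Mρ * (1 / (3 * s) + 600 * (100 * 576 ^ 2 * κ)) * (2 * Real.pi)
      = 1 / 3 * ε + s * ε * (600 * (100 * 576 ^ 2 * κ)) := by
    rw [hMρ]
    field_simp
  rw [e5]
  have h6 : 600 * (100 * 576 ^ 2 * κ) ≤ 1 / 30 := by
    norm_num
    linarith
  have h7 : s * ε * (600 * (100 * 576 ^ 2 * κ)) ≤ 2 * ε * (1 / 30) := by gcongr
  linarith

end Pool.Agent.Lib.MP_40a019_an.I3
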