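import Pool.Agent.Lib.MP_40a019_an.I3.Solver
import Pool.Agent.Lib.MP_40a019_an.I3.StepB

namespace Pool.Agent.Lib.MP_40a019_an.I3

open Complex Metric Set Filter Topology

theorem base_sum : (-1 / 4 : ℂ) - 2 * e3 - tt = 0 := by
  unfold e3 tt e2 e1; ring

theorem a_mem {κ r : ℝ} {a : ℂ → ℂ} (hκ1 : κ ≤ 1 / 100) (hr : 1 ≤ r)
    (ha : Close κ r (-1) (2 * e3) a) {u : ℂ} (hu : u ∈ D r) : a u ∈ D (3 / 4) := by
  have h1 := ha.val u hu
  have h2 := norm_two_e3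
  have h3 : ‖u‖ ≤ ‖a u‖ + κ + ‖2 * e3‖ := by
    calc ‖u‖ = ‖-(a u) + (a u - (-1 * u + 2 * e3)) + (2 * e3)‖ := by congr 1; ring
      _ ≤ ‖-(a u)‖ + ‖a u - (-1 * u + 2 * e3)‖ + ‖2 * e3‖ := norm_add₃_le
      _ ≤ _ := by rw [norm_neg]; gcongr
  have h4 : r < ‖u‖ := hu
  have : 3 / 4 < ‖a u‖ := by linarith
  exact this

theorem one_step : ∃ C κ₀ : ℝ, 0 < C ∧ 0 < κ₀ ∧ κ₀ ≤ 1 / 10000 ∧
    ∀ (F : ℂ → ℂ), Close κ₀ (3 / 4) (-1) (-1 / 4) F →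
    ∀ (κ r δ ε : ℝ) (a b c : ℂ → ℂ), 0 ≤ κ → κ ≤ κ₀ → 1 ≤ r → 0 < δ → δ ≤ κ₀ →
      r + 4 * δ ≤ 2 → 0 ≤ ε →
      C * ε ≤ δ ^ 4 → State F κ r ε a b c →
      ∃ a' b' c' : ℂ → ℂ, State F (κ + C * ε / δ ^ 4) (r + 4 * δ) (ε / 2) a' b' c' ∧
        ∀ u ∈ D (r + 4 * δ), ‖a' u - a u‖ ≤ C * ε / δ ^ 4 ∧ ‖b' u - b u‖ ≤ C * ε / δ ^ 4 ∧
          ‖c' u - c u‖ ≤ C * ε / δ ^ 4 := by
  obtain ⟨Cs, κ₀, hCs, hκ₀, hκ₀', hsolve⟩ := linear_solver
  set A : ℝ := 4 * (2 * Cs + 1) with hA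
  have hA4 : 4 ≤ A := by rw [hA]; nlinarith
  refine ⟨520 * A ^ 2 + 1000 * A, κ₀, by positivity, hκ₀, hκ₀', ?_⟩
  intro F hF κ r δ ε a b c hκ hκκ hr hδ hδκ hrδ hε hCε hS
  have hδ1 : δ ≤ 1 / 10000 := hδκ.trans hκ₀'
  have hκ1 : κ ≤ 1 / 10000 := hκκ.trans hκ₀'
  have n1 : ‖(-1 : ℂ)‖ = 1 := by simp
  have n2 : ‖(1 : ℂ)‖ = 1 := by simp
  -- the density
  set Δ : ℂ → ℂ := fun u => F (a u) - c u with hΔ
  set E : ℂ → ℂ := fun u => Δ u / deriv c u with hE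
  have hamem : ∀ u ∈ D r, a u ∈ D (3 / 4) := fun u hu => a_mem (by linarith) hr hS.ca hu
  have hFa : ∀ u ∈ D r, DifferentiableAt ℂ (fun u => F (a u)) u := fun u hu =>
    (hF.diff _ (hamem u hu)).comp u (hS.ca.diff u hu)
  have hΔd : ∀ u ∈ D r, DifferentiableAt ℂ Δ u := fun u hu => (hFa u hu).sub (hS.cc.diff u hu)
  have hdc : ∀ u ∈ D r, DifferentiableAt ℂ (deriv c) u := by
    intro x hx
    have ho : DifferentiableOn ℂ c (D r) := fun y hy => (hS.cc.diff y hy).differentiableWithinAt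
    exact (ho.deriv (isOpen_D r)).differentiableAt ((isOpen_D r).mem_nhds hx)
  have hc1 : ∀ u ∈ D r, 1 - κ ≤ ‖deriv c u‖ := fun u hu => hS.cc.le_deriv n2 hu
  have hc0 : ∀ u ∈ D r, deriv c u ≠ 0 := by
    intro u hu h0
    have := hc1 u hu
    rw [h0, norm_zero] at this
    linarith
  have hEd : ∀ u ∈ D r, DifferentiableAt ℂ E u := fun u hu =>
    (hΔd u hu).div (hdc u hu) (hc0 u hu)
  set ε' : ℝ := 1001 / 1000 * ε with hε'
  have hEb : ∀ u ∈ D r, ‖E u‖ ≤ ε' := by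
    intro u hu
    simp only [hE]
    rw [norm_div, div_le_iff₀ (lt_of_lt_of_le (by linarith) (hc1 u hu))]
    calc ‖Δ u‖ ≤ ε := hS.defect u hu
      _ ≤ ε' * (1 - κ) := by rw [hε']; nlinarith
      _ ≤ _ := by gcongr; exact hc1 u hu
  have hΔasy : ∃ K, ∀ u ∈ D r, ‖Δ u‖ * ‖u‖ ^ 2 ≤ K := by
    obtain ⟨KF, hKF⟩ := hF.asy
    obtain ⟨Ka, hKa⟩ := hS.ca.asy
    obtain ⟨Kc, hKc⟩ := hS.cc.asy
    refine ⟨16 * KF + Ka + Kc, fun u hu => ?_⟩
    have e : Δ u = (F (a u) - (-1 * a u + -1 / 4)) + -(a u - (-1 * u + 2 * e3))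
        + -(c u - (1 * u + tt)) := by
      simp only [hΔ]
      linear_combination base_sum
    have h1 : ‖u‖ ≤ 4 * ‖a u‖ := by
      have h1 := hS.ca.val u hu
      have h2 := norm_two_e3
      have h3 : ‖u‖ ≤ ‖a u‖ + κ + ‖2 * e3‖ := by
        calc ‖u‖ = ‖-(a u) + (a u - (-1 * u + 2 * e3)) + (2 * e3)‖ := by congr 1; ring
          _ ≤ ‖-(a u)‖ + ‖a u - (-1 * u + 2 * e3)‖ + ‖2 * e3‖ := norm_add₃_le
          _ ≤ _ := by rw [norm_neg]; gcongr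
      have h4 : 3 / 4 < ‖a u‖ := hamem u hu
      linarith
    have h2 : ‖u‖ ^ 2 ≤ 16 * ‖a u‖ ^ 2 := by nlinarith [norm_nonneg u]
    have h3 := hKF (a u) (hamem u hu)
    have h4 := hKa u hu
    have h5 := hKc u hu
    rw [e]
    calc ‖(F (a u) - (-1 * a u + -1 / 4)) + -(a u - (-1 * u + 2 * e3))
        + -(c u - (1 * u + tt))‖ * ‖u‖ ^ 2
        ≤ (‖F (a u) - (-1 * a u + -1 / 4)‖ + ‖a u - (-1 * u + 2 * e3)‖
          + ‖c u - (1 * u + tt)‖) * ‖u‖ ^ 2 := by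
          gcongr
          refine norm_add₃_le.trans ?_
          rw [norm_neg, norm_neg]
      _ = ‖F (a u) - (-1 * a u + -1 / 4)‖ * ‖u‖ ^ 2 + ‖a u - (-1 * u + 2 * e3)‖ * ‖u‖ ^ 2
          + ‖c u - (1 * u + tt)‖ * ‖u‖ ^ 2 := by ring
      _ ≤ ‖F (a u) - (-1 * a u + -1 / 4)‖ * (16 * ‖a u‖ ^ 2) + Ka + Kc := by gcongr
      _ = 16 * (‖F (a u) - (-1 * a u + -1 / 4)‖ * ‖a u‖ ^ 2) + Ka + Kc := by ring
      _ ≤ 16 * KF + Ka + Kc := by gcongr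
  have hEasy : ∃ K, ∀ u ∈ D r, ‖E u‖ * ‖u‖ ^ 2 ≤ K := by
    obtain ⟨K, hK⟩ := hΔasy
    refine ⟨2 * K, fun u hu => ?_⟩
    simp only [hE]
    have h1 := hc1 u hu
    have h2 : ‖Δ u / deriv c u‖ ≤ 2 * ‖Δ u‖ := by
      rw [norm_div, div_le_iff₀ (by linarith)]
      nlinarith [norm_nonneg (Δ u)]
    have h3 := hK u hu
    calc ‖Δ u / deriv c u‖ * ‖u‖ ^ 2 ≤ 2 * ‖Δ u‖ * ‖u‖ ^ 2 := by gcongr
      _ = 2 * (‖Δ u‖ * ‖u‖ ^ 2) := by ring
      _ ≤ 2 * K := by gcongr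
  have hε'0 : 0 ≤ ε' := by rw [hε']; positivity
  obtain ⟨G₁, G₂, G₃, K₁, K₂, K₃, hG1, hG2, hG3, hK3, hK3a, hK2, hK2b, hK1b, hK1c, hLL⟩ :=
    hsolve κ r (r + δ) ε' a b c E hκ hκκ hr (by linarith) (by linarith) hε'0 hS.ca hS.cb hS.cc
      hEd hEb hEasy
  set ν : ℝ := A * ε / δ ^ 2 with hν
  have hν0 : 0 ≤ ν := by positivity
  have hMν : 4 * (Cs * ε') / δ ^ 2 ≤ ν := by
    rw [hν, hA, hε']
    gcongr ?_ / δ ^ 2
    have : 0 ≤ Cs * ε := by positivity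
    nlinarith
  have hεν : ε / δ ≤ ν := by
    rw [hν, div_le_div_iff₀ hδ (by positivity)]
    have h1 : 0 ≤ ε * δ := by positivity
    have h2 : ε * δ ^ 2 ≤ ε * δ := by nlinarith
    nlinarith
  have hCA : A * ε ≤ δ ^ 4 / 1000 := by
    have h1 : 1000 * (A * ε) ≤ (520 * A ^ 2 + 1000 * A) * ε := by
      have : 0 ≤ 520 * A ^ 2 * ε := by positivity
      nlinarith
    linarith
  have hν1 : ν ≤ 1 / 1000 := by
    rw [hν, div_le_iff₀ (by positivity)]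
    have : δ ^ 4 ≤ δ ^ 2 := by
      have : δ ^ 4 = δ ^ 2 * δ ^ 2 := by ring
      rw [this]
      have h2 : δ ^ 2 ≤ 1 := by nlinarith
      nlinarith [sq_nonneg δ]
    linarith
  have hν2 : 26 * ν ^ 2 ≤ ε / 20 := by
    have h1 : 520 * A ^ 2 * ε ≤ δ ^ 4 := by
      have : 0 ≤ 1000 * A * ε := by positivity
      nlinarith
    have h2 : 26 * ν ^ 2 = (520 * A ^ 2 * ε) * ε / (20 * δ ^ 4) := by
      rw [hν]; field_simp; ring
    rw [h2, div_le_div_iff₀ (by positivity) (by norm_num)]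
    nlinarith [mul_le_mul_of_nonneg_right h1 hε]
  set ρ : ℝ := r + 2 * δ with hρ
  have hsm1 := hG1.toSm hδ hMν
  have hsm2 := hG2.toSm hδ hMν
  have hsm3 := hG3.toSm hδ hMν
  have hDs : D ρ ⊆ D (r + δ) := D_anti (by rw [hρ]; linarith)
  have hDr : D ρ ⊆ D r := D_anti (by rw [hρ]; linarith)
  have hρu : ∀ u ∈ D ρ, δ ≤ ‖u‖ - (r + δ) := by
    intro u hu
    have : ρ < ‖u‖ := hu
    rw [hρ] at this
    linarith
  -- first two conjugations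
  obtain ⟨J₃, a', ha'1, ha'2, ha'3⟩ := conj_step (Γ := {w | ∀ z ∈ K₃, δ / 2 ≤ ‖w - z‖}) (ρ := ρ)
    (H := G₃) hκ (by linarith) hν0 (by linarith) hδ (by linarith) (by rw [hρ]; linarith)
    (by rw [hρ]; linarith) (norm_two_e3.trans (by norm_num)) hS.ca hS.ia hsm3
    (fun u hu z hz => by have := hK3 u (hDs hu) z hz; have := hρu u hu; linarith)
    (fun u hu z hz => by have := hK3a u (hDs hu) z hz; linarith)
  obtain ⟨J₂, b', hb'1, hb'2, hb'3⟩ := conj_step (Γ := {w | ∀ z ∈ K₂, δ / 2 ≤ ‖w - z‖}) (ρ := ρ)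
    (H := fun w => - G₂ w) hκ (by linarith) hν0 (by linarith) hδ (by linarith)
    (by rw [hρ]; linarith)
    (by rw [hρ]; linarith) (norm_two_e2.trans (by norm_num)) hS.cb hS.ib hsm2.neg
    (fun u hu z hz => by have := hK2 u (hDs hu) z hz; have := hρu u hu; linarith)
    (fun u hu z hz => by have := hK2b u (hDs hu) z hz; linarith)
  obtain ⟨c', hc'1, hc'2, hc'3⟩ := c_step (Γ := {w | ∀ z ∈ K₁, δ / 2 ≤ ‖w - z‖}) (ρ := ρ)
    (H₁ := fun w => - G₁ w) (H₂ := fun w => - G₂ w) (b' := b') hκ (by linarith) hν0 (by linarith)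
    hδ (by linarith) (by rw [hρ]; linarith) hS.cb hS.cc hS.ic hsm1.neg
    (fun u hu z hz => by
      have := hK1b u (hDs hu) z hz
      have := hρu u hu
      linarith)
    (fun u hu z hz => by have := hK1c u (hDs hu) z hz; linarith)
    (fun u hu => ⟨(hb'1 u hu).2.2.2.2.1, (hb'1 u hu).2.2.2.2.2.1, (hb'1 u hu).2.2.2.2.2.2⟩)
    hb'3
  have hρδ : ρ + δ = r + 3 * δ := by rw [hρ]; ring
  have hρδδ : ρ + δ + δ = r + 4 * δ := by rw [hρ]; ring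
  have hD1 : D (ρ + δ) ⊆ D ρ := D_anti (by linarith)
  have hD2 : D (r + 4 * δ) ⊆ D (ρ + δ) := D_anti (by linarith)
  have hνC : 6 * ν * δ ≤ (520 * A ^ 2 + 1000 * A) * ε / δ ^ 4 := by
    have h2 : 6 * ν * δ = (6 * A * ε) * δ ^ 3 / δ ^ 4 := by
      rw [hν]; field_simp
    rw [h2]
    gcongr ?_ / δ ^ 4
    have h3 : δ ^ 3 ≤ 1 := pow_le_one₀ hδ.le (by linarith)
    have h4 : 0 ≤ 6 * A * ε := by positivity
    have h5 : 0 ≤ A ^ 2 * ε := by positivity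
    have h6 : 0 ≤ A * ε := by positivity
    nlinarith
  have hνC2 : 64 * (6 * ν * δ) / δ ^ 2 ≤ (520 * A ^ 2 + 1000 * A) * ε / δ ^ 4 := by
    have h2 : 64 * (6 * ν * δ) / δ ^ 2 = (384 * A * ε) * δ / δ ^ 4 := by
      rw [hν]; field_simp; ring
    rw [h2]
    gcongr ?_ / δ ^ 4
    have h4 : 0 ≤ 384 * A * ε := by positivity
    have h5 : 0 ≤ A ^ 2 * ε := by positivity
    have h6 : 0 ≤ A * ε := by positivity
    nlinarith
  have hνδ : 0 ≤ ν * δ := by positivity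
  have hνδν : ν * δ ≤ ν := mul_le_of_le_one_right hν0 (by linarith)
  have hclose : ∀ (σ τ : ℂ) (f f' : ℂ → ℂ), Close κ r σ τ f →
      (∀ u ∈ D (ρ + δ), DifferentiableAt ℂ f' u) → (∀ u ∈ D (ρ + δ), ‖f' u - f u‖ ≤ 6 * ν * δ) →
      (∃ K, ∀ u ∈ D (ρ + δ), ‖f' u - (σ * u + τ)‖ * ‖u‖ ^ 2 ≤ K) →
      Close (κ + (520 * A ^ 2 + 1000 * A) * ε / δ ^ 4) (r + 4 * δ) σ τ f' := by
    intro σ τ f f' hf h1 h2 h3
    rw [← hρδδ]
    have h4 : Close (κ + 64 * (6 * ν * δ) / δ ^ 2) (ρ + δ + δ) σ τ f' :=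
      hf.perturb (ρ := ρ + δ) (by rw [hρ]; linarith) hδ (by linarith)
        (fun u hu => hf.diff u (hDr (hD1 hu))) h1 h2
        (by
          obtain ⟨K, hK⟩ := h3
          exact ⟨K, fun u hu => hK u (D_anti (by linarith) hu)⟩)
    exact h4.mono (by linarith) le_rfl
  refine ⟨a', b', c', ⟨?_, ?_, ?_, ?_, ?_, ?_, ?_⟩, ?_⟩
  · exact hclose _ _ a a' hS.ca (fun u hu => (ha'1 u hu).2.2.2.2.1)
      (fun u hu => ((ha'1 u hu).2.2.2.2.2.1).trans (by linarith)) ha'3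
  · exact hclose _ _ b b' hS.cb (fun u hu => (hb'1 u hu).2.2.2.2.1)
      (fun u hu => ((hb'1 u hu).2.2.2.2.2.1).trans (by linarith)) hb'3
  · exact hclose _ _ c c' hS.cc (fun u hu => (hc'1 u hu).1)
      (fun u hu => (hc'1 u hu).2.1) hc'3
  · intro u hu hu'
    exact ha'2 u (hD2 hu) (hD2 hu')
  · intro u hu hu'
    exact hb'2 u (hD2 hu) (hD2 hu')
  · intro u hu v hv
    exact hc'2 u (hD2 hu) v (hD2 hv)
  · intro u hu
    have hu3 := hD2 hu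
    have huρ := hD1 hu3
    have hur := hDr huρ
    obtain ⟨-, -, -, -, ha'd, ha'n, ha'e⟩ := ha'1 u hu3
    obtain ⟨hc'd, hc'n, hc'e⟩ := hc'1 u hu3
    have hLLu := hLL u (hDs huρ)
    set a₁ := deriv a u with ha₁
    set b₁ := deriv b u with hb₁
    set c₁ := deriv c u with hc₁
    set F₁ := deriv F (a u) with hF₁
    have ha0 : a₁ ≠ 0 := by
      intro h0
      have := hS.ca.le_deriv n1 hur
      rw [← ha₁, h0, norm_zero] at this
      linarith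
    have hcn0 : c₁ ≠ 0 := hc0 u hur
    have hc₁n : ‖c₁‖ ≤ 1 + κ := hS.cc.deriv_le n2 hur
    have hκ₀0 : κ₀ ≤ 1 / 100 := by linarith
    have hF₁n : ‖F₁‖ ≤ 1 + κ₀ := hF.deriv_le n1 (hamem u hur)
    have ha₁n := hS.ca.le_deriv n1 hur
    rw [← ha₁] at ha₁n
    -- derivative of the defect
    have hΔ1 : ‖F₁ * a₁ - c₁‖ ≤ ν := by
      have h1 : HasDerivAt Δ (F₁ * a₁ - c₁) u := by
        have h2 : HasDerivAt F F₁ (a u) := (hF.diff _ (hamem u hur)).hasDerivAt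
        have h3 : HasDerivAt a a₁ u := (hS.ca.diff u hur).hasDerivAt
        have h4 : HasDerivAt c c₁ u := (hS.cc.diff u hur).hasDerivAt
        exact (h2.comp u h3).fun_sub h4
      rw [← h1.deriv]
      refine le_trans ?_ hεν
      exact deriv_le_of_sup hδ hΔd hS.defect (hDs huρ)
    -- value of the new a
    have ha'mem : a' u ∈ D (3 / 4) := by
      have h1 : ‖a' u - a u‖ ≤ 1 / 100 := by
        refine ha'n.trans ?_
        linarith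
      have h2 := hS.ca.val u hur
      have h3 := norm_two_e3
      have h4 : 1 < ‖u‖ := lt_of_le_of_lt hr hur
      have h5 : ‖u‖ ≤ ‖a' u‖ + ‖a' u - a u‖ + (κ + ‖2 * e3‖) := by
        calc ‖u‖ = ‖-(a' u) + (a' u - a u) + ((a u - (-1 * u + 2 * e3)) + (2 * e3))‖ := by
              congr 1; ring
          _ ≤ ‖-(a' u)‖ + ‖a' u - a u‖ + ‖(a u - (-1 * u + 2 * e3)) + (2 * e3)‖ := norm_add₃_le
          _ ≤ _ := by
            rw [norm_neg]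
            gcongr
            exact (norm_add_le _ _).trans (by gcongr)
      have : 3 / 4 < ‖a' u‖ := by linarith
      exact this
    have hFt : ‖F (a' u) - F (a u) - F₁ * (a' u - a u)‖ ≤ κ₀ * ‖a' u - a u‖ ^ 2 :=
      hF.tay _ ha'mem _ (hamem u hur)
    have g3u : ‖G₃ u‖ ≤ ν / 2 := by
      refine (hsm3.bd u ?_).trans (by linarith)
      intro z hz
      have := hK3 u (hDs huρ) z hz; have := hρu u huρ; linarith
    have g3a : ‖G₃ (a u)‖ ≤ ν / 2 := by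
      refine (hsm3.bd (a u) ?_).trans (by linarith)
      intro z hz
      have := hK3a u (hDs huρ) z hz; linarith
    -- algebraic identity
    have key : F (a' u) - c' u = c₁ * (E u - LL a b c G₁ G₂ G₃ u)
        + (F (a' u) - F (a u) - F₁ * (a' u - a u))
        + F₁ * (a' u - (a u - a₁ * G₃ u + G₃ (a u)))
        + (F₁ * a₁ - c₁) * (-G₃ u + G₃ (a u) / a₁)
        - (c' u - (c u + c₁ * (-(-G₂ u) + -G₂ (b u) / b₁ - -G₁ (b u) / b₁) + -G₁ (c u))) := by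
      simp only [LL, hE, hΔ, ← ha₁, ← hb₁, ← hc₁]
      have e1 : c₁ * ((F (a u) - c u) / c₁) = F (a u) - c u := by field_simp
      have e2 : c₁ * (G₁ (c u) / c₁) = G₁ (c u) := by field_simp
      have e3 : F₁ * a₁ * (G₃ (a u) / a₁) = F₁ * G₃ (a u) := by field_simp
      linear_combination (-1 : ℂ) * e1 + (-1 : ℂ) * e2 + (-1 : ℂ) * e3
    rw [key]
    have s1 : ‖c₁ * (E u - LL a b c G₁ G₂ G₃ u)‖ ≤ 41 / 100 * ε := by
      rw [norm_mul]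
      calc ‖c₁‖ * ‖E u - LL a b c G₁ G₂ G₃ u‖ ≤ (1 + κ) * (2 / 5 * ε') := by gcongr
        _ ≤ (1 + 1 / 10000) * (2 / 5 * ε') := by gcongr
        _ ≤ 41 / 100 * ε := by rw [hε']; linarith
    have s2 : ‖F (a' u) - F (a u) - F₁ * (a' u - a u)‖ ≤ 1 * ν ^ 2 := by
      refine hFt.trans ?_
      have h1 : ‖a' u - a u‖ ≤ 2 * ν := by
        refine ha'n.trans ?_
        linarith
      calc κ₀ * ‖a' u - a u‖ ^ 2 ≤ 1 / 4 * (2 * ν) ^ 2 := by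
            gcongr; linarith
        _ = 1 * ν ^ 2 := by ring
    have s3 : ‖F₁ * (a' u - (a u - a₁ * G₃ u + G₃ (a u)))‖ ≤ 5 * ν ^ 2 := by
      rw [norm_mul]
      calc _ ≤ (1 + κ₀) * (4 * ν ^ 2) := by gcongr
        _ ≤ (1 + 1 / 4) * (4 * ν ^ 2) := by gcongr; linarith
        _ = 5 * ν ^ 2 := by ring
    have s4 : ‖(F₁ * a₁ - c₁) * (-G₃ u + G₃ (a u) / a₁)‖ ≤ 2 * ν ^ 2 := by
      rw [norm_mul]
      have h1 : ‖G₃ (a u) / a₁‖ ≤ ν := by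
        rw [norm_div, div_le_iff₀ (by linarith)]
        have h5 : ν * (1 / 2) ≤ ν * ‖a₁‖ := by gcongr; linarith
        linarith
      have h2 : ‖-G₃ u + G₃ (a u) / a₁‖ ≤ 2 * ν := by
        refine (norm_add_le _ _).trans ?_
        rw [norm_neg]
        linarith
      calc _ ≤ ν * (2 * ν) := by gcongr
        _ = _ := by ring
    calc _ ≤ ‖c₁ * (E u - LL a b c G₁ G₂ G₃ u)
        + (F (a' u) - F (a u) - F₁ * (a' u - a u))
        + F₁ * (a' u - (a u - a₁ * G₃ u + G₃ (a u)))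
        + (F₁ * a₁ - c₁) * (-G₃ u + G₃ (a u) / a₁)‖ + 18 * ν ^ 2 :=
          (norm_sub_le _ _).trans (by gcongr)
      _ ≤ 41 / 100 * ε + 1 * ν ^ 2 + 5 * ν ^ 2 + 2 * ν ^ 2 + 18 * ν ^ 2 := by
          gcongr
          refine (norm_add_le _ _).trans (add_le_add ?_ s4)
          exact norm_add₃_le.trans (add_le_add (add_le_add s1 s2) s3)
      _ ≤ ε / 2 := by linarith
  · intro u hu
    have hu3 := hD2 hu
    refine ⟨?_, ?_, ?_⟩
    · exact ((ha'1 u hu3).2.2.2.2.2.1).trans (le_trans (by linarith) hνC)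
    · exact ((hb'1 u hu3).2.2.2.2.2.1).trans (le_trans (by linarith) hνC)
    · exact ((hc'1 u hu3).2.1).trans hνC

end Pool.Agent.Lib.MP_40a019_an.I3
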