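import Pool.Agent.Lib.MP_40a019_an.I3.Basic

namespace Pool.Agent.Lib.MP_40a019_an.I3

open Complex Metric Set Filter Topology

/-- `H` is small and Lipschitz on `Γ`. -/
structure Sm (ν δ : ℝ) (Γ : Set ℂ) (H : ℂ → ℂ) : Prop where
  bd : ∀ w ∈ Γ, ‖H w‖ ≤ ν * δ / 2
  lip : ∀ w ∈ Γ, ∀ w' ∈ Γ, ‖H w - H w'‖ ≤ ν * ‖w - w'‖
  diff : ∀ w ∈ Γ, DifferentiableAt ℂ H w
  asy : ∃ m : ℂ, ∃ K' : ℝ, ∀ w, K' ≤ ‖w‖ → ‖H w - m / w‖ ≤ K' / ‖w‖ ^ 2

theorem IsCT.toSm {M ν δ : ℝ} {K : Set ℂ} {G : ℂ → ℂ} (h : IsCT M K G) (hδ : 0 < δ)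
    (hν : 4 * M / δ ^ 2 ≤ ν) : Sm ν δ {w | ∀ z ∈ K, δ / 2 ≤ ‖w - z‖} G := by
  refine ⟨fun w hw => (h.bound (δ / 2) (by positivity) w hw).trans ?_,
    fun w hw w' hw' => (h.lip (δ / 2) (by positivity) w w' hw hw').trans ?_,
    fun w hw => h.diff (δ / 2) (by positivity) w hw, h.asy⟩
  · calc M / (δ / 2) = 4 * M / δ ^ 2 * δ / 2 := by field_simp; ring
      _ ≤ ν * δ / 2 := by gcongr
  · have : M / (δ / 2) ^ 2 = 4 * M / δ ^ 2 := by field_simp; ring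
    rw [this]
    gcongr

theorem Sm.neg {ν δ : ℝ} {Γ : Set ℂ} {G : ℂ → ℂ} (h : Sm ν δ Γ G) :
    Sm ν δ Γ (fun w => - G w) := by
  refine ⟨fun w hw => by simpa using h.bd w hw, fun w hw w' hw' => ?_,
    fun w hw => (h.diff w hw).neg, ?_⟩
  · have e : -G w - -G w' = -(G w - G w') := by ring
    rw [e, norm_neg]
    exact h.lip w hw w' hw'
  · obtain ⟨m, K', hK⟩ := h.asy
    refine ⟨-m, K', fun w hw => ?_⟩
    have e : -G w - -m / w = -(G w - m / w) := by ring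
    rw [e, norm_neg]
    exact hK w hw

/-- two nearly opposite points: the leading terms cancel -/
theorem asy_pair {m : ℂ} {K' : ℝ} {H : ℂ → ℂ}
    (hK : ∀ w, K' ≤ ‖w‖ → ‖H w - m / w‖ ≤ K' / ‖w‖ ^ 2) {L : ℝ} (hL : 0 < L) (h1 : 2 * |K'| ≤ L)
    {p q : ℂ} (hp : L / 2 ≤ ‖p‖) (hq : L / 2 ≤ ‖q‖) (hpq : ‖p + q‖ ≤ 2) :
    ‖H p + H q‖ * L ^ 2 ≤ 8 * |K'| + 8 * ‖m‖ := by
  have hK0 : K' ≤ |K'| := le_abs_self _
  have hp0 : 0 < ‖p‖ := by linarith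
  have hq0 : 0 < ‖q‖ := by linarith
  have hp1 := hK p (by linarith)
  have hq1 := hK q (by linarith)
  have e1 : ∀ x : ℂ, L / 2 ≤ ‖x‖ → K' / ‖x‖ ^ 2 ≤ 4 * |K'| / L ^ 2 := by
    intro x hx
    have hx0 : 0 < ‖x‖ := by linarith
    rw [div_le_div_iff₀ (by positivity) (by positivity)]
    have h2 : L ^ 2 ≤ 4 * ‖x‖ ^ 2 := by nlinarith
    calc K' * L ^ 2 ≤ |K'| * L ^ 2 := by gcongr
      _ ≤ |K'| * (4 * ‖x‖ ^ 2) := by gcongr
      _ = _ := by ring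
  have hpne : p ≠ 0 := norm_pos_iff.1 hp0
  have hqne : q ≠ 0 := norm_pos_iff.1 hq0
  have e2 : H p + H q = (H p - m / p) + (H q - m / q) + m * (p + q) / (p * q) := by
    field_simp; ring
  have e3 : ‖m * (p + q) / (p * q)‖ ≤ 8 * ‖m‖ / L ^ 2 := by
    rw [norm_div, norm_mul, norm_mul, div_le_div_iff₀ (by positivity) (by positivity)]
    have h2 : L ^ 2 ≤ 4 * (‖p‖ * ‖q‖) := by nlinarith
    calc ‖m‖ * ‖p + q‖ * L ^ 2 ≤ ‖m‖ * 2 * (4 * (‖p‖ * ‖q‖)) := by gcongr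
      _ = _ := by ring
  have : ‖H p + H q‖ ≤ (8 * |K'| + 8 * ‖m‖) / L ^ 2 := by
    rw [e2]
    calc _ ≤ ‖H p - m / p‖ + ‖H q - m / q‖ + ‖m * (p + q) / (p * q)‖ := norm_add₃_le
      _ ≤ 4 * |K'| / L ^ 2 + 4 * |K'| / L ^ 2 + 8 * ‖m‖ / L ^ 2 :=
        add_le_add (add_le_add (hp1.trans (e1 p hp)) (hq1.trans (e1 q hq))) e3
      _ = _ := by ring
  rwa [le_div_iff₀ (by positivity)] at this

/-- bounded and `O(u^-2)` far away -/
theorem asy_of_far {r : ℝ} {φ : ℂ → ℂ} {B : ℝ} (hb : ∀ u ∈ D r, ‖φ u‖ ≤ B) {R K : ℝ}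
    (hfar : ∀ u ∈ D r, R ≤ ‖u‖ → ‖φ u‖ * ‖u‖ ^ 2 ≤ K) :
    ∃ K, ∀ u ∈ D r, ‖φ u‖ * ‖u‖ ^ 2 ≤ K := by
  have hB : 0 ≤ B := nonneg_of_sup hb
  refine ⟨max K (B * R ^ 2), fun u hu => ?_⟩
  by_cases h : R ≤ ‖u‖
  · exact (hfar u hu h).trans (le_max_left _ _)
  · push Not at h
    refine le_trans ?_ (le_max_right _ _)
    have := norm_nonneg u
    have h2 : ‖u‖ ^ 2 ≤ R ^ 2 := by nlinarith
    have := hb u hu
    gcongr

theorem conj_step {κ ν δ r ρ : ℝ} {τ : ℂ} {a H : ℂ → ℂ} {Γ : Set ℂ} (hκ : 0 ≤ κ)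
    (hκ1 : κ ≤ 1 / 100) (hν : 0 ≤ ν) (hν1 : ν ≤ 1 / 100) (hδ : 0 < δ) (hδ1 : δ ≤ 1) (hr : 1 ≤ ρ)
    (hrρ : r ≤ ρ) (hτ : ‖τ‖ ≤ 1 / 4)
    (ha : Close κ r (-1) τ a) (hia : ∀ u ∈ D r, a u ∈ D r → a (a u) = u) (hH : Sm ν δ Γ H)
    (hΓ1 : ∀ u ∈ D ρ, u ∈ Γ) (hΓ2 : ∀ u ∈ D ρ, a u ∈ Γ) :
    ∃ J a' : ℂ → ℂ, (∀ u ∈ D (ρ + δ), J u ∈ D ρ ∧ J u + H (J u) = u ∧ ‖J u - u‖ ≤ ν * δ / 2 ∧
      a' u = a (J u) + H (a (J u)) ∧ DifferentiableAt ℂ a' u ∧ ‖a' u - a u‖ ≤ 2 * ν * δ ∧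
      ‖a' u - (a u - deriv a u * H u + H (a u))‖ ≤ 4 * ν ^ 2) ∧
      (∀ u ∈ D (ρ + δ), a' u ∈ D (ρ + δ) → a' (a' u) = u) ∧
      (∃ K, ∀ u ∈ D (ρ + δ), ‖a' u - (-1 * u + τ)‖ * ‖u‖ ^ 2 ≤ K) := by
  have hDρ : D ρ ⊆ D r := D_anti hrρ
  have hDρδ : D (ρ + δ) ⊆ D ρ := D_anti (by linarith)
  obtain ⟨J, hJ1, hJ2⟩ := inv_lemma 1 (by simp) (D ρ) (isOpen_D ρ) (fun v => v + H v)
    (fun v hv => differentiableAt_id.add (hH.diff v (hΓ1 v hv)))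
    (by
      intro x hx y hy
      have e : x + H x - (y + H y) - 1 * (x - y) = H x - H y := by ring
      rw [e]
      refine (hH.lip x (hΓ1 x hx) y (hΓ1 y hy)).trans ?_
      gcongr; linarith)
  have hball : ∀ u ∈ D (ρ + δ), closedBall u δ ⊆ D ρ := by
    intro u hu x hx
    exact mem_D_of_dist hu (by simpa [dist_eq_norm] using hx)
  have hJ : ∀ u ∈ D (ρ + δ), J u ∈ D ρ ∧ J u + H (J u) = u ∧ ‖J u - u‖ ≤ ν * δ / 2 ∧
      DifferentiableAt ℂ J u := by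
    intro u hu
    have h0 : ‖u - (u + H u)‖ ≤ δ / 2 := by
      have e : u - (u + H u) = - H u := by ring
      rw [e, norm_neg]
      refine (hH.bd u (hΓ1 u (hDρδ hu))).trans ?_
      nlinarith
    obtain ⟨h1, h2, -, h4⟩ := hJ2 u δ u hδ.le (hball u hu) h0
    refine ⟨h1, h2, ?_, h4⟩
    have e : J u - u = - H (J u) := by linear_combination h2
    rw [e, norm_neg]
    exact hH.bd _ (hΓ1 _ h1)
  have hlipa : ∀ u ∈ D ρ, ∀ v ∈ D ρ, ‖a u - a v‖ ≤ (1 + κ) * ‖u - v‖ := by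
    intro u hu v hv
    have h1 := ha.lip u (hDρ hu) v (hDρ hv)
    calc ‖a u - a v‖ = ‖(a u - a v - -1 * (u - v)) + (-1 * (u - v))‖ := by congr 1; ring
      _ ≤ κ * ‖u - v‖ + ‖-1 * (u - v)‖ := (norm_add_le _ _).trans (by gcongr)
      _ = _ := by rw [norm_mul, norm_neg, norm_one]; ring
  refine ⟨J, fun u => a (J u) + H (a (J u)), ?_, ?_, ?_⟩
  · intro u hu
    obtain ⟨h1, h2, h3, h4⟩ := hJ u hu
    have huρ := hDρδ hu
    have hx : ‖a (J u) - a u‖ ≤ (1 + κ) * (ν * δ / 2) :=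
      (hlipa _ h1 _ huρ).trans (by gcongr)
    refine ⟨h1, h2, h3, rfl, ?_, ?_, ?_⟩
    · have d1 : DifferentiableAt ℂ a (J u) := ha.diff _ (hDρ h1)
      have d2 : DifferentiableAt ℂ H (a (J u)) := hH.diff _ (hΓ2 _ h1)
      have d3 : DifferentiableAt ℂ (fun u => a (J u)) u := d1.comp u h4
      exact d3.add (d2.comp u d3)
    · have e : a (J u) + H (a (J u)) - a u = (a (J u) - a u) + H (a (J u)) := by ring
      simp only
      rw [e]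
      refine (norm_add_le _ _).trans ?_
      have h5 := hH.bd _ (hΓ2 _ h1)
      have : 0 ≤ ν * δ := by positivity
      nlinarith
    · simp only
      set v := J u with hv
      have hvu : v - u = - H v := by linear_combination h2
      have t1 : ‖a v - a u - deriv a u * (v - u)‖ ≤ κ * ‖v - u‖ ^ 2 :=
        ha.tay v (hDρ h1) u (hDρ huρ)
      have t2 : ‖H u - H v‖ ≤ ν * ‖u - v‖ := hH.lip _ (hΓ1 _ huρ) _ (hΓ1 _ h1)
      have t3 : ‖H (a v) - H (a u)‖ ≤ ν * ‖a v - a u‖ := hH.lip _ (hΓ2 _ h1) _ (hΓ2 _ huρ)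
      have t4 : ‖deriv a u‖ ≤ 1 + κ := by
        have := ha.der u (hDρ huρ)
        calc ‖deriv a u‖ = ‖(deriv a u - -1) + -1‖ := by congr 1; ring
          _ ≤ κ + ‖(-1 : ℂ)‖ := (norm_add_le _ _).trans (by gcongr)
          _ = 1 + κ := by rw [norm_neg, norm_one]; ring
      have t5 : ‖u - v‖ ≤ ν := by
        rw [norm_sub_rev]
        refine h3.trans ?_
        nlinarith
      have e : a v + H (a v) - (a u - deriv a u * H u + H (a u))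
          = (a v - a u - deriv a u * (v - u)) + deriv a u * (H u - H v)
            + (H (a v) - H (a u)) := by
        rw [hvu]; ring
      rw [e]
      have t6 : ‖v - u‖ ≤ ν := by rw [norm_sub_rev]; exact t5
      calc _ ≤ ‖a v - a u - deriv a u * (v - u)‖ + ‖deriv a u * (H u - H v)‖
            + ‖H (a v) - H (a u)‖ := norm_add₃_le
        _ ≤ κ * ν ^ 2 + (1 + κ) * (ν * ν) + ν * ((1 + κ) * (ν * δ / 2)) := by
          rw [norm_mul]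
          gcongr
          · exact t1.trans (by gcongr)
          · exact t2.trans (by gcongr)
          · exact t3.trans (by gcongr)
        _ ≤ 4 * ν ^ 2 := by
          have : ν * ((1 + κ) * (ν * δ / 2)) ≤ ν * ((1 + κ) * (ν * 1 / 2)) := by gcongr
          nlinarith [sq_nonneg ν]
  · intro u hu hu'
    simp only at hu' ⊢
    obtain ⟨h1, h2, h3, h4⟩ := hJ u hu
    have hav : a (J u) ∈ D ρ := by
      refine mem_D_of_dist hu' ?_
      have e : a (J u) - (a (J u) + H (a (J u))) = - H (a (J u)) := by ring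
      rw [e, norm_neg]
      refine (hH.bd _ (hΓ2 _ h1)).trans ?_
      nlinarith
    have e1 : J (a (J u) + H (a (J u))) = a (J u) := hJ1 _ hav
    rw [e1, hia (J u) (hDρ h1) (hDρ hav)]
    exact h2
  · obtain ⟨m, K', hK⟩ := hH.asy
    obtain ⟨Ka, hKa⟩ := ha.asy
    have hKa0 : 0 ≤ Ka := by
      obtain ⟨u, hu⟩ := exists_mem_D r
      exact le_trans (by positivity) (hKa u hu)
    refine asy_of_far (φ := fun u => a (J u) + H (a (J u)) - (-1 * u + τ)) (B := κ + 2 * ν * δ + 1)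
      (R := 2 * |K'| + 4) (K := 4 * Ka + (8 * |K'| + 8 * ‖m‖)) ?_ ?_
    · intro u hu
      obtain ⟨h1, h2, h3, h4⟩ := hJ u hu
      have e : a (J u) + H (a (J u)) - (-1 * u + τ)
          = (a (J u) - (-1 * J u + τ)) + H (a (J u)) + (u - J u) := by ring
      rw [e]
      refine norm_add₃_le.trans ?_
      have h5 := ha.val _ (hDρ h1)
      have h6 := hH.bd _ (hΓ2 _ h1)
      have h7 : ‖u - J u‖ ≤ ν * δ / 2 := by rw [norm_sub_rev]; exact h3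
      have : 0 ≤ ν * δ := by positivity
      linarith
    · intro u hu hR
      obtain ⟨h1, h2, h3, h4⟩ := hJ u hu
      set v := J u with hv
      have hvu : ‖v - u‖ ≤ 1 / 100 := by
        refine h3.trans ?_
        nlinarith
      have hav := ha.val v (hDρ h1)
      have hu0 : 4 ≤ ‖u‖ := by have := abs_nonneg K'; linarith
      have hv1 : ‖u‖ / 2 ≤ ‖v‖ := by
        have : ‖u‖ ≤ ‖v‖ + ‖v - u‖ := by
          calc ‖u‖ = ‖v - (v - u)‖ := by congr 1; ring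
            _ ≤ _ := norm_sub_le _ _
        linarith
      have hvav : ‖v + a v‖ ≤ 1 := by
        calc ‖v + a v‖ = ‖(a v - (-1 * v + τ)) + τ‖ := by congr 1; ring
          _ ≤ κ + 1 / 4 := (norm_add_le _ _).trans (add_le_add hav hτ)
          _ ≤ 1 := by linarith
      have hav1 : ‖u‖ / 2 ≤ ‖a v‖ := by
        have h5 : ‖u‖ ≤ ‖v - u‖ + ‖v + a v‖ + ‖a v‖ := by
          calc ‖u‖ = ‖-(v - u) + (v + a v) + -a v‖ := by congr 1; ring
            _ ≤ _ := norm_add₃_le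
            _ = _ := by rw [norm_neg, norm_neg]
        linarith
      have hpair := asy_pair hK (L := ‖u‖) (by linarith) (by linarith) hv1 hav1 (by linarith)
      have e : a v + H (a v) - (-1 * u + τ) = (a v - (-1 * v + τ)) + (H v + H (a v)) := by
        linear_combination (-1 : ℂ) * h2
      rw [e]
      have h6 := hKa v (hDρ h1)
      have h7 : ‖u‖ ^ 2 ≤ 4 * ‖v‖ ^ 2 := by nlinarith [norm_nonneg v]
      calc ‖(a v - (-1 * v + τ)) + (H v + H (a v))‖ * ‖u‖ ^ 2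
          ≤ (‖a v - (-1 * v + τ)‖ + ‖H v + H (a v)‖) * ‖u‖ ^ 2 := by gcongr; exact norm_add_le _ _
        _ = ‖a v - (-1 * v + τ)‖ * ‖u‖ ^ 2 + ‖H v + H (a v)‖ * ‖u‖ ^ 2 := by ring
        _ ≤ ‖a v - (-1 * v + τ)‖ * (4 * ‖v‖ ^ 2) + (8 * |K'| + 8 * ‖m‖) := by gcongr
        _ = 4 * (‖a v - (-1 * v + τ)‖ * ‖v‖ ^ 2) + (8 * |K'| + 8 * ‖m‖) := by ring
        _ ≤ 4 * Ka + (8 * |K'| + 8 * ‖m‖) := by gcongr

end Pool.Agent.Lib.MP_40a019_an.I3
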